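import Pool.Agent.R444.GQ.Stm

/-! `cont_thm`, `max_thm` and the product representation of `RR` (helper971). -/

set_option autoImplicit false

open MeasureTheory ProbabilityTheory Real Filter
open scoped Topology

namespace Pool.Agent.R444.GQ

instance nu_isProb971 (e : ℕ) : IsProbabilityMeasure (nu e) := by
  unfold nu
  split_ifs with h
  · infer_instance
  · have : (0 : ℝ) < (e : ℝ) / 2 := by
      have : 0 < e := Nat.pos_of_ne_zero h
      positivity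
    exact isProbabilityMeasure_gammaMeasure this (by norm_num)

lemma sq_add_le971 (a b : ℝ) : 1 + (a + b) ^ 2 ≤ 2 * ((1 + a ^ 2) * (1 + b ^ 2)) := by
  nlinarith [sq_nonneg (a - b), sq_nonneg (a * b), sq_nonneg (a + b)]

lemma CPG.bound971 {φ : ℝ → ℝ} (h : CPG φ) : ∃ C : ℝ, ∃ N : ℕ, 0 ≤ C ∧ ∀ s, |φ s| ≤ C * (1 + s ^ 2) ^ N := by
  obtain ⟨_, C, N, hC⟩ := h
  refine ⟨|C|, N, abs_nonneg _, fun s => (hC s).trans ?_⟩
  gcongr
  exact le_abs_self C

lemma cpgP971 (c R : ℝ) (N : ℕ) : CPG (fun s => (1 + R ^ 2 * (s - c) ^ 2) ^ N) := by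
  refine ⟨by fun_prop, ((1 + R ^ 2) * (2 * (1 + c ^ 2))) ^ N, N, fun s => ?_⟩
  rw [abs_of_nonneg (by positivity), ← mul_pow]
  have h1 : 1 + (s - c) ^ 2 ≤ 2 * ((1 + s ^ 2) * (1 + c ^ 2)) := by
    have := sq_add_le971 s (-c)
    simpa [sub_eq_add_neg] using this
  have h2 : 1 + R ^ 2 * (s - c) ^ 2 ≤ (1 + R ^ 2) * (1 + (s - c) ^ 2) := by
    nlinarith [sq_nonneg R, sq_nonneg (s - c), mul_nonneg (sq_nonneg R) (sq_nonneg (s - c))]
  have h3 : 1 + R ^ 2 * (s - c) ^ 2 ≤ (1 + R ^ 2) * (2 * (1 + c ^ 2)) * (1 + s ^ 2) := by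
    refine h2.trans ?_
    calc (1 + R ^ 2) * (1 + (s - c) ^ 2) ≤ (1 + R ^ 2) * (2 * ((1 + s ^ 2) * (1 + c ^ 2))) := by gcongr
      _ = _ := by ring
  exact pow_le_pow_left₀ (by positivity) h3 N

lemma CPG.comp_affine971 {φ : ℝ → ℝ} (h : CPG φ) (z v : ℝ) : CPG (fun y => φ (z + v * y)) := by
  obtain ⟨C, N, hC, hb⟩ := h.bound971
  have h1 := h.1
  refine ⟨by fun_prop, C * (2 * ((1 + z ^ 2) * (1 + v ^ 2))) ^ N, N, fun y => (hb _).trans ?_⟩
  rw [mul_assoc, ← mul_pow]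
  have h2 := sq_add_le971 z (v * y)
  have h3 : 1 + (v * y) ^ 2 ≤ (1 + v ^ 2) * (1 + y ^ 2) := by
    nlinarith [sq_nonneg v, sq_nonneg y]
  have h4 : 1 + (z + v * y) ^ 2 ≤ 2 * ((1 + z ^ 2) * (1 + v ^ 2)) * (1 + y ^ 2) := by
    refine h2.trans ?_
    calc 2 * ((1 + z ^ 2) * (1 + (v * y) ^ 2)) ≤ 2 * ((1 + z ^ 2) * ((1 + v ^ 2) * (1 + y ^ 2))) := by gcongr
      _ = _ := by ring
  gcongr

lemma CPG.mul971 {φ ψ : ℝ → ℝ} (h : CPG φ) (h' : CPG ψ) : CPG (fun y => φ y * ψ y) := by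
  obtain ⟨C, N, hC, hb⟩ := h.bound971
  obtain ⟨C', N', hC', hb'⟩ := h'.bound971
  refine ⟨h.1.mul h'.1, C * C', N + N', fun s => ?_⟩
  rw [abs_mul, pow_add]
  calc |φ s| * |ψ s| ≤ (C * (1 + s ^ 2) ^ N) * (C' * (1 + s ^ 2) ^ N') :=
        mul_le_mul (hb s) (hb' s) (abs_nonneg _) (by positivity)
    _ = _ := by ring

lemma cpg_const971 (K : ℝ) : CPG (fun _ => K) := ⟨continuous_const, |K|, 0, fun _ => by simp⟩

lemma cpgQ971 (K c : ℝ) (N : ℕ) : CPG (fun s => K * (1 + (s - c) ^ 2) ^ N) := by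
  have := (cpg_const971 K).mul971 (cpgP971 c 1 N)
  simpa using this

/-- the basic bound -/
lemma bound3x971 {φ : ℝ → ℝ} {C : ℝ} {N : ℕ} (hC : 0 ≤ C) (hb : ∀ s, |φ s| ≤ C * (1 + s ^ 2) ^ N)
    (R a x b x' b' : ℝ) (hx : |x| ≤ R) (hx' : |x'| ≤ R) :
    |φ (a + x * b + x' * b')| ≤
      (C * 4 ^ N * (1 + a ^ 2) ^ N) * ((1 + R ^ 2 * b ^ 2) ^ N * (1 + R ^ 2 * b' ^ 2) ^ N) := by
  refine (hb _).trans ?_
  have e1 : ∀ z t : ℝ, |z| ≤ R → 1 + (z * t) ^ 2 ≤ 1 + R ^ 2 * t ^ 2 := by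
    intro z t hz
    have : z ^ 2 ≤ R ^ 2 := sq_le_sq' (by linarith [neg_abs_le z]) ((le_abs_self z).trans hz)
    nlinarith [sq_nonneg t, mul_le_mul_of_nonneg_right this (sq_nonneg t)]
  have h1 : 1 + (a + x * b + x' * b') ^ 2 ≤ 4 * ((1 + a ^ 2) * ((1 + R ^ 2 * b ^ 2) * (1 + R ^ 2 * b' ^ 2))) := by
    calc 1 + (a + x * b + x' * b') ^ 2 ≤ 2 * ((1 + (a + x * b) ^ 2) * (1 + (x' * b') ^ 2)) := sq_add_le971 _ _
      _ ≤ 2 * ((2 * ((1 + a ^ 2) * (1 + (x * b) ^ 2))) * (1 + (x' * b') ^ 2)) := by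
          have := sq_add_le971 a (x * b)
          gcongr
      _ ≤ 2 * ((2 * ((1 + a ^ 2) * (1 + R ^ 2 * b ^ 2))) * (1 + R ^ 2 * b' ^ 2)) := by
          have := e1 x b hx
          have := e1 x' b' hx'
          gcongr
      _ = _ := by ring
  calc C * (1 + (a + x * b + x' * b') ^ 2) ^ N
      ≤ C * (4 * ((1 + a ^ 2) * ((1 + R ^ 2 * b ^ 2) * (1 + R ^ 2 * b' ^ 2)))) ^ N := by gcongr
    _ = _ := by rw [mul_pow, mul_pow, mul_pow]; ring

section prod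
variable (hi : S_nu_int) (hp : S_Lw_prob) (hl : S_Lw_int)
include hi hl in
lemma int3971 [∀ E, IsProbabilityMeasure (Lw E)] (E : ℝ →₀ ℕ) (e1 e2 : ℕ) {g0 g1 g2 : ℝ → ℝ}
    (h0 : CPG g0) (h1 : CPG g1) (h2 : CPG g2) :
    Integrable (fun p : ℝ × ℝ × ℝ => g0 p.1 * (g1 p.2.1 * g2 p.2.2)) ((Lw E).prod ((nu e1).prod (nu e2))) :=
  (hl E g0 h0).mul_prod ((hi e1 g1 h1).mul_prod (hi e2 g2 h2))

include hi in
lemma int2971 (e1 e2 : ℕ) {g1 g2 : ℝ → ℝ} (h1 : CPG g1) (h2 : CPG g2) :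
    Integrable (fun p : ℝ × ℝ => g1 p.1 * g2 p.2) ((nu e1).prod (nu e2)) :=
  (hi e1 g1 h1).mul_prod (hi e2 g2 h2)

include hi in
lemma cpg_avg971 {φ : ℝ → ℝ} (h : CPG φ) (e : ℕ) (v : ℝ) : CPG (fun s => ∫ y, φ (s + v * y) ∂(nu e)) := by
  obtain ⟨C, N, hC, hb⟩ := h.bound971
  have hcont := h.1
  have hbd : ∀ R s y : ℝ, |s| ≤ R → |φ (s + v * y)| ≤ C * (2 * (1 + R ^ 2)) ^ N * (1 + v ^ 2 * (y - 0) ^ 2) ^ N := by
    intro R s y hs
    refine (hb _).trans ?_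
    have h1 := sq_add_le971 s (v * y)
    have h2 : s ^ 2 ≤ R ^ 2 := sq_le_sq' (by linarith [neg_abs_le s]) ((le_abs_self s).trans hs)
    calc C * (1 + (s + v * y) ^ 2) ^ N ≤ C * (2 * ((1 + s ^ 2) * (1 + (v * y) ^ 2))) ^ N := by gcongr
      _ ≤ C * (2 * ((1 + R ^ 2) * (1 + (v * y) ^ 2))) ^ N := by gcongr
      _ = _ := by rw [sub_zero, mul_pow v y, ← mul_assoc 2, mul_pow]; ring
  refine ⟨?_, ?_⟩
  · rw [continuous_iff_continuousAt]
    intro s0
    refine continuousAt_of_dominated (bound := fun y => C * (2 * (1 + (|s0| + 1) ^ 2)) ^ N * (1 + v ^ 2 * (y - 0) ^ 2) ^ N)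
      ?_ ?_ ?_ ?_
    · exact Filter.Eventually.of_forall fun s => (by fun_prop : Continuous fun y => φ (s + v * y)).aestronglyMeasurable
    · have hev : ∀ᶠ s in 𝓝 s0, |s| < |s0| + 1 := by
        have : ContinuousAt (fun s : ℝ => |s|) s0 := continuous_abs.continuousAt
        exact this.eventually_lt continuousAt_const (by linarith)
      filter_upwards [hev] with s hs
      exact Filter.Eventually.of_forall fun y => hbd _ s y hs.le
    · exact (hi e _ (cpgP971 0 v N)).const_mul _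
    · exact Filter.Eventually.of_forall fun y => by fun_prop
  · refine ⟨(C * 2 ^ N) * ∫ y, (1 + v ^ 2 * (y - 0) ^ 2) ^ N ∂(nu e), N, fun s => ?_⟩
    have h1 : ∀ y, ‖φ (s + v * y)‖ ≤ C * (2 * (1 + s ^ 2)) ^ N * (1 + v ^ 2 * (y - 0) ^ 2) ^ N := by
      intro y
      have := hbd |s| s y le_rfl
      rwa [sq_abs] at this
    have h2 := norm_integral_le_of_norm_le (((hi e _ (cpgP971 0 v N)).const_mul (C * (2 * (1 + s ^ 2)) ^ N)))
      (Filter.Eventually.of_forall h1)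
    rw [integral_const_mul] at h2
    refine h2.trans (le_of_eq ?_)
    rw [mul_pow]; ring

/-- product representation -/
lemma RR_eq971 [∀ E, IsProbabilityMeasure (Lw E)] (hi : S_nu_int) (hl : S_Lw_int) (ha : S_Lw_add)
    {φ : ℝ → ℝ} (h : CPG φ) (E : ℝ →₀ ℕ)
    (c : ℝ) (e1 e2 : ℕ) (x x' : ℝ) :
    RR φ E c e1 e2 x x' = ∫ p : ℝ × ℝ × ℝ, φ (p.1 - c + x * (p.2.1 - 1) + x' * (p.2.2 - 1))
      ∂((Lw E).prod ((nu e1).prod (nu e2))) := by
  obtain ⟨C, N, hC, hb⟩ := h.bound971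
  have hcont := h.1
  set R : ℝ := max |x| |x'| with hR
  have hbd : ∀ p : ℝ × ℝ × ℝ, ‖φ (p.1 - c + x * (p.2.1 - 1) + x' * (p.2.2 - 1))‖ ≤
      (C * 4 ^ N * (1 + (p.1 - c) ^ 2) ^ N) * ((1 + R ^ 2 * (p.2.1 - 1) ^ 2) ^ N * (1 + R ^ 2 * (p.2.2 - 1) ^ 2) ^ N) :=
    fun p => bound3x971 hC hb R _ x _ x' _ (le_max_left _ _) (le_max_right _ _)
  have hc1 : CPG (fun s => C * 4 ^ N * (1 + (s - c) ^ 2) ^ N) := cpgQ971 _ c N
  have hint : Integrable (fun p : ℝ × ℝ × ℝ => φ (p.1 - c + x * (p.2.1 - 1) + x' * (p.2.2 - 1)))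
      ((Lw E).prod ((nu e1).prod (nu e2))) := by
    refine (int3971 hi hl E e1 e2 hc1 (cpgP971 1 R N) (cpgP971 1 R N)).mono' ?_ (Filter.Eventually.of_forall hbd)
    exact (by fun_prop : Continuous fun p : ℝ × ℝ × ℝ => φ (p.1 - c + x * (p.2.1 - 1) + x' * (p.2.2 - 1))).aestronglyMeasurable
  have hint2 : ∀ s, Integrable (fun p : ℝ × ℝ => φ (s - c + x * (p.1 - 1) + x' * (p.2 - 1)))
      ((nu e1).prod (nu e2)) := by
    intro s
    refine ((int2971 hi e1 e2 (cpgP971 1 R N) (cpgP971 1 R N)).const_mul (C * 4 ^ N * (1 + (s - c) ^ 2) ^ N)).mono' ?_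
      (Filter.Eventually.of_forall fun p => hbd (s, p))
    exact (by fun_prop : Continuous fun p : ℝ × ℝ => φ (s - c + x * (p.1 - 1) + x' * (p.2 - 1))).aestronglyMeasurable
  rw [integral_prod _ hint]
  simp_rw [fun s => integral_prod _ (hint2 s)]
  have hφ : CPG (fun s => φ (s - (c + x + x'))) := by
    have := h.comp_affine971 (-(c + x + x')) 1
    have e : (fun s => φ (s - (c + x + x'))) = fun y => φ (-(c + x + x') + 1 * y) := by
      funext s; congr 1; ring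
    rw [e]; exact this
  unfold RR
  rw [ha (E + Finsupp.single x e1) x' e2 _ hφ, ha E x e1 _ (cpg_avg971 hi hφ e2 x')]
  refine integral_congr_ae (Filter.Eventually.of_forall fun s => ?_)
  refine integral_congr_ae (Filter.Eventually.of_forall fun y1 => ?_)
  refine integral_congr_ae (Filter.Eventually.of_forall fun y2 => ?_)
  show φ (s + x * y1 + x' * y2 - (c + x + x')) = φ (s - c + x * (y1 - 1) + x' * (y2 - 1))
  congr 1; ring

end prod

theorem cont_thm (hi : S_nu_int) (hp : S_Lw_prob) (hl : S_Lw_int) (ha : S_Lw_add) : S_cont := by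
  intro φ h E c e1 e2
  have : ∀ E, IsProbabilityMeasure (Lw E) := hp
  obtain ⟨C, N, hC, hb⟩ := h.bound971
  have hcont := h.1
  have e : (fun p : ℝ × ℝ => RR φ E c e1 e2 p.1 p.2) = fun q : ℝ × ℝ =>
      ∫ p : ℝ × ℝ × ℝ, φ (p.1 - c + q.1 * (p.2.1 - 1) + q.2 * (p.2.2 - 1))
      ∂((Lw E).prod ((nu e1).prod (nu e2))) := by
    funext q
    exact RR_eq971 hi hl ha h E c e1 e2 q.1 q.2
  rw [e, continuous_iff_continuousAt]
  intro q0
  set R : ℝ := |q0.1| + |q0.2| + 1 with hR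
  have hc1 : CPG (fun s => C * 4 ^ N * (1 + (s - c) ^ 2) ^ N) := cpgQ971 _ c N
  refine continuousAt_of_dominated (bound := fun p : ℝ × ℝ × ℝ => (C * 4 ^ N * (1 + (p.1 - c) ^ 2) ^ N) *
    ((1 + R ^ 2 * (p.2.1 - 1) ^ 2) ^ N * (1 + R ^ 2 * (p.2.2 - 1) ^ 2) ^ N)) ?_ ?_ ?_ ?_
  · exact Filter.Eventually.of_forall fun q => (by fun_prop :
      Continuous fun p : ℝ × ℝ × ℝ => φ (p.1 - c + q.1 * (p.2.1 - 1) + q.2 * (p.2.2 - 1))).aestronglyMeasurable
  · have h1 : ∀ᶠ q : ℝ × ℝ in 𝓝 q0, |q.1| < |q0.1| + 1 :=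
      (by fun_prop : ContinuousAt (fun q : ℝ × ℝ => |q.1|) q0).eventually_lt continuousAt_const (by linarith)
    have h2 : ∀ᶠ q : ℝ × ℝ in 𝓝 q0, |q.2| < |q0.2| + 1 :=
      (by fun_prop : ContinuousAt (fun q : ℝ × ℝ => |q.2|) q0).eventually_lt continuousAt_const (by linarith)
    filter_upwards [h1, h2] with q hq1 hq2
    refine Filter.Eventually.of_forall fun p => bound3x971 hC hb R _ _ _ _ _ ?_ ?_
    · have := abs_nonneg q0.2; linarith
    · have := abs_nonneg q0.1; linarith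
  · exact int3971 hi hl E e1 e2 hc1 (cpgP971 1 R N) (cpgP971 1 R N)
  · exact Filter.Eventually.of_forall fun p => by fun_prop

lemma prod_bound971 {ι : Type*} (s : Finset ι) (u : ι → ℝ) :
    1 + (∑ i ∈ s, u i) ^ 2 ≤ ∏ i ∈ s, (2 * (1 + (u i) ^ 2)) := by
  classical
  induction s using Finset.induction_on with
  | empty => simp
  | insert a s ha ih =>
    rw [Finset.sum_insert ha, Finset.prod_insert ha]
    refine (sq_add_le971 _ _).trans ?_
    calc 2 * ((1 + u a ^ 2) * (1 + (∑ i ∈ s, u i) ^ 2)) ≤ 2 * ((1 + u a ^ 2) * ∏ i ∈ s, (2 * (1 + (u i) ^ 2))) := by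
          gcongr
      _ = _ := by ring

theorem max_thm (hi : S_nu_int) : S_max := by
  intro φ h n b
  obtain ⟨C, N, hC, hb⟩ := h.bound971
  have hcont := h.1
  have hF : Continuous (fun a : Fin n → ℝ => ∫ y, φ (∑ i, a i * (y i - 1)) ∂(Measure.pi (fun _ : Fin n => nu 1))) := by
    rw [continuous_iff_continuousAt]
    intro a0
    set R : ℝ := ‖a0‖ + 1 with hR
    refine continuousAt_of_dominated (bound := fun y : Fin n → ℝ => C * ∏ i, (2 * (1 + R ^ 2 * (y i - 1) ^ 2)) ^ N)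
      ?_ ?_ ?_ ?_
    · exact Filter.Eventually.of_forall fun a => (by fun_prop :
        Continuous fun y : Fin n → ℝ => φ (∑ i, a i * (y i - 1))).aestronglyMeasurable
    · have h1 : ∀ᶠ a : Fin n → ℝ in 𝓝 a0, ‖a‖ < ‖a0‖ + 1 :=
        (by fun_prop : ContinuousAt (fun a : Fin n → ℝ => ‖a‖) a0).eventually_lt continuousAt_const (by linarith)
      filter_upwards [h1] with a ha
      refine Filter.Eventually.of_forall fun y => (hb _).trans ?_
      rw [Finset.prod_pow]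
      gcongr
      refine (prod_bound971 _ _).trans (Finset.prod_le_prod (fun i _ => by positivity) fun i _ => ?_)
      have h2 : |a i| ≤ R := (norm_le_pi_norm a i).trans ha.le
      have h3 : (a i) ^ 2 ≤ R ^ 2 := sq_le_sq' (by linarith [neg_abs_le (a i)]) ((le_abs_self _).trans h2)
      rw [mul_pow]
      gcongr
    · refine Integrable.const_mul ?_ _
      refine Integrable.fintype_prod (f := fun (_ : Fin n) (t : ℝ) => (2 * (1 + R ^ 2 * (t - 1) ^ 2)) ^ N) fun i => ?_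
      have := (hi 1 _ (cpgP971 1 R N)).const_mul (2 ^ N)
      simpa [mul_pow] using this
    · exact Filter.Eventually.of_forall fun y =>
        (by fun_prop : Continuous fun a : Fin n → ℝ => φ (∑ i, a i * (y i - 1))).continuousAt
  have hK : IsCompact {a : Fin n → ℝ | ∑ i, a i ^ 2 = ∑ i, b i ^ 2} := by
    refine Metric.isCompact_of_isClosed_isBounded ?_ ?_
    · exact isClosed_eq (by fun_prop) continuous_const
    · rw [isBounded_iff_forall_norm_le]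
      refine ⟨1 + ∑ i, b i ^ 2, fun a ha => ?_⟩
      rw [pi_norm_le_iff_of_nonneg (by positivity)]
      intro i
      have h1 : a i ^ 2 ≤ ∑ i, a i ^ 2 :=
        Finset.single_le_sum (f := fun i => a i ^ 2) (fun i _ => sq_nonneg _) (Finset.mem_univ i)
      have h2 : ∑ i, a i ^ 2 = ∑ i, b i ^ 2 := ha
      rw [Real.norm_eq_abs]
      nlinarith [sq_abs (a i), sq_nonneg (|a i| - 1 / 2)]
  obtain ⟨a, haK, hmax⟩ := hK.exists_isMaxOn ⟨b, rfl⟩ hF.continuousOn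
  exact ⟨a, haK, fun a' ha' => hmax ha'⟩

end Pool.Agent.R444.GQ
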