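import Pool.Agent.R444.GQ.Stm

/-!
# GQ-L1A : the two-point inequality, convex case
-/

set_option autoImplicit false

open MeasureTheory Set Filter Topology

namespace Pool.Agent.R444.GQ.L1A

variable {ψ w : ℝ → ℝ}

theorem Jc_sym (hc : Continuous ψ) (m n : ℝ) :
    Jc ψ m n = (1 / 2) * ∫ θ in (0 : ℝ)..(2 * Real.pi),
      Real.cos θ * (ψ (m + n * Real.cos θ) - ψ (m - n * Real.cos θ)) := by
  have hper : Function.Periodic (fun θ => Real.cos θ * ψ (m + n * Real.cos θ)) (2 * Real.pi) := by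
    intro θ
    simp only [Real.cos_add_two_pi]
  have h1 : ∫ θ in (0 : ℝ)..(2 * Real.pi),
      Real.cos (θ + Real.pi) * ψ (m + n * Real.cos (θ + Real.pi)) = Jc ψ m n := by
    rw [intervalIntegral.integral_comp_add_right
      (fun θ => Real.cos θ * ψ (m + n * Real.cos θ)) Real.pi]
    have h := hper.intervalIntegral_add_eq (0 + Real.pi) 0
    rw [zero_add] at h
    unfold Jc
    rw [zero_add] at h
    rw [← h, zero_add, add_comm (2 * Real.pi) Real.pi]
  have i1 : IntervalIntegrable (fun θ => Real.cos θ * ψ (m + n * Real.cos θ)) volume 0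
      (2 * Real.pi) := by
    apply Continuous.intervalIntegrable
    fun_prop
  have i2 : IntervalIntegrable (fun θ => Real.cos θ * ψ (m - n * Real.cos θ)) volume 0
      (2 * Real.pi) := by
    apply Continuous.intervalIntegrable
    fun_prop
  have h2 : ∫ θ in (0 : ℝ)..(2 * Real.pi), Real.cos θ * ψ (m - n * Real.cos θ) = -Jc ψ m n := by
    rw [← h1, ← intervalIntegral.integral_neg]
    refine intervalIntegral.integral_congr fun θ _ => ?_
    show Real.cos θ * ψ (m - n * Real.cos θ)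
      = -(Real.cos (θ + Real.pi) * ψ (m + n * Real.cos (θ + Real.pi)))
    rw [Real.cos_add_pi, mul_neg, ← sub_eq_add_neg]
    ring
  have h3 : ∫ θ in (0 : ℝ)..(2 * Real.pi),
      Real.cos θ * (ψ (m + n * Real.cos θ) - ψ (m - n * Real.cos θ))
      = Jc ψ m n - -Jc ψ m n := by
    rw [← h2]
    unfold Jc
    rw [← intervalIntegral.integral_sub i1 i2]
    refine intervalIntegral.integral_congr fun θ _ => ?_
    show Real.cos θ * (ψ (m + n * Real.cos θ) - ψ (m - n * Real.cos θ)) = _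
    ring
  rw [h3]
  ring

theorem h_abs (ψ : ℝ → ℝ) (m n c : ℝ) : c * (ψ (m + n * c) - ψ (m - n * c))
    = |c| * (ψ (m + n * |c|) - ψ (m - n * |c|)) := by
  rcases abs_cases c with ⟨h, _⟩ | ⟨h, _⟩
  · rw [h]
  · rw [h, mul_neg, sub_neg_eq_add, ← sub_eq_add_neg]
    ring

theorem Jc_odd (hc : Continuous ψ) (hev : ∀ s, ψ (-s) = ψ s) (m n : ℝ) :
    Jc ψ (-m) n = -Jc ψ m n := by
  rw [Jc_sym hc, Jc_sym hc, ← mul_neg, ← intervalIntegral.integral_neg]
  congr 1
  refine intervalIntegral.integral_congr fun θ _ => ?_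
  show Real.cos θ * (ψ (-m + n * Real.cos θ) - ψ (-m - n * Real.cos θ))
    = -(Real.cos θ * (ψ (m + n * Real.cos θ) - ψ (m - n * Real.cos θ)))
  have e1 : ψ (-m + n * Real.cos θ) = ψ (m - n * Real.cos θ) := by
    rw [← hev (m - n * Real.cos θ)]
    congr 1
    ring
  have e2 : ψ (-m - n * Real.cos θ) = ψ (m + n * Real.cos θ) := by
    rw [← hev (m + n * Real.cos θ)]
    congr 1
    ring
  rw [e1, e2]
  ring

theorem psi_abs (hev : ∀ s, ψ (-s) = ψ s) (a : ℝ) : ψ |a| = ψ a := by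
  rcases abs_cases a with ⟨h, _⟩ | ⟨h, _⟩
  · rw [h]
  · rw [h, hev]

theorem w_zero (hodd : ∀ s, w (-s) = -w s) : w 0 = 0 := by
  have := hodd 0
  rw [neg_zero] at this
  linarith

theorem psi_mono (hc : Continuous ψ) (hd : ∀ s, HasDerivAt ψ (w s) s)
    (hodd : ∀ s, w (-s) = -w s) (hm : StrictMono w) : StrictMonoOn ψ (Ici 0) := by
  refine strictMonoOn_of_deriv_pos (convex_Ici 0) hc.continuousOn fun x hx => ?_
  rw [interior_Ici] at hx
  rw [(hd x).deriv, ← w_zero hodd]
  exact hm hx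

theorem h_nonneg (hc : Continuous ψ) (hev : ∀ s, ψ (-s) = ψ s) (hd : ∀ s, HasDerivAt ψ (w s) s)
    (hodd : ∀ s, w (-s) = -w s) (hm : StrictMono w) {m n : ℝ} (h0 : 0 ≤ m) (h1 : 0 ≤ n) (c : ℝ) :
    0 ≤ c * (ψ (m + n * c) - ψ (m - n * c)) := by
  rw [h_abs]
  have hb := abs_nonneg c
  refine mul_nonneg hb ?_
  have h2 := mul_nonneg h1 hb
  rw [← psi_abs hev (m - n * |c|), sub_nonneg]
  refine (psi_mono hc hd hodd hm).monotoneOn (mem_Ici.2 (abs_nonneg _))
    (mem_Ici.2 (by linarith)) ?_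
  rw [abs_le]
  constructor <;> linarith

theorem h_pos (hc : Continuous ψ) (hev : ∀ s, ψ (-s) = ψ s) (hd : ∀ s, HasDerivAt ψ (w s) s)
    (hodd : ∀ s, w (-s) = -w s) (hm : StrictMono w) {m n c : ℝ} (h0 : 0 < m) (h1 : 0 < n)
    (h2 : 0 < c) : 0 < c * (ψ (m + n * c) - ψ (m - n * c)) := by
  refine mul_pos h2 ?_
  have h3 := mul_pos h1 h2
  rw [← psi_abs hev (m - n * c), sub_pos]
  refine (psi_mono hc hd hodd hm) (mem_Ici.2 (abs_nonneg _)) (mem_Ici.2 (by linarith)) ?_
  rw [abs_lt]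
  constructor <;> linarith

theorem h_mono (hd : ∀ s, HasDerivAt ψ (w s) s)
    (hodd : ∀ s, w (-s) = -w s) (hm : StrictMono w) {m n n' : ℝ} (h0 : 0 ≤ m) (h1 : n ≤ n')
    (c : ℝ) : c * (ψ (m + n * c) - ψ (m - n * c)) ≤ c * (ψ (m + n' * c) - ψ (m - n' * c)) := by
  rw [h_abs ψ m n, h_abs ψ m n']
  have hb := abs_nonneg c
  refine mul_le_mul_of_nonneg_left ?_ hb
  have hmon : Monotone (fun x : ℝ => ψ (m + x) - ψ (m - x)) := by
    have hder : ∀ x : ℝ, HasDerivAt (fun x : ℝ => ψ (m + x) - ψ (m - x)) (w (m + x) + w (m - x))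
        x := by
      intro x
      have d1 : HasDerivAt (fun x : ℝ => ψ (m + x)) (w (m + x) * 1) x :=
        (hd (m + x)).comp x ((hasDerivAt_id x).const_add m)
      have d2 : HasDerivAt (fun x : ℝ => ψ (m - x)) (w (m - x) * -1) x :=
        (hd (m - x)).comp x ((hasDerivAt_id x).const_sub m)
      have d3 := d1.sub d2
      refine d3.congr_deriv ?_
      ring
    refine monotone_of_deriv_nonneg (fun x => (hder x).differentiableAt) fun x => ?_
    rw [(hder x).deriv]
    have e : w (m - x) = -w (x - m) := by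
      rw [← hodd]
      congr 1
      ring
    rw [e, ← sub_eq_add_neg, sub_nonneg]
    exact hm.monotone (by linarith)
  exact hmon (mul_le_mul_of_nonneg_right h1 hb)

theorem J_nonneg (hc : Continuous ψ) (hev : ∀ s, ψ (-s) = ψ s) (hd : ∀ s, HasDerivAt ψ (w s) s)
    (hodd : ∀ s, w (-s) = -w s) (hm : StrictMono w) {m n : ℝ} (h0 : 0 ≤ m) (h1 : 0 ≤ n) :
    0 ≤ Jc ψ m n := by
  rw [Jc_sym hc]
  refine mul_nonneg (by norm_num) (intervalIntegral.integral_nonneg Real.two_pi_pos.le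
    fun θ _ => h_nonneg hc hev hd hodd hm h0 h1 _)

theorem J_pos (hc : Continuous ψ) (hev : ∀ s, ψ (-s) = ψ s) (hd : ∀ s, HasDerivAt ψ (w s) s)
    (hodd : ∀ s, w (-s) = -w s) (hm : StrictMono w) {m n : ℝ} (h0 : 0 < m) (h1 : 0 < n) :
    0 < Jc ψ m n := by
  rw [Jc_sym hc]
  refine mul_pos (by norm_num) (intervalIntegral.integral_pos Real.two_pi_pos ?_
    (fun θ _ => h_nonneg hc hev hd hodd hm h0.le h1.le _) ?_)
  · apply Continuous.continuousOn
    fun_prop
  · refine ⟨0, left_mem_Icc.2 Real.two_pi_pos.le, ?_⟩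
    rw [Real.cos_zero]
    exact h_pos hc hev hd hodd hm h0 h1 one_pos

theorem J_mono (hc : Continuous ψ) (hd : ∀ s, HasDerivAt ψ (w s) s)
    (hodd : ∀ s, w (-s) = -w s) (hm : StrictMono w) {m n n' : ℝ} (h0 : 0 ≤ m) (h1 : n ≤ n') :
    Jc ψ m n ≤ Jc ψ m n' := by
  rw [Jc_sym hc, Jc_sym hc]
  refine mul_le_mul_of_nonneg_left ?_ (by norm_num)
  refine intervalIntegral.integral_mono_on Real.two_pi_pos.le ?_ ?_
    fun θ _ => h_mono hd hodd hm h0 h1 _
  · apply Continuous.intervalIntegrable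
    fun_prop
  · apply Continuous.intervalIntegrable
    fun_prop

theorem exp_ineq {y : ℝ} (h0 : 0 ≤ y) :
    Real.exp (-(1 - y)) * (1 - y) ≤ Real.exp (-(1 + y)) * (1 + y) := by
  have hmon : MonotoneOn (fun y : ℝ => (1 + y) * Real.exp (-y) - (1 - y) * Real.exp y)
      (Ici 0) := by
    have hder : ∀ x : ℝ, HasDerivAt (fun y : ℝ => (1 + y) * Real.exp (-y) - (1 - y) * Real.exp y)
        (x * (Real.exp x - Real.exp (-x))) x := by
      intro x
      have d1 : HasDerivAt (fun y : ℝ => (1 + y) * Real.exp (-y))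
          (1 * Real.exp (-x) + (1 + x) * (Real.exp (-x) * -1)) x :=
        ((hasDerivAt_id x).const_add 1).mul ((hasDerivAt_neg x).exp)
      have d2 : HasDerivAt (fun y : ℝ => (1 - y) * Real.exp y)
          (-1 * Real.exp x + (1 - x) * Real.exp x) x :=
        ((hasDerivAt_id x).const_sub 1).mul (Real.hasDerivAt_exp x)
      refine (d1.sub d2).congr_deriv ?_
      ring
    refine monotoneOn_of_deriv_nonneg (convex_Ici 0) ?_ ?_ ?_
    · exact fun x _ => (hder x).continuousAt.continuousWithinAt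
    · exact fun x _ => (hder x).differentiableAt.differentiableWithinAt
    · intro x hx
      rw [interior_Ici] at hx
      rw [(hder x).deriv]
      have hx' : 0 < x := hx
      exact mul_nonneg hx'.le (sub_nonneg.2 (Real.exp_le_exp.2 (by linarith)))
  have h := hmon (mem_Ici.2 le_rfl) (mem_Ici.2 h0) h0
  simp only [add_zero, neg_zero, Real.exp_zero, sub_zero, sub_self, mul_one] at h
  have e1 : Real.exp (-(1 - y)) = Real.exp (-1) * Real.exp y := by
    rw [← Real.exp_add]
    congr 1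
    ring
  have e2 : Real.exp (-(1 + y)) = Real.exp (-1) * Real.exp (-y) := by
    rw [← Real.exp_add]
    congr 1
    ring
  rw [e1, e2]
  have := mul_nonneg (Real.exp_pos (-1)).le h
  linarith

/-- the integrand -/
noncomputable def GG (ψ : ℝ → ℝ) (δ σ u : ℝ) : ℝ :=
  Real.exp (-u) * (u * Jc ψ (δ * (u - 1)) (σ * u))

theorem GG_pair (hc : Continuous ψ) (hev : ∀ s, ψ (-s) = ψ s) (hd : ∀ s, HasDerivAt ψ (w s) s)
    (hodd : ∀ s, w (-s) = -w s) (hm : StrictMono w) {δ σ y : ℝ} (hδ : 0 ≤ δ) (hσ : 0 ≤ σ)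
    (h0 : 0 ≤ y) (h1 : y ≤ 1) : 0 ≤ GG ψ δ σ (1 + y) + GG ψ δ σ (1 - y) := by
  unfold GG
  have e1 : δ * (1 + y - 1) = δ * y := by ring
  have e2 : δ * (1 - y - 1) = -(δ * y) := by ring
  rw [e1, e2, Jc_odd hc hev]
  have hm0 : 0 ≤ δ * y := mul_nonneg hδ h0
  have j1 := J_nonneg hc hev hd hodd hm hm0 (n := σ * (1 - y)) (mul_nonneg hσ (by linarith))
  have j2 := J_mono hc hd hodd hm hm0 (n := σ * (1 - y)) (n' := σ * (1 + y))
    (mul_le_mul_of_nonneg_left (by linarith) hσ)
  have j3 := exp_ineq h0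
  have j4 : 0 ≤ Real.exp (-(1 - y)) * (1 - y) :=
    mul_nonneg (Real.exp_pos _).le (by linarith)
  have j5 := mul_le_mul j3 j2 j1 (j4.trans j3)
  linarith

theorem GG_cont (hc : Continuous ψ) (δ σ : ℝ) : Continuous (GG ψ δ σ) := by
  have h : Continuous (fun u : ℝ => ∫ θ in (0 : ℝ)..(2 * Real.pi),
      Real.cos θ * ψ (δ * (u - 1) + σ * u * Real.cos θ)) := by
    apply intervalIntegral.continuous_parametric_intervalIntegral_of_continuous'
    fun_prop
  unfold GG Jc
  fun_prop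

theorem GG_int (hψ : CPG ψ) (δ σ : ℝ) : IntegrableOn (GG ψ δ σ) (Ioi 0) := by
  obtain ⟨hc, C, N, hC⟩ := hψ
  have hC0 : 0 ≤ C := by
    have h := hC 0
    have h2 := abs_nonneg (ψ 0)
    norm_num at h
    linarith
  refine integrable_of_isBigO_exp_neg (b := 1 / 2) (by norm_num) (GG_cont hc δ σ).continuousOn ?_
  set K := |δ| + |σ| with hK
  have hK0 : 0 ≤ K := by positivity
  set A := 2 * Real.pi * (C * (1 + K ^ 2) ^ N) with hA
  have hA0 : 0 ≤ A := by positivity
  have hbd : ∀ u : ℝ, 1 ≤ u → |GG ψ δ σ u| ≤ A * (Real.exp (-u) * u ^ (2 * N + 1)) := by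
    intro u hu
    have hJ : |Jc ψ (δ * (u - 1)) (σ * u)| ≤ C * (1 + K ^ 2) ^ N * u ^ (2 * N)
        * |2 * Real.pi - 0| := by
      unfold Jc
      rw [← Real.norm_eq_abs]
      refine intervalIntegral.norm_integral_le_of_norm_le_const fun θ _ => ?_
      rw [Real.norm_eq_abs, abs_mul]
      have b1 := Real.abs_cos_le_one θ
      set s := δ * (u - 1) + σ * u * Real.cos θ with hs
      have b2 : |s| ≤ K * u := by
        calc |s| ≤ |δ * (u - 1)| + |σ * u * Real.cos θ| := abs_add_le _ _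
          _ = |δ| * (u - 1) + |σ| * u * |Real.cos θ| := by
            rw [abs_mul, abs_mul, abs_mul, abs_of_nonneg (by linarith : 0 ≤ u - 1),
              abs_of_nonneg (by linarith : 0 ≤ u)]
          _ ≤ |δ| * u + |σ| * u * 1 := by
            gcongr
            linarith
          _ = K * u := by rw [hK]; ring
      have b3 : 1 + s ^ 2 ≤ (1 + K ^ 2) * u ^ 2 := by
        have : s ^ 2 ≤ (K * u) ^ 2 := by
          rw [← sq_abs s]
          exact pow_le_pow_left₀ (abs_nonneg _) b2 2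
        nlinarith
      have b4 : |ψ s| ≤ C * (1 + K ^ 2) ^ N * u ^ (2 * N) := by
        refine (hC s).trans ?_
        rw [mul_assoc]
        refine mul_le_mul_of_nonneg_left ?_ hC0
        calc (1 + s ^ 2) ^ N ≤ ((1 + K ^ 2) * u ^ 2) ^ N :=
              pow_le_pow_left₀ (by positivity) b3 N
          _ = (1 + K ^ 2) ^ N * u ^ (2 * N) := by rw [mul_pow, pow_mul]
      calc |Real.cos θ| * |ψ s| ≤ 1 * |ψ s| := mul_le_mul_of_nonneg_right b1 (abs_nonneg _)
        _ ≤ _ := by rw [one_mul]; exact b4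
    unfold GG
    rw [abs_mul, abs_mul, abs_of_pos (Real.exp_pos _), abs_of_nonneg (by linarith : 0 ≤ u)]
    rw [sub_zero, abs_of_pos Real.two_pi_pos] at hJ
    calc Real.exp (-u) * (u * |Jc ψ (δ * (u - 1)) (σ * u)|)
        ≤ Real.exp (-u) * (u * (C * (1 + K ^ 2) ^ N * u ^ (2 * N) * (2 * Real.pi))) := by
          gcongr
      _ = A * (Real.exp (-u) * u ^ (2 * N + 1)) := by
          rw [hA, pow_succ]; ring
  have h1 : GG ψ δ σ =O[atTop] fun u : ℝ => Real.exp (-u) * u ^ (2 * N + 1) := by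
    refine Asymptotics.IsBigO.of_bound A ?_
    filter_upwards [eventually_ge_atTop (1 : ℝ)] with u hu
    rw [Real.norm_eq_abs, Real.norm_eq_abs]
    refine (hbd u hu).trans ?_
    exact mul_le_mul_of_nonneg_left (le_abs_self _) hA0
  have h2 : (fun u : ℝ => Real.exp (-u) * u ^ (2 * N + 1))
      =O[atTop] fun u : ℝ => Real.exp (-u) * Real.exp (1 / 2 * u) :=
    (Asymptotics.isBigO_refl _ _).mul
      (isLittleO_pow_exp_pos_mul_atTop (2 * N + 1) (by norm_num : (0 : ℝ) < 1 / 2)).isBigO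
  refine (h1.trans h2).congr_right fun u => ?_
  rw [← Real.exp_add]
  congr 1
  ring

theorem L1A_thm : S_L1A := by
  intro ψ w hψ _ hev hd hodd hm α β hβ hαβ
  have hδ : 0 < α - β := by linarith
  have hσ : 0 < α + β := by linarith
  have hc := hψ.1
  have hint := GG_int hψ (α - β) (α + β)
  show 0 < ∫ u in Ioi (0 : ℝ), GG ψ (α - β) (α + β) u
  rw [← Ioc_union_Ioi_eq_Ioi (zero_le_two : (0 : ℝ) ≤ 2),
    setIntegral_union (Ioc_disjoint_Ioi le_rfl) measurableSet_Ioi
      (hint.mono_set Ioc_subset_Ioi_self) (hint.mono_set (Ioi_subset_Ioi zero_le_two)),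
    ← intervalIntegral.integral_of_le zero_le_two]
  have hG := GG_cont hc (α - β) (α + β)
  have h1 : 0 ≤ ∫ u in (0 : ℝ)..2, GG ψ (α - β) (α + β) u := by
    have e : ∫ u in (0 : ℝ)..2, GG ψ (α - β) (α + β) (2 - u)
        = ∫ u in (0 : ℝ)..2, GG ψ (α - β) (α + β) u := by
      rw [intervalIntegral.integral_comp_sub_left]
      norm_num
    have e2 : 2 * ∫ u in (0 : ℝ)..2, GG ψ (α - β) (α + β) u
        = ∫ u in (0 : ℝ)..2, (GG ψ (α - β) (α + β) u + GG ψ (α - β) (α + β) (2 - u)) := by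
      have c2 : Continuous (fun u => GG ψ (α - β) (α + β) (2 - u)) :=
        hG.comp (continuous_const.sub continuous_id)
      rw [intervalIntegral.integral_add (hG.intervalIntegrable _ _)
        (c2.intervalIntegrable _ _), e]
      ring
    have h2 : 0 ≤ ∫ u in (0 : ℝ)..2, (GG ψ (α - β) (α + β) u + GG ψ (α - β) (α + β) (2 - u)) := by
      refine intervalIntegral.integral_nonneg zero_le_two fun u hu => ?_
      rcases le_total 1 u with h | h
      · have := GG_pair hc hev hd hodd hm hδ.le hσ.le (y := u - 1) (by linarith)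
          (by linarith [hu.2])
        have e1 : 1 + (u - 1) = u := by ring
        have e2 : 1 - (u - 1) = 2 - u := by ring
        rwa [e1, e2] at this
      · have := GG_pair hc hev hd hodd hm hδ.le hσ.le (y := 1 - u) (by linarith)
          (by linarith [hu.1])
        have e1 : 1 + (1 - u) = 2 - u := by ring
        have e2 : 1 - (1 - u) = u := by ring
        rw [e1, e2] at this
        linarith
    linarith
  have h3 : 0 < ∫ u in Ioi (2 : ℝ), GG ψ (α - β) (α + β) u := by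
    have hpos : ∀ u ∈ Ioi (2 : ℝ), 0 < GG ψ (α - β) (α + β) u := by
      intro u hu
      have hu' : 2 < u := hu
      unfold GG
      refine mul_pos (Real.exp_pos _) (mul_pos (by linarith) ?_)
      exact J_pos hc hev hd hodd hm (mul_pos hδ (by linarith)) (mul_pos hσ (by linarith))
    rw [setIntegral_pos_iff_support_of_nonneg_ae]
    · have : Ioi (2 : ℝ) ⊆ Function.support (GG ψ (α - β) (α + β)) ∩ Ioi 2 :=
        fun u hu => ⟨(hpos u hu).ne', hu⟩
      refine lt_of_lt_of_le ?_ (measure_mono this)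
      rw [Real.volume_Ioi]
      exact ENNReal.zero_lt_top
    · filter_upwards [ae_restrict_mem measurableSet_Ioi] with u hu
      exact (hpos u hu).le
    · exact hint.mono_set (Ioi_subset_Ioi zero_le_two)
  linarith

end Pool.Agent.R444.GQ.L1A
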