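import Pool.Agent.R444.GQ.NuChar

open MeasureTheory ProbabilityTheory Real Filter Topology

namespace Pool.Agent.R444.GQ

lemma nuL_prob (e : ℕ) : IsProbabilityMeasure (nu e) := by
  rcases Nat.eq_zero_or_pos e with rfl | he
  · simp only [nu, if_true]
    infer_instance
  · exact nuC_prob he

lemma meas_sum {ι : Type*} [Fintype ι] (a : ι → ℝ) :
    Measurable (fun y : ι → ℝ => ∑ i, a i * y i) := by
  fun_prop

theorem Lw_prob : S_Lw_prob := by
  intro E
  have : ∀ e, IsProbabilityMeasure (nu e) := nuL_prob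
  unfold Lw
  exact Measure.isProbabilityMeasure_map (meas_sum (fun v : E.support => (v : ℝ))).aemeasurable

/-- characteristic function of a weighted sum of independent variables -/
lemma charFun_pi_sum {ι : Type*} [Fintype ι] (μ : ι → Measure ℝ)
    [∀ i, IsProbabilityMeasure (μ i)] (a : ι → ℝ) (t : ℝ) :
    charFun ((Measure.pi μ).map (fun y => ∑ i, a i * y i)) t = ∏ i, charFun (μ i) (a i * t) := by
  rw [charFun_apply_real, integral_map (meas_sum a).aemeasurable (by fun_prop)]
  simp_rw [charFun_apply_real]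
  rw [← integral_fintype_prod_eq_prod
    (f := fun (i : ι) (x : ℝ) => Complex.exp (((a i * t : ℝ) : ℂ) * (x : ℂ) * Complex.I))]
  refine integral_congr_ae (Eventually.of_forall fun y => ?_)
  simp only
  rw [← Complex.exp_sum]
  congr 1
  push_cast
  rw [Finset.mul_sum, Finset.sum_mul]
  refine Finset.sum_congr rfl fun i _ => ?_
  ring

lemma charFun_Lw (E : ℝ →₀ ℕ) (t : ℝ) :
    charFun (Lw E) t = E.prod (fun v k => (charFun (nu 1) (v * t)) ^ k) := by
  have : ∀ e, IsProbabilityMeasure (nu e) := nuL_prob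
  unfold Lw
  rw [charFun_pi_sum (fun v : E.support => nu (E v)) (fun v : E.support => (v : ℝ)) t]
  simp_rw [nu_char (E _)]
  rw [Finsupp.prod]
  exact Finset.prod_coe_sort E.support (fun v => (charFun (nu 1) (v * t)) ^ (E v))

lemma charFun_Lw_add (E F : ℝ →₀ ℕ) (t : ℝ) :
    charFun (Lw (E + F)) t = charFun (Lw E) t * charFun (Lw F) t := by
  rw [charFun_Lw, charFun_Lw, charFun_Lw]
  exact Finsupp.prod_add_index' (fun v => by simp) (fun v k l => by rw [pow_add])

lemma charFun_Lw_single (v : ℝ) (k : ℕ) (t : ℝ) :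
    charFun (Lw (Finsupp.single v k)) t = (charFun (nu 1) (v * t)) ^ k := by
  rw [charFun_Lw, Finsupp.prod_single_index (by simp)]

theorem Lw_nil : S_Lw_nil := by
  have := Lw_prob 0
  refine Measure.ext_of_charFun ?_
  ext t
  rw [charFun_Lw, charFun_dirac]
  simp

theorem Lw_zero : S_Lw_zero := by
  intro E k
  have := Lw_prob E
  have := Lw_prob (E + Finsupp.single 0 k)
  have := nuL_prob 1
  refine Measure.ext_of_charFun ?_
  ext t
  rw [charFun_Lw_add, charFun_Lw_single]
  simp

lemma Lw_add_eq (E : ℝ →₀ ℕ) (v : ℝ) (k : ℕ) :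
    Lw (E + Finsupp.single v k) =
      ((Lw E).prod (nu k)).map (fun p : ℝ × ℝ => p.1 + v * p.2) := by
  have h1 := Lw_prob E
  have h2 := Lw_prob (E + Finsupp.single v k)
  have h3 := nuL_prob k
  have h4 : IsProbabilityMeasure (((Lw E).prod (nu k)).map (fun p : ℝ × ℝ => p.1 + v * p.2)) :=
    Measure.isProbabilityMeasure_map (by fun_prop)
  refine Measure.ext_of_charFun ?_
  ext t
  rw [charFun_Lw_add, charFun_Lw_single, ← nu_char k, charFun_apply_real, charFun_apply_real,
    charFun_apply_real, integral_map (by fun_prop) (by fun_prop), ← integral_prod_mul]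
  refine integral_congr_ae (Eventually.of_forall fun p => ?_)
  simp only
  rw [← Complex.exp_add]
  congr 1
  push_cast
  ring

theorem Lw_pi : S_Lw_pi := by
  intro n a
  have h0 := nuL_prob 1
  have h1 := Lw_prob (∑ i, Finsupp.single (a i) 1)
  have h2 : IsProbabilityMeasure
      ((Measure.pi (fun _ : Fin n => nu 1)).map (fun y => ∑ i, a i * y i)) :=
    Measure.isProbabilityMeasure_map (meas_sum a).aemeasurable
  refine Measure.ext_of_charFun ?_
  ext t
  rw [charFun_pi_sum (fun _ : Fin n => nu 1) a t]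
  have key : ∀ s : Finset (Fin n), charFun (Lw (∑ i ∈ s, Finsupp.single (a i) 1)) t
      = ∏ i ∈ s, charFun (nu 1) (a i * t) := by
    classical
    intro s
    induction s using Finset.induction_on with
    | empty => simp [charFun_Lw]
    | insert i s hi ih =>
      rw [Finset.sum_insert hi, charFun_Lw_add, charFun_Lw_single, ih, Finset.prod_insert hi]
      simp
  rw [key]

/-! ### growth and integrability -/

lemma one_add_sq_add_le (a b : ℝ) : 1 + (a + b) ^ 2 ≤ 2 * ((1 + a ^ 2) * (1 + b ^ 2)) := by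
  nlinarith [sq_nonneg (a - b), sq_nonneg (a * b), sq_nonneg a, sq_nonneg b]

lemma one_add_sq_mul_le (a b : ℝ) : 1 + (a * b) ^ 2 ≤ (1 + a ^ 2) * (1 + b ^ 2) := by
  nlinarith [sq_nonneg (a * b), sq_nonneg a, sq_nonneg b]

lemma CPG_pow (N : ℕ) : CPG (fun s => (1 + s ^ 2) ^ N) := by
  refine ⟨by fun_prop, 1, N, fun s => ?_⟩
  rw [one_mul, abs_of_nonneg (by positivity)]

lemma CPG_growth {φ : ℝ → ℝ} (h : CPG φ) : ∃ C : ℝ, 0 ≤ C ∧ ∃ N : ℕ, ∀ s, |φ s| ≤ C * (1 + s ^ 2) ^ N := by
  obtain ⟨_, C, N, hC⟩ := h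
  refine ⟨C, ?_, N, hC⟩
  have := hC 0
  simp at this
  exact (abs_nonneg _).trans this

lemma CPG_comp {φ : ℝ → ℝ} (h : CPG φ) (z v : ℝ) : CPG (fun y => φ (z + v * y)) := by
  obtain ⟨C, hC0, N, hC⟩ := CPG_growth h
  refine ⟨h.1.comp (by fun_prop), C * (2 * (1 + z ^ 2) * (1 + v ^ 2)) ^ N, N, fun y => ?_⟩
  refine (hC _).trans ?_
  rw [mul_assoc, ← mul_pow]
  refine mul_le_mul_of_nonneg_left (pow_le_pow_left₀ (by positivity) ?_ N) hC0
  have h1 := one_add_sq_add_le z (v * y)
  have h2 := one_add_sq_mul_le v y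
  have h3 : (1 + z ^ 2) * (1 + (v * y) ^ 2) ≤ (1 + z ^ 2) * ((1 + v ^ 2) * (1 + y ^ 2)) :=
    mul_le_mul_of_nonneg_left h2 (by positivity)
  nlinarith

/-- integrability of the sum on a product -/
lemma integrable_prod_of_CPG {μ ν : Measure ℝ} [IsProbabilityMeasure μ] [IsProbabilityMeasure ν]
    (hμ : ∀ φ, CPG φ → Integrable φ μ) (hν : ∀ φ, CPG φ → Integrable φ ν) {φ : ℝ → ℝ}
    (h : CPG φ) (v : ℝ) : Integrable (fun p : ℝ × ℝ => φ (p.1 + v * p.2)) (μ.prod ν) := by
  obtain ⟨C, hC0, N, hC⟩ := CPG_growth h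
  have h1 := (hμ _ (CPG_pow N)).mul_prod (hν _ (CPG_pow N))
  refine Integrable.mono' (h1.const_mul (C * (2 * (1 + v ^ 2)) ^ N)) ?_ ?_
  · have := h.1
    exact Continuous.aestronglyMeasurable (by fun_prop)
  · refine Eventually.of_forall fun p => ?_
    rw [Real.norm_eq_abs]
    refine (hC _).trans ?_
    rw [mul_assoc, ← mul_pow, ← mul_pow]
    refine mul_le_mul_of_nonneg_left (pow_le_pow_left₀ (by positivity) ?_ N) hC0
    have h1 := one_add_sq_add_le p.1 (v * p.2)
    have h2 := one_add_sq_mul_le v p.2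
    have h3 : (1 + p.1 ^ 2) * (1 + (v * p.2) ^ 2) ≤ (1 + p.1 ^ 2) * ((1 + v ^ 2) * (1 + p.2 ^ 2)) :=
      mul_le_mul_of_nonneg_left h2 (by positivity)
    nlinarith

theorem Lw_int (hi : S_nu_int) : S_Lw_int := by
  intro E
  induction E using Finsupp.induction with
  | zero =>
    intro φ hφ
    rw [Lw_nil]
    exact (integrable_const (φ 0)).congr (by
      rw [EventuallyEq, ae_dirac_eq]
      simp)
  | single_add v k E hv hk ih =>
    intro φ hφ
    have h1 := Lw_prob E
    have h3 := nuL_prob k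
    rw [add_comm, Lw_add_eq]
    rw [integrable_map_measure hφ.1.aestronglyMeasurable (by fun_prop)]
    exact integrable_prod_of_CPG ih (hi k) hφ v

theorem Lw_add (hi : S_nu_int) : S_Lw_add := by
  intro E v k φ hφ
  have h1 := Lw_prob E
  have h3 := nuL_prob k
  rw [Lw_add_eq, integral_map (by fun_prop) hφ.1.aestronglyMeasurable,
    integral_prod _ (integrable_prod_of_CPG (Lw_int hi E) (hi k) hφ v)]

theorem Lw_ibp (hi : S_nu_int) (hb : S_nu_ibp) : S_Lw_ibp := by
  intro E v φ φ' hd hφ hφ' z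
  have h1 := Lw_prob E
  have h3 := nuL_prob 2
  have hz : CPG (fun s => φ (z + s)) := by
    have := CPG_comp hφ z 1
    simpa using this
  have hz' : CPG (fun s => φ' (z + s)) := by
    have := CPG_comp hφ' z 1
    simpa using this
  rw [Lw_add hi E v 2 _ hz, Lw_add hi E v 2 _ hz', ← integral_const_mul, ← integral_add]
  · refine integral_congr_ae (Eventually.of_forall fun s => ?_)
    simp only
    have := hb φ φ' hd hφ hφ' (z + s) v
    simp only [← add_assoc]
    exact this
  · exact Lw_int hi E _ hz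
  · exact ((integrable_prod_of_CPG (Lw_int hi E) (hi 2) hz' v).integral_prod_left).const_mul _

end Pool.Agent.R444.GQ
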