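import Pool.Agent.R444.GQ.Stm

/-!
# MP_c22ba5_pr, project GQ: the asymmetry of the chi-square density (Lemmas M and P)
-/

set_option autoImplicit false

open MeasureTheory ProbabilityTheory Real

namespace Pool.Agent.R444.GQ.MP

/-- the density on the whole line -/
noncomputable def gg (e : ℕ) (y : ℝ) : ℝ := (Set.Ioi (0 : ℝ)).indicator (dens e) y

/-- the density centred at the mode -/
noncomputable def G (e : ℕ) (x : ℝ) : ℝ := gg e ((e : ℝ) - 2 + x)

theorem gg_pos_eq (e : ℕ) {y : ℝ} (hy : 0 < y) : gg e y = dens e y :=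
  Set.indicator_of_mem (show y ∈ Set.Ioi (0 : ℝ) from hy) _

theorem gg_nonpos_eq (e : ℕ) {y : ℝ} (hy : y ≤ 0) : gg e y = 0 :=
  Set.indicator_of_notMem (show y ∉ Set.Ioi (0 : ℝ) from not_lt.2 hy) _

theorem dens_meas (e : ℕ) : Measurable (dens e) := by
  unfold dens
  fun_prop

theorem gg_meas (e : ℕ) : Measurable (gg e) := (dens_meas e).indicator measurableSet_Ioi

theorem G_meas (e : ℕ) : Measurable (G e) := (gg_meas e).comp (measurable_const_add _)

theorem cst_pos {e : ℕ} (he : 1 ≤ e) : 0 < (1 / 2 : ℝ) ^ ((e : ℝ) / 2) / Real.Gamma ((e : ℝ) / 2) := by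
  have h1 : (0 : ℝ) < (e : ℝ) / 2 := by
    have : (1 : ℝ) ≤ e := by exact_mod_cast he
    linarith
  exact div_pos (Real.rpow_pos_of_pos (by norm_num) _) (Real.Gamma_pos_of_pos h1)

theorem dens_eq (e : ℕ) {y : ℝ} (hy : 0 < y) : dens e y
    = (1 / 2 : ℝ) ^ ((e : ℝ) / 2) / Real.Gamma ((e : ℝ) / 2)
      * Real.exp ((((e : ℝ) - 2) * Real.log y - y) / 2) := by
  unfold dens
  rw [mul_assoc, Real.rpow_def_of_pos hy, ← Real.exp_add]
  congr 2
  ring

theorem dens_pos {e : ℕ} (he : 1 ≤ e) {y : ℝ} (hy : 0 < y) : 0 < dens e y := by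
  rw [dens_eq e hy]
  exact mul_pos (cst_pos he) (Real.exp_pos _)

theorem gg_nonneg {e : ℕ} (he : 1 ≤ e) (y : ℝ) : 0 ≤ gg e y := by
  rcases lt_or_ge 0 y with h | h
  · rw [gg_pos_eq e h]; exact (dens_pos he h).le
  · rw [gg_nonpos_eq e h]

theorem dens_lt {e : ℕ} (he : 1 ≤ e) {y1 y2 : ℝ} (h1 : 0 < y1) (h2 : 0 < y2)
    (h : ((e : ℝ) - 2) * Real.log y1 - y1 < ((e : ℝ) - 2) * Real.log y2 - y2) :
    dens e y1 < dens e y2 := by
  rw [dens_eq e h1, dens_eq e h2]
  apply mul_lt_mul_of_pos_left _ (cst_pos he)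
  apply Real.exp_lt_exp.2
  linarith

theorem dens_le {e : ℕ} (he : 1 ≤ e) {y1 y2 : ℝ} (h1 : 0 < y1) (h2 : 0 < y2)
    (h : ((e : ℝ) - 2) * Real.log y1 - y1 ≤ ((e : ℝ) - 2) * Real.log y2 - y2) :
    dens e y1 ≤ dens e y2 := by
  rw [dens_eq e h1, dens_eq e h2]
  apply mul_le_mul_of_nonneg_left _ (cst_pos he).le
  apply Real.exp_le_exp.2
  linarith

/-- increasing up to the mode -/
theorem G_mono {e : ℕ} (he : 3 ≤ e) {x1 x2 : ℝ} (h : x1 ≤ x2) (h2 : x2 ≤ 0) : G e x1 ≤ G e x2 := by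
  unfold G
  have he' : (3 : ℝ) ≤ e := by exact_mod_cast he
  rcases lt_or_ge 0 ((e : ℝ) - 2 + x1) with h3 | h3
  · have h4 : 0 < (e : ℝ) - 2 + x2 := by linarith
    rw [gg_pos_eq e h3, gg_pos_eq e h4]
    apply dens_le (by omega) h3 h4
    set y1 := (e : ℝ) - 2 + x1
    set y2 := (e : ℝ) - 2 + x2
    have h5 : Real.log y1 - Real.log y2 ≤ y1 / y2 - 1 := by
      rw [← Real.log_div h3.ne' h4.ne']
      exact Real.log_le_sub_one_of_pos (div_pos h3 h4)
    have h6 : y1 / y2 - 1 ≤ (y1 - y2) / ((e : ℝ) - 2) := by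
      rw [div_sub_one h4.ne', div_le_div_iff₀ h4 (by linarith)]
      have h7 : y2 ≤ (e : ℝ) - 2 := by simp only [y2]; linarith
      have h8 : y1 - y2 ≤ 0 := by simp only [y1, y2]; linarith
      nlinarith
    have h9 : Real.log y1 - Real.log y2 ≤ (y1 - y2) / ((e : ℝ) - 2) := h5.trans h6
    rw [le_div_iff₀ (by linarith)] at h9
    linarith
  · rw [gg_nonpos_eq e h3]
    exact gg_nonneg (by omega) _

/-- the right side is larger -/
theorem G_asym {e : ℕ} (he : 3 ≤ e) {x : ℝ} (hx : 0 < x) : G e (-x) < G e x := by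
  unfold G
  have he' : (3 : ℝ) ≤ e := by exact_mod_cast he
  have h4 : 0 < (e : ℝ) - 2 + x := by linarith
  rw [gg_pos_eq e h4]
  rcases lt_or_ge 0 ((e : ℝ) - 2 + -x) with h3 | h3
  · rw [gg_pos_eq e h3]
    apply dens_lt (by omega) h3 h4
    set M := (e : ℝ) - 2 with hM
    have hMp : 0 < M := by rw [hM]; linarith
    have ht0 : 0 < x / M := div_pos hx hMp
    have ht1 : x / M < 1 := by rw [div_lt_one hMp]; linarith
    have h5 := Real.sum_range_le_log_div ht0.le ht1 2
    have h6 : (1 + x / M) / (1 - x / M) = (M + x) / (M + -x) := by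
      have : M - x ≠ 0 := by linarith
      have h7 : M + -x ≠ 0 := by linarith
      have h8 : 1 - x / M ≠ 0 := by linarith
      field_simp
      ring
    rw [h6, Real.log_div h4.ne' h3.ne'] at h5
    simp only [Finset.sum_range_succ, Finset.sum_range_zero] at h5
    norm_num at h5
    have h7 : 0 < (x / M) ^ 3 / 3 := by positivity
    have h8 : x / M < 1 / 2 * (Real.log (M + x) - Real.log (M + -x)) := by linarith
    rw [div_lt_iff₀ hMp] at h8
    linarith
  · rw [gg_nonpos_eq e h3]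
    exact dens_pos (by omega) h4

theorem G_nonneg {e : ℕ} (he : 3 ≤ e) (x : ℝ) : 0 ≤ G e x := gg_nonneg (by omega) _

/-! ### functions of polynomial growth -/

theorem cpg_nonneg {φ : ℝ → ℝ} {C : ℝ} {N : ℕ} (h : ∀ s, |φ s| ≤ C * (1 + s ^ 2) ^ N) : 0 ≤ C := by
  have := (abs_nonneg _).trans (h 0)
  simpa using this

theorem cpg_aff {φ : ℝ → ℝ} (hφ : CPG φ) (a b : ℝ) : CPG (fun x => φ (a * x + b)) := by
  obtain ⟨hc, C, N, h⟩ := hφ
  have hC := cpg_nonneg h
  refine ⟨hc.comp (by fun_prop), C * (1 + 2 * a ^ 2 + 2 * b ^ 2) ^ N, N, fun s => ?_⟩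
  refine (h _).trans ?_
  rw [mul_assoc, ← mul_pow]
  apply mul_le_mul_of_nonneg_left _ hC
  apply pow_le_pow_left₀ (by positivity)
  nlinarith [sq_nonneg (a * s - b), sq_nonneg (a * s), sq_nonneg s, sq_nonneg (b * s), sq_nonneg a,
    sq_nonneg b]

theorem cpg_pow (N : ℕ) : CPG (fun x => (1 + x ^ 2) ^ N) := by
  refine ⟨by fun_prop, 1, N, fun s => ?_⟩
  rw [abs_of_nonneg (by positivity), one_mul]

/-! ### integrals against the density -/

theorem nu_eq {e : ℕ} (he : 1 ≤ e) : nu e = volume.withDensity (fun y => ENNReal.ofReal (gg e y)) := by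
  unfold nu
  rw [if_neg (by omega)]
  unfold gammaMeasure
  apply withDensity_congr_ae
  have h0 : ∀ᵐ y : ℝ, y ≠ 0 := by
    simp [ae_iff]
  filter_upwards [h0] with y hy
  unfold gammaPDF gammaPDFReal
  congr 1
  rcases lt_or_gt_of_ne hy with h | h
  · rw [if_neg (not_le.2 h), gg_nonpos_eq e h.le]
  · rw [if_pos h.le, gg_pos_eq e h]
    unfold dens
    congr 2
    ring

theorem gg_int (hi : S_nu_int) {e : ℕ} (he : 1 ≤ e) {φ : ℝ → ℝ} (hφ : CPG φ) :
    Integrable (fun y => φ y * gg e y) := by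
  have h := hi e φ hφ
  rw [nu_eq he, integrable_withDensity_iff_integrable_smul' (by
    exact (gg_meas e).ennreal_ofReal) (by simp)] at h
  refine h.congr (Filter.Eventually.of_forall fun y => ?_)
  simp only [smul_eq_mul]
  rw [ENNReal.toReal_ofReal (gg_nonneg he y), mul_comm]

theorem gg_eq (hd : S_nu_dens) {e : ℕ} (he : 1 ≤ e) (φ : ℝ → ℝ) :
    ∫ y, φ y ∂(nu e) = ∫ y, φ y * gg e y := by
  rw [hd e he φ, ← integral_indicator measurableSet_Ioi]
  congr 1
  ext y
  unfold gg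
  rw [← Set.indicator_mul_right]

theorem G_int (hi : S_nu_int) {e : ℕ} (he : 1 ≤ e) {φ : ℝ → ℝ} (hφ : CPG φ) :
    Integrable (fun x => φ x * G e x) := by
  have h := (gg_int hi he (cpg_aff hφ 1 (-((e : ℝ) - 2)))).comp_add_left ((e : ℝ) - 2)
  refine h.congr (Filter.Eventually.of_forall fun x => ?_)
  unfold G
  simp only
  congr 2
  ring

theorem G_eq (hd : S_nu_dens) {e : ℕ} (he : 1 ≤ e) (φ : ℝ → ℝ) :
    ∫ y, φ (y - ((e : ℝ) - 2)) ∂(nu e) = ∫ x, φ x * G e x := by
  rw [gg_eq hd he, ← integral_add_left_eq_self _ ((e : ℝ) - 2)]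
  congr 1
  ext x
  unfold G
  congr 2
  ring

/-! ### splitting at the origin -/

theorem split {W γ : ℝ → ℝ} (hW : ∀ x, W (-x) = - W x) (hi : Integrable (fun x => W x * γ x)) :
    IntegrableOn (fun x => W x * (γ x - γ (-x))) (Set.Ioi 0) ∧
    ∫ x, W x * γ x = ∫ x in Set.Ioi 0, W x * (γ x - γ (-x)) := by
  have hn : Integrable (fun x => W (-x) * γ (-x)) := hi.comp_neg
  have e1 : ∀ x, W x * (γ x - γ (-x)) = W x * γ x + W (-x) * γ (-x) := by
    intro x; rw [hW]; ring
  simp only [e1]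
  constructor
  · exact hi.integrableOn.add hn.integrableOn
  · rw [integral_add hi.integrableOn hn.integrableOn,
      integral_comp_neg_Ioi 0 (fun x => W x * γ x), neg_zero,
      ← intervalIntegral.integral_Iic_add_Ioi (b := 0) hi.integrableOn hi.integrableOn]
    ring

theorem pos_of {F : ℝ → ℝ} {a : ℝ} (ha : 0 ≤ a) (h0 : ∀ x, 0 < x → 0 ≤ F x)
    (h1 : ∀ x, a < x → 0 < F x) (hi : IntegrableOn F (Set.Ioi 0)) :
    0 < ∫ x in Set.Ioi 0, F x := by
  rw [setIntegral_pos_iff_support_of_nonneg_ae _ hi]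
  · have h2 : Set.Ioi a ⊆ Function.support F ∩ Set.Ioi 0 := fun x hx =>
      ⟨(h1 x hx).ne', lt_of_le_of_lt ha hx⟩
    refine lt_of_lt_of_le ?_ (measure_mono h2)
    simp
  · filter_upwards [ae_restrict_mem measurableSet_Ioi] with x hx
    exact h0 x hx

theorem oddpos_nonneg {w : ℝ → ℝ} (hw : OddPos w) {s : ℝ} (hs : 0 ≤ s) : 0 ≤ w s := by
  rcases eq_or_lt_of_le hs with h | h
  · have := hw.odd 0
    rw [neg_zero] at this
    rw [← h]
    linarith
  · exact (hw.pos s h).le

/-- Lemma M, centred -/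
theorem lemM (hi : S_nu_int) {w : ℝ → ℝ} (hw : OddPos w) {e : ℕ} (he : 3 ≤ e) {α c : ℝ}
    (hα : 0 < α) (hc : 0 ≤ c) : 0 < ∫ x, w (α * x + c) * G e x := by
  set a := c / α with ha
  have ha0 : 0 ≤ a := div_nonneg hc hα.le
  have hint : Integrable (fun x => w (α * x + c) * G e x) :=
    G_int hi (by omega) (cpg_aff hw.cpg α c)
  have e1 : ∀ t, w (α * (t - a) + c) = w (α * t) := by
    intro t
    congr 1
    rw [ha]
    field_simp
    ring
  have hint2 : Integrable (fun t => w (α * t) * G e (t - a)) := by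
    have h := hint.comp_sub_right a
    refine h.congr (Filter.Eventually.of_forall fun t => ?_)
    change w (α * (t - a) + c) * G e (t - a) = w (α * t) * G e (t - a)
    rw [e1]
  rw [← integral_sub_right_eq_self _ a]
  simp only [e1]
  obtain ⟨h1, h2⟩ := split (W := fun t => w (α * t)) (γ := fun t => G e (t - a))
    (fun t => by
      change w (α * -t) = - w (α * t)
      rw [mul_neg, hw.odd]) hint2
  rw [h2]
  have hb : ∀ t, 0 < t → G e (-t - a) ≤ G e (t - a) := by
    intro t ht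
    rcases le_or_gt (t - a) 0 with h | h
    · exact G_mono he (by linarith) h
    · have h3 := G_asym he h
      have h4 : G e (-t - a) ≤ G e (-(t - a)) := G_mono he (by linarith) (by linarith)
      linarith
  refine pos_of ha0 (fun t ht => ?_) (fun t ht => ?_) h1
  · exact mul_nonneg (hw.pos _ (mul_pos hα ht)).le (sub_nonneg.2 (hb t ht))
  · have ht0 : 0 < t := lt_of_le_of_lt ha0 ht
    apply mul_pos (hw.pos _ (mul_pos hα ht0))
    have h3 := G_asym he (show 0 < t - a by linarith)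
    have h4 : G e (-t - a) ≤ G e (-(t - a)) := G_mono he (by linarith) (by linarith)
    linarith

theorem M_thm (hd : S_nu_dens) (hi : S_nu_int) : S_M := by
  intro w hw e he α σ hα hσ
  rw [G_eq hd (by omega) (fun x => w (α * x + σ))]
  exact lemM hi hw he hα hσ

/-! ### Lemma P -/

theorem int2 {w : ℝ → ℝ} (hw : CPG w) (v1 v2 : ℝ) {G1 G2 γ : ℝ → ℝ} (m1 : Measurable G1)
    (mγ : Measurable γ) (i1 : ∀ N : ℕ, Integrable (fun x => (1 + x ^ 2) ^ N * G1 x))
    (i2 : ∀ N : ℕ, Integrable (fun x => (1 + x ^ 2) ^ N * G2 x)) (n1 : ∀ x, 0 ≤ G1 x)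
    (nγ : ∀ x, 0 ≤ γ x) (hle : ∀ x, γ x ≤ G2 x) :
    Integrable (fun z : ℝ × ℝ => w (v1 * z.1 + v2 * z.2) * (G1 z.1 * γ z.2))
      (volume.prod volume) := by
  obtain ⟨hc, C, N, h⟩ := hw
  have hC := cpg_nonneg h
  have hb := ((i1 N).mul_prod (i2 N)).const_mul (C * (1 + 2 * v1 ^ 2 + 2 * v2 ^ 2) ^ N)
  refine hb.mono' ?_ (Filter.Eventually.of_forall fun z => ?_)
  · have h1 : Measurable (fun z : ℝ × ℝ => w (v1 * z.1 + v2 * z.2)) :=
      (hc.comp (by fun_prop : Continuous fun z : ℝ × ℝ => v1 * z.1 + v2 * z.2)).measurable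
    have h2 : Measurable (fun z : ℝ × ℝ => G1 z.1 * γ z.2) :=
      (m1.comp measurable_fst).mul (mγ.comp measurable_snd)
    exact (h1.mul h2).aestronglyMeasurable
  · rw [norm_mul, Real.norm_eq_abs, Real.norm_of_nonneg (mul_nonneg (n1 _) (nγ _))]
    have h3 : |w (v1 * z.1 + v2 * z.2)|
        ≤ C * (1 + 2 * v1 ^ 2 + 2 * v2 ^ 2) ^ N * ((1 + z.1 ^ 2) ^ N * (1 + z.2 ^ 2) ^ N) := by
      refine (h _).trans ?_
      rw [mul_assoc, ← mul_pow, ← mul_pow]
      apply mul_le_mul_of_nonneg_left _ hC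
      apply pow_le_pow_left₀ (by positivity)
      have e1 : 1 + (v1 * z.1 + v2 * z.2) ^ 2 ≤ 1 + 2 * v1 ^ 2 * z.1 ^ 2 + 2 * v2 ^ 2 * z.2 ^ 2 := by
        nlinarith [sq_nonneg (v1 * z.1 - v2 * z.2)]
      refine e1.trans ?_
      have p1 : 0 ≤ v1 ^ 2 := sq_nonneg _
      have p2 : 0 ≤ v2 ^ 2 := sq_nonneg _
      have p3 : 0 ≤ z.1 ^ 2 := sq_nonneg _
      have p4 : 0 ≤ z.2 ^ 2 := sq_nonneg _
      nlinarith [mul_nonneg p1 p4, mul_nonneg p2 p3, mul_nonneg p3 p4, mul_nonneg p1 (mul_nonneg p3 p4),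
        mul_nonneg p2 (mul_nonneg p3 p4)]
    have h4 : G1 z.1 * γ z.2 ≤ G1 z.1 * G2 z.2 := mul_le_mul_of_nonneg_left (hle _) (n1 _)
    have h5 := mul_le_mul h3 h4 (mul_nonneg (n1 _) (nγ _)) (by positivity)
    refine h5.trans (le_of_eq ?_)
    ring

theorem P_thm (hd : S_nu_dens) (hi : S_nu_int) : S_P := by
  intro w hw m1 m2 hm1 hm2 v1 v2 hv1 hv2
  have he1 : 3 ≤ m1 + 2 := by omega
  have he2 : 3 ≤ m2 + 2 := by omega
  set G1 := G (m1 + 2) with hG1
  set G2 := G (m2 + 2) with hG2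
  -- centring
  have hcen : ∫ y1, ∫ y2, w (v1 * (y1 - m1) + v2 * (y2 - m2)) ∂(nu (m2 + 2)) ∂(nu (m1 + 2))
      = ∫ x1, ∫ x2, w (v1 * x1 + v2 * x2) * (G1 x1 * G2 x2) := by
    have h1 : ∀ y1 : ℝ, ∫ y2, w (v1 * (y1 - m1) + v2 * (y2 - m2)) ∂(nu (m2 + 2))
        = ∫ x2, w (v1 * (y1 - m1) + v2 * x2) * G2 x2 := by
      intro y1
      rw [hG2, ← G_eq hd (by omega) (fun x2 => w (v1 * (y1 - m1) + v2 * x2))]
      congr 1
      ext y2
      congr 3
      push_cast
      ring
    simp only [h1]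
    have h2 := G_eq hd (e := m1 + 2) (by omega)
      (fun x1 => ∫ x2, w (v1 * x1 + v2 * x2) * G2 x2)
    have h3 : ∀ y1 : ℝ, y1 - (((m1 + 2 : ℕ) : ℝ) - 2) = y1 - m1 := by
      intro y1; push_cast; ring
    simp only [h3] at h2
    rw [h2]
    congr 1
    ext x1
    rw [← hG1, ← integral_mul_const]
    congr 1
    ext x2
    ring
  rw [hcen]
  -- the even part and the rest
  set sg : ℝ → ℝ := fun x => G2 (-|x|) with hsg
  set rh : ℝ → ℝ := fun x => G2 x - sg x with hrh
  have n1 : ∀ x, 0 ≤ G1 x := fun x => G_nonneg he1 x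
  have n2 : ∀ x, 0 ≤ G2 x := fun x => G_nonneg he2 x
  have nsg : ∀ x, 0 ≤ sg x := fun x => n2 _
  have hsle : ∀ x, sg x ≤ G2 x := by
    intro x
    simp only [hsg]
    rcases le_or_gt x 0 with h | h
    · rw [abs_of_nonpos h, neg_neg]
    · rw [abs_of_pos h]
      exact (G_asym he2 h).le
  have nrh : ∀ x, 0 ≤ rh x := fun x => sub_nonneg.2 (hsle x)
  have hrle : ∀ x, rh x ≤ G2 x := fun x => by
    simp only [hrh]
    linarith [nsg x]
  have mG1 : Measurable G1 := G_meas _
  have mG2 : Measurable G2 := G_meas _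
  have msg : Measurable sg := mG2.comp (by fun_prop)
  have mrh : Measurable rh := mG2.sub msg
  have i1 : ∀ N : ℕ, Integrable (fun x => (1 + x ^ 2) ^ N * G1 x) := fun N =>
    G_int hi (by omega) (cpg_pow N)
  have i2 : ∀ N : ℕ, Integrable (fun x => (1 + x ^ 2) ^ N * G2 x) := fun N =>
    G_int hi (by omega) (cpg_pow N)
  have I0 := int2 hw.cpg v1 v2 mG1 mG2 i1 i2 n1 n2 (fun x => le_refl (G2 x))
  have Is := int2 hw.cpg v1 v2 mG1 msg i1 i2 n1 nsg hsle
  have Ir := int2 hw.cpg v1 v2 mG1 mrh i1 i2 n1 nrh hrle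
  have hsum : ∫ x1, ∫ x2, w (v1 * x1 + v2 * x2) * (G1 x1 * G2 x2)
      = (∫ x2, rh x2 * ∫ x1, w (v1 * x1 + v2 * x2) * G1 x1)
        + ∫ x1, (∫ x2, w (v1 * x1 + v2 * x2) * sg x2) * G1 x1 := by
    have h1 := integral_prod _ I0
    have h2 := integral_prod _ Is
    have h3 := integral_prod_symm _ Ir
    simp only at h1 h2 h3
    rw [← h1]
    have h4 : ∫ x1, (∫ x2, w (v1 * x1 + v2 * x2) * sg x2) * G1 x1
        = ∫ x1, ∫ x2, w (v1 * x1 + v2 * x2) * (G1 x1 * sg x2) := by
      congr 1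
      ext x1
      rw [← integral_mul_const]
      congr 1
      ext x2
      ring
    have h5 : (∫ x2, rh x2 * ∫ x1, w (v1 * x1 + v2 * x2) * G1 x1)
        = ∫ x2, ∫ x1, w (v1 * x1 + v2 * x2) * (G1 x1 * rh x2) := by
      congr 1
      ext x2
      rw [← integral_const_mul]
      congr 1
      ext x1
      ring
    rw [h4, h5, ← h2, ← h3, ← integral_add Ir Is]
    congr 1
    ext z
    simp only [hrh]
    ring
  rw [hsum]
  -- the first term
  have hT1 : 0 < ∫ x2, rh x2 * ∫ x1, w (v1 * x1 + v2 * x2) * G1 x1 := by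
    have hpos : ∀ x2, 0 ≤ x2 → 0 < ∫ x1, w (v1 * x1 + v2 * x2) * G1 x1 := fun x2 h2 =>
      lemM hi hw he1 hv1 (mul_nonneg hv2.le h2)
    have hint : Integrable (fun x2 => rh x2 * ∫ x1, w (v1 * x1 + v2 * x2) * G1 x1) := by
      have h := Ir.integral_prod_right
      refine h.congr (Filter.Eventually.of_forall fun x2 => ?_)
      simp only
      rw [← integral_const_mul]
      congr 1
      ext x1
      ring
    have hrz : ∀ x2, x2 ≤ 0 → rh x2 = 0 := by
      intro x2 h
      simp only [hrh, hsg]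
      rw [abs_of_nonpos h, neg_neg, sub_self]
    rw [integral_pos_iff_support_of_nonneg _ hint]
    · have h2 : Set.Ioi (0 : ℝ) ⊆ Function.support
          (fun x2 => rh x2 * ∫ x1, w (v1 * x1 + v2 * x2) * G1 x1) := by
        intro x hx
        have hx' : (0 : ℝ) < x := hx
        have h3 : 0 < rh x := by
          simp only [hrh, hsg]
          rw [abs_of_pos hx']
          linarith [G_asym he2 hx']
        exact (mul_pos h3 (hpos x hx'.le)).ne'
      refine lt_of_lt_of_le ?_ (measure_mono h2)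
      simp
    · intro x2
      simp only [Pi.zero_apply]
      rcases le_or_gt x2 0 with h | h
      · rw [hrz x2 h, zero_mul]
      · exact mul_nonneg (nrh _) (hpos x2 h.le).le
  -- the second term
  have hT2 : 0 ≤ ∫ x1, (∫ x2, w (v1 * x1 + v2 * x2) * sg x2) * G1 x1 := by
    have sgev : ∀ x, sg (-x) = sg x := fun x => by simp only [hsg, abs_neg]
    have isg : ∀ a b : ℝ, Integrable (fun x => w (a * x + b) * sg x) := by
      intro a b
      have h := G_int hi (e := m2 + 2) (by omega) (cpg_aff hw.cpg a b)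
      refine h.mono ?_ (Filter.Eventually.of_forall fun x => ?_)
      · exact ((hw.cpg.1.comp (by fun_prop : Continuous fun x : ℝ => a * x + b)).measurable.mul
          msg).aestronglyMeasurable
      · rw [norm_mul, norm_mul, Real.norm_of_nonneg (nsg x), Real.norm_of_nonneg (n2 x)]
        exact mul_le_mul_of_nonneg_left (hsle x) (norm_nonneg _)
    set k : ℝ → ℝ := fun x1 => ∫ x2, w (v1 * x1 + v2 * x2) * sg x2 with hk
    have hodd : ∀ x, k (-x) = - k x := by
      intro x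
      simp only [hk]
      rw [← integral_neg, ← integral_neg_eq_self]
      congr 1
      ext x2
      rw [sgev]
      have : v1 * -x + v2 * -x2 = -(v1 * x + v2 * x2) := by ring
      rw [this, hw.odd]
      ring
    have hkn : ∀ x, 0 < x → 0 ≤ k x := by
      intro x hx
      simp only [hk]
      set a := v1 * x / v2 with ha
      have ha0 : 0 ≤ a := by positivity
      have e1 : ∀ t, w (v1 * x + v2 * (t - a)) = w (v2 * t) := by
        intro t
        congr 1
        rw [ha]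
        field_simp
        ring
      have hint2 : Integrable (fun t => w (v2 * t) * sg (t - a)) := by
        have h := (isg v2 (v1 * x)).comp_sub_right a
        refine h.congr (Filter.Eventually.of_forall fun t => ?_)
        simp only
        rw [add_comm, e1]
      rw [← integral_sub_right_eq_self _ a]
      simp only [e1]
      obtain ⟨h1, h2⟩ := split (W := fun t => w (v2 * t)) (γ := fun t => sg (t - a))
        (fun t => by rw [mul_neg, hw.odd]) hint2
      rw [h2]
      refine setIntegral_nonneg measurableSet_Ioi fun t ht => ?_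
      have ht' : (0 : ℝ) < t := ht
      apply mul_nonneg (hw.pos _ (mul_pos hv2 ht')).le
      simp only [hsg]
      apply sub_nonneg.2
      apply G_mono he2
      · have h3 : |t - a| ≤ t + a := by rw [abs_le]; constructor <;> linarith
        have h4 : |-t - a| = t + a := by
          rw [abs_of_nonpos (by linarith)]; ring
        rw [h4]
        linarith
      · linarith [abs_nonneg (t - a)]
    have hint : Integrable (fun x1 => k x1 * G1 x1) := by
      have h := Is.integral_prod_left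
      refine h.congr (Filter.Eventually.of_forall fun x1 => ?_)
      simp only [hk]
      rw [← integral_mul_const]
      congr 1
      ext x2
      ring
    obtain ⟨h1, h2⟩ := split hodd hint
    rw [h2]
    refine setIntegral_nonneg measurableSet_Ioi fun x hx => ?_
    exact mul_nonneg (hkn x hx) (sub_nonneg.2 (G_asym he1 hx).le)
  linarith

end Pool.Agent.R444.GQ.MP
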