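import Pool.Agent.R444.GQ.Stm

open MeasureTheory ProbabilityTheory Real Filter Topology

namespace Pool.Agent.R444.GQ

lemma nuC_prob {e : ℕ} (he : 1 ≤ e) : IsProbabilityMeasure (nu e) := by
  have h0 : e ≠ 0 := by omega
  rw [nu, if_neg h0]
  exact isProbabilityMeasure_gammaMeasure (by positivity) (by norm_num)

/-- `∫ φ dν_e` as an integral over `(0,∞)` -/
lemma nuC_dens : S_nu_dens := by
  intro e he φ
  have h0 : e ≠ 0 := by omega
  rw [nu, if_neg h0, gammaMeasure,
    integral_withDensity_eq_integral_toReal_smul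
      (by exact (measurable_gammaPDFReal _ _).ennreal_ofReal)
      (Filter.Eventually.of_forall fun x => by simp [gammaPDF])]
  rw [← integral_indicator measurableSet_Ioi]
  refine integral_congr_ae ?_
  have : ∀ᵐ x : ℝ, x ≠ 0 := by
    simp [ae_iff]
  filter_upwards [this] with x hx
  rcases lt_or_gt_of_ne hx with h | h
  · rw [gammaPDF_of_neg h, Set.indicator_of_notMem (by simp [h.le])]
    simp
  · rw [gammaPDF_of_nonneg h.le, Set.indicator_of_mem (by exact h)]
    rw [ENNReal.toReal_ofReal (by have := Real.Gamma_pos_of_pos (show (0:ℝ) < (e:ℝ)/2 by positivity); positivity)]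
    simp only [smul_eq_mul, dens]
    rw [show (1 / 2 * x : ℝ) = x / 2 by ring]
    ring

lemma nuC_mgf {e : ℕ} (he : 1 ≤ e) {x : ℝ} (hx : x < 1 / 2) :
    mgf id (nu e) x = ((1 / 2) / (1 / 2 - x)) ^ ((e : ℝ) / 2) := by
  have hpos : (0 : ℝ) < (e : ℝ) / 2 := by positivity
  have hG := Real.Gamma_pos_of_pos hpos
  unfold mgf
  simp only [id]
  rw [nuC_dens e he]
  have h1 : ∀ y : ℝ, Real.exp (x * y) * dens e y =
      ((1 / 2) ^ ((e : ℝ) / 2) / Real.Gamma ((e : ℝ) / 2)) *
        (y ^ ((e : ℝ) / 2 - 1) * Real.exp (-((1 / 2 - x) * y))) := by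
    intro y
    rw [dens, show -((1 / 2 - x) * y) = x * y + -(y / 2) by ring, Real.exp_add]
    ring
  simp_rw [h1]
  rw [integral_const_mul, Real.integral_rpow_mul_exp_neg_mul_Ioi hpos (by linarith)]
  have hd : (0 : ℝ) < 1 / 2 - x := by linarith
  rw [show (1 / 2 : ℝ) / (1 / 2 - x) = (1 / 2) * (1 / (1 / 2 - x)) by ring,
    Real.mul_rpow (by norm_num) (by positivity)]
  generalize (1 / (1 / 2 - x)) ^ ((e : ℝ) / 2) = A
  generalize (1 / 2 : ℝ) ^ ((e : ℝ) / 2) = B
  field_simp

/-- transfer from real exponential moments to characteristic functions -/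
lemma charFun_eq_of_mgf (μ ν : Measure ℝ) (k : ℕ)
    (h : ∀ x : ℝ, x < 1 / 2 → mgf id μ x = (mgf id ν x) ^ k)
    (hμ : ∀ x : ℝ, x < 1 / 2 → mgf id μ x ≠ 0) (hν : ∀ x : ℝ, x < 1 / 2 → mgf id ν x ≠ 0)
    (t : ℝ) : charFun μ t = (charFun ν t) ^ k := by
  have hsub : ∀ ρ : Measure ℝ, (∀ x : ℝ, x < 1 / 2 → mgf id ρ x ≠ 0) →
      Set.Iio (1 / 2 : ℝ) ⊆ interior (integrableExpSet id ρ) := by
    intro ρ hρ
    refine interior_maximal ?_ isOpen_Iio
    intro x hx
    by_contra hcon
    exact hρ x hx (integral_undef hcon)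
  set U : Set ℂ := {z | z.re ∈ Set.Iio (1 / 2 : ℝ)} with hU
  have hX : AnalyticOnNhd ℂ (complexMGF id μ) U :=
    analyticOnNhd_complexMGF.mono (fun z hz => hsub μ hμ hz)
  have hY : AnalyticOnNhd ℂ (complexMGF id ν) U :=
    analyticOnNhd_complexMGF.mono (fun z hz => hsub ν hν hz)
  have hY' : AnalyticOnNhd ℂ (fun z => (complexMGF id ν z) ^ k) U := hY.pow k
  have hconv : IsPreconnected U :=
    ((convex_Iio (1 / 2 : ℝ)).linear_preimage Complex.reLm).isPreconnected
  have heq : Set.EqOn (complexMGF id μ) (fun z => (complexMGF id ν z) ^ k) U := by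
    refine AnalyticOnNhd.eqOn_of_preconnected_of_frequently_eq hX hY' hconv
      (z₀ := ((0 : ℝ) : ℂ)) (by simp [hU]) ?_
    have h_real : ∃ᶠ (x : ℝ) in 𝓝[≠] 0, complexMGF id μ x = (complexMGF id ν x) ^ k := by
      refine Filter.Eventually.frequently ?_
      have : ∀ᶠ x : ℝ in 𝓝[≠] 0, x < 1 / 2 :=
        eventually_nhdsWithin_of_eventually_nhds (eventually_lt_nhds (by norm_num))
      filter_upwards [this] with x hx
      rw [complexMGF_ofReal, complexMGF_ofReal, h x hx]
      push_cast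
      rfl
    rw [frequently_iff_seq_forall] at h_real ⊢
    obtain ⟨xs, hx_tendsto, hx_eq⟩ := h_real
    refine ⟨fun n ↦ xs n, ?_, fun n ↦ ?_⟩
    · rw [tendsto_nhdsWithin_iff] at hx_tendsto ⊢
      constructor
      · exact (Complex.continuous_ofReal.tendsto _).comp hx_tendsto.1
      · simpa using hx_tendsto.2
    · simpa using hx_eq n
  have := heq (show ((t : ℂ) * Complex.I) ∈ U by simp [hU])
  simpa only [complexMGF_id_mul_I] using this

theorem nu_char : S_nu_char := by
  intro e t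
  rcases Nat.eq_zero_or_pos e with rfl | he
  · simp [nu]
  · refine charFun_eq_of_mgf (nu e) (nu 1) e ?_ ?_ ?_ t
    · intro x hx
      rw [nuC_mgf he hx, nuC_mgf le_rfl hx, ← Real.rpow_natCast, ← Real.rpow_mul]
      · push_cast
        congr 1
        ring
      · exact div_nonneg (by norm_num) (by linarith)
    · intro x hx
      rw [nuC_mgf he hx]
      have : 0 < (1 / 2 : ℝ) / (1 / 2 - x) := div_pos (by norm_num) (by linarith)
      positivity
    · intro x hx
      rw [nuC_mgf le_rfl hx]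
      have : 0 < (1 / 2 : ℝ) / (1 / 2 - x) := div_pos (by norm_num) (by linarith)
      positivity

lemma gauss_sq_mgf {x : ℝ} (hx : x < 1 / 2) :
    mgf id ((gaussianReal 0 1).map (fun x => x ^ 2)) x
      = ((1 / 2) / (1 / 2 - x)) ^ (1 / 2 : ℝ) := by
  have hb : (0 : ℝ) < 1 / 2 - x := by linarith
  rw [mgf, integral_map (by fun_prop) (by fun_prop)]
  simp only [id]
  rw [integral_gaussianReal_eq_integral_smul (by norm_num)]
  have h1 : ∀ y : ℝ, gaussianPDFReal 0 1 y • Real.exp (x * y ^ 2)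
      = (√(2 * π))⁻¹ * Real.exp (-(1 / 2 - x) * y ^ 2) := by
    intro y
    rw [gaussianPDFReal, smul_eq_mul, mul_assoc, ← Real.exp_add]
    congr 2
    · simp
    · simp
      ring
  simp_rw [h1]
  rw [integral_const_mul, integral_gaussian, ← Real.sqrt_eq_rpow, ← Real.sqrt_inv,
    ← Real.sqrt_mul (by positivity)]
  congr 1
  field_simp

theorem nu_sq : S_nu_sq := by
  have h1 : IsProbabilityMeasure (nu 1) := nuC_prob le_rfl
  have h2 : IsProbabilityMeasure ((gaussianReal 0 1).map (fun x : ℝ => x ^ 2)) :=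
    Measure.isProbabilityMeasure_map (by fun_prop)
  refine Measure.ext_of_charFun ?_
  ext t
  have := charFun_eq_of_mgf ((gaussianReal 0 1).map (fun x : ℝ => x ^ 2)) (nu 1) 1 ?_ ?_ ?_ t
  · simpa using this
  · intro x hx
    rw [gauss_sq_mgf hx, nuC_mgf le_rfl hx]
    simp
  · intro x hx
    rw [gauss_sq_mgf hx]
    have : 0 < (1 / 2 : ℝ) / (1 / 2 - x) := div_pos (by norm_num) (by linarith)
    positivity
  · intro x hx
    rw [nuC_mgf le_rfl hx]
    have : 0 < (1 / 2 : ℝ) / (1 / 2 - x) := div_pos (by norm_num) (by linarith)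
    positivity

end Pool.Agent.R444.GQ
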