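import Pool.Agent.R444.GQ.Stm

/-!
# Project GQ, piece PP: the sign-change property (`S_PP_nu`) and `S_R`
-/

set_option autoImplicit false

open MeasureTheory ProbabilityTheory Real Set

namespace Pool.Agent.R444.GQ.PPr

open Pool.Agent.R444.GQ

lemma cpg_nonneg {φ : ℝ → ℝ} {C : ℝ} {N : ℕ} (h : ∀ s, |φ s| ≤ C * (1 + s ^ 2) ^ N) : 0 ≤ C := by
  have h0 := (abs_nonneg (φ 0)).trans (h 0)
  simpa using h0

lemma cpg_aff {φ : ℝ → ℝ} (h : CPG φ) (a b : ℝ) : CPG (fun y => φ (a + b * y)) := by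
  obtain ⟨hc, C, N, hb⟩ := h
  have hC := cpg_nonneg hb
  refine ⟨hc.comp (by fun_prop), C * (1 + 2 * a ^ 2 + 2 * b ^ 2) ^ N, N, fun s => ?_⟩
  refine (hb _).trans ?_
  rw [mul_assoc, ← mul_pow]
  apply mul_le_mul_of_nonneg_left _ hC
  apply pow_le_pow_left₀ (by positivity)
  nlinarith [sq_nonneg (a - b * s), mul_nonneg (sq_nonneg a) (sq_nonneg s), sq_nonneg b,
    sq_nonneg s]

lemma cpg_neg {f : ℝ → ℝ} (hf : CPG f) : CPG (fun y => - f y) := by
  obtain ⟨hc, C, N, hb⟩ := hf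
  exact ⟨hc.neg, C, N, fun s => by rw [abs_neg]; exact hb s⟩

lemma cpg_mul {f g : ℝ → ℝ} (hf : CPG f) (hg : CPG g) : CPG (fun y => f y * g y) := by
  obtain ⟨hc, C, N, hb⟩ := hf
  obtain ⟨hc', C', N', hb'⟩ := hg
  refine ⟨hc.mul hc', C * C', N + N', fun s => ?_⟩
  rw [abs_mul, pow_add]
  calc |f s| * |g s| ≤ (C * (1 + s ^ 2) ^ N) * (C' * (1 + s ^ 2) ^ N') :=
        mul_le_mul (hb s) (hb' s) (abs_nonneg _) ((abs_nonneg _).trans (hb s))
    _ = C * C' * ((1 + s ^ 2) ^ N * (1 + s ^ 2) ^ N') := by ring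

lemma abs_le_one_add (s : ℝ) : |s| ≤ 1 + s ^ 2 := by
  nlinarith [sq_abs s, sq_nonneg (|s| - 1), abs_nonneg s]

lemma cpg_sub (c : ℝ) : CPG (fun y => y - c) := by
  refine ⟨by fun_prop, 2 + c ^ 2, 1, fun s => ?_⟩
  rw [pow_one]
  have h1 : |s - c| ≤ |s| + |c| := by
    rw [sub_eq_add_neg, ← abs_neg c]
    exact abs_add_le _ _
  have h2 := abs_le_one_add s
  have h3 := abs_le_one_add c
  nlinarith [mul_nonneg (sq_nonneg c) (sq_nonneg s), sq_nonneg s, sq_nonneg c]

lemma dens_pos {e : ℕ} (he : 1 ≤ e) {y : ℝ} (hy : 0 < y) : 0 < dens e y := by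
  unfold dens
  have h0 : (0 : ℝ) < e := by exact_mod_cast he
  have h1 : (0 : ℝ) < (e : ℝ) / 2 := by positivity
  have h2 := Real.Gamma_pos_of_pos h1
  positivity

/-- the density on the line -/
noncomputable def G (e : ℕ) : ℝ → ℝ := (Ioi (0 : ℝ)).indicator (dens e)

lemma G_of_pos (e : ℕ) {y : ℝ} (hy : 0 < y) : G e y = dens e y :=
  indicator_of_mem (mem_Ioi.2 hy) _

lemma G_of_nonpos (e : ℕ) {y : ℝ} (hy : y ≤ 0) : G e y = 0 :=
  indicator_of_notMem (by rw [mem_Ioi]; exact not_lt.2 hy) _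

lemma G_pos {e : ℕ} (he : 1 ≤ e) {y : ℝ} (hy : 0 < y) : 0 < G e y := by
  rw [G_of_pos e hy]
  exact dens_pos he hy

lemma G_nonneg {e : ℕ} (he : 1 ≤ e) (y : ℝ) : 0 ≤ G e y := by
  rcases le_or_gt y 0 with h | h
  · rw [G_of_nonpos e h]
  · exact (G_pos he h).le

lemma int_eq (hd : S_nu_dens) {e : ℕ} (he : 1 ≤ e) (φ : ℝ → ℝ) :
    ∫ y, φ y ∂(nu e) = ∫ y, φ y * G e y := by
  rw [hd e he φ, ← integral_indicator measurableSet_Ioi]
  refine integral_congr_ae (Filter.Eventually.of_forall fun y => ?_)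
  show (Ioi (0 : ℝ)).indicator (fun y => φ y * dens e y) y = φ y * G e y
  rcases le_or_gt y 0 with h | h
  · rw [G_of_nonpos e h, mul_zero, indicator_of_notMem (by rw [mem_Ioi]; exact not_lt.2 h)]
  · rw [G_of_pos e h, indicator_of_mem (mem_Ioi.2 h)]

lemma integrable_G (hi : S_nu_int) {e : ℕ} (he : 1 ≤ e) {φ : ℝ → ℝ} (h : CPG φ) :
    Integrable (fun y => φ y * G e y) := by
  have h1 := hi e φ h
  unfold nu at h1
  rw [if_neg (by omega)] at h1
  unfold gammaMeasure at h1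
  have hm : Measurable (gammaPDF ((e : ℝ) / 2) (1 / 2)) :=
    (measurable_gammaPDFReal _ _).ennreal_ofReal
  rw [integrable_withDensity_iff_integrable_smul' hm
    (Filter.Eventually.of_forall fun x => by unfold gammaPDF; exact ENNReal.ofReal_lt_top)] at h1
  refine h1.congr ?_
  have h0 : ∀ᵐ x : ℝ, x ≠ 0 := by
    have : ({0}ᶜ : Set ℝ) ∈ ae (volume : Measure ℝ) := compl_mem_ae_iff.2 (measure_singleton 0)
    filter_upwards [this] with x hx
    exact hx
  filter_upwards [h0] with x hx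
  rcases lt_or_gt_of_ne hx with h2 | h2
  · rw [G_of_nonpos e h2.le, mul_zero]
    unfold gammaPDF gammaPDFReal
    rw [if_neg (not_le.2 h2)]
    simp
  · have h3 := G_pos he h2
    rw [G_of_pos e h2] at h3 ⊢
    unfold gammaPDF gammaPDFReal
    rw [if_pos h2.le, smul_eq_mul, mul_comm (φ x)]
    congr 1
    have e1 : (1 / 2) ^ ((e : ℝ) / 2) / Real.Gamma ((e : ℝ) / 2) * x ^ ((e : ℝ) / 2 - 1) *
        Real.exp (-(1 / 2 * x)) = dens e x := by
      unfold dens
      rw [show (1 / 2 * x : ℝ) = x / 2 by ring]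
    rw [e1, ENNReal.toReal_ofReal h3.le]

lemma int_pos (hd : S_nu_dens) (hi : S_nu_int) {e : ℕ} (he : 1 ≤ e) {φ : ℝ → ℝ} (hφ : CPG φ)
    (c : ℝ) (h0 : ∀ y, 0 < y → 0 ≤ φ y) (h1 : ∀ y, 0 < y → y ≠ c → 0 < φ y) :
    0 < ∫ y, φ y ∂(nu e) := by
  rw [int_eq hd he, integral_pos_iff_support_of_nonneg_ae ?_ (integrable_G hi he hφ)]
  · have hs : Ioi (0 : ℝ) \ {c} ⊆ Function.support (fun y => φ y * G e y) := by
      intro y hy
      exact (mul_pos (h1 y hy.1 hy.2) (G_pos he hy.1)).ne'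
    refine lt_of_lt_of_le ?_ (measure_mono hs)
    rw [measure_sdiff_null (measure_singleton c), Real.volume_Ioi]
    exact ENNReal.zero_lt_top
  · refine Filter.Eventually.of_forall fun y => ?_
    show 0 ≤ φ y * G e y
    rcases le_or_gt y 0 with h | h
    · rw [G_of_nonpos e h, mul_zero]
    · exact mul_nonneg (h0 y h) (G_pos he h).le

lemma left_neg {h : ℝ → ℝ} (hp : PP h) {y0 : ℝ} (hz : h y0 = 0) {y : ℝ} (hy : y < y0) :
    h y < 0 := by
  by_contra hcon
  push Not at hcon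
  have := hp _ _ hy hcon
  linarith

/-- somewhere nonnegative -/
lemma ex_nonneg (hd : S_nu_dens) (hi : S_nu_int) {h : ℝ → ℝ} (hc : CPG h) {e : ℕ} (he : 1 ≤ e)
    (h0 : 0 ≤ ∫ y, h y ∂(nu e)) : ∃ y, 0 < y ∧ 0 ≤ h y := by
  by_contra hcon
  push Not at hcon
  have h1 := int_pos hd hi he (cpg_neg hc) 0 (fun y hy => by have := hcon y hy; linarith)
    (fun y hy _ => by have := hcon y hy; linarith)
  rw [integral_neg] at h1
  linarith

lemma R0 (hd : S_nu_dens) (hi : S_nu_int) (hb : S_nu_bias) {h : ℝ → ℝ} (hc : CPG h) (hp : PP h)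
    {e : ℕ} (he : 1 ≤ e) (h0 : ∫ y, h y ∂(nu e) = 0) : 0 < ∫ y, h y ∂(nu (e + 2)) := by
  obtain ⟨y1, hy1, hy1'⟩ := ex_nonneg hd hi hc he h0.ge
  obtain ⟨y2, hy2, hy2'⟩ : ∃ y, 0 < y ∧ h y ≤ 0 := by
    by_contra hcon
    push Not at hcon
    have h1 := int_pos hd hi he hc 0 (fun y hy => (hcon y hy).le) (fun y hy _ => hcon y hy)
    rw [h0] at h1
    exact lt_irrefl _ h1
  obtain ⟨y0, hy0, hz⟩ := isPreconnected_Ioi.intermediate_value (mem_Ioi.2 hy2) (mem_Ioi.2 hy1)
    hc.1.continuousOn (mem_Icc.2 ⟨hy2', hy1'⟩)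
  have hr : ∀ y, y0 < y → 0 < h y := fun y hy => hp _ _ hy hz.ge
  have e2 : ∀ y, y ≠ y0 → 0 < (y - y0) * h y := by
    intro y hy
    rcases lt_or_gt_of_ne hy with h1 | h1
    · exact mul_pos_of_neg_of_neg (by linarith) (left_neg hp hz h1)
    · exact mul_pos (by linarith) (hr y h1)
  have e3 := int_pos hd hi he (cpg_mul (cpg_sub y0) hc) y0 (fun y _ => by
    rcases eq_or_ne y y0 with h1 | h1
    · rw [h1]; simp
    · exact (e2 y h1).le) (fun y _ h1 => e2 y h1)
  have e4 : ∫ y, (y - y0) * h y ∂(nu e) = e * ∫ y, h y ∂(nu (e + 2)) := by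
    have h1 : ∀ y, (y - y0) * h y = y * h y - y0 * h y := by intro y; ring
    simp_rw [h1]
    have i1 : Integrable (fun y => y * h y) (nu e) := by
      have := hi e _ (cpg_mul (cpg_sub 0) hc)
      simpa using this
    rw [integral_sub i1 ((hi e _ hc).const_mul _), integral_const_mul, h0, hb e he h]
    ring
  rw [e4] at e3
  have e5 : (0 : ℝ) < e := by exact_mod_cast he
  exact (pos_iff_pos_of_mul_pos e3).1 e5

lemma pp_neg {k : ℝ → ℝ} (hp : PP k) : PP (fun z => - k (-z)) := by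
  intro z1 z2 h h1
  by_contra hcon
  simp only at h1 hcon
  have h2 : 0 ≤ k (-z2) := by linarith
  have := hp (-z2) (-z1) (by linarith) h2
  linarith

lemma cpg_neg' {k : ℝ → ℝ} (hc : CPG k) : CPG (fun z => - k (-z)) := by
  have h1 := cpg_neg (cpg_aff hc 0 (-1))
  have h2 : (fun y => - k (0 + -1 * y)) = fun z => - k (-z) := by
    funext y
    rw [zero_add, neg_one_mul]
  rwa [h2] at h1

lemma pp_aff {k : ℝ → ℝ} (hp : PP k) (z : ℝ) {v : ℝ} (hv : 0 < v) : PP (fun y => k (z + v * y)) := by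
  intro y1 y2 h h1
  exact hp _ _ (by nlinarith) h1

lemma ratio {e : ℕ} (he : 2 ≤ e) {η y y0 : ℝ} (hη : 0 < η) (hy : y ≤ y0) (hy0 : 0 < y0) :
    G e (y - η) * G e y0 ≤ G e (y0 - η) * G e y := by
  have he1 : 1 ≤ e := by omega
  rcases le_or_gt (y - η) 0 with h | h
  · rw [G_of_nonpos e h, zero_mul]
    exact mul_nonneg (G_nonneg he1 _) (G_nonneg he1 _)
  · have h2 : 0 < y := by linarith
    have h3 : 0 < y0 - η := by linarith
    rw [G_of_pos e h, G_of_pos e hy0, G_of_pos e h3, G_of_pos e h2]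
    unfold dens
    set c : ℝ := (1 / 2) ^ ((e : ℝ) / 2) / Real.Gamma ((e : ℝ) / 2) with hcdef
    have ha : 0 ≤ (e : ℝ) / 2 - 1 := by
      have : (2 : ℝ) ≤ e := by exact_mod_cast he
      linarith
    have e1 : (y - η) ^ ((e : ℝ) / 2 - 1) * y0 ^ ((e : ℝ) / 2 - 1) ≤
        (y0 - η) ^ ((e : ℝ) / 2 - 1) * y ^ ((e : ℝ) / 2 - 1) := by
      rw [← Real.mul_rpow h.le hy0.le, ← Real.mul_rpow h3.le h2.le]
      apply Real.rpow_le_rpow (by positivity) _ ha
      nlinarith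
    have e2 : Real.exp (-((y - η) / 2)) * Real.exp (-(y0 / 2)) =
        Real.exp (-((y0 - η) / 2)) * Real.exp (-(y / 2)) := by
      rw [← Real.exp_add, ← Real.exp_add]
      congr 1
      ring
    calc c * (y - η) ^ ((e : ℝ) / 2 - 1) * Real.exp (-((y - η) / 2)) *
          (c * y0 ^ ((e : ℝ) / 2 - 1) * Real.exp (-(y0 / 2)))
        = c ^ 2 * ((y - η) ^ ((e : ℝ) / 2 - 1) * y0 ^ ((e : ℝ) / 2 - 1)) *
          (Real.exp (-((y - η) / 2)) * Real.exp (-(y0 / 2))) := by ring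
      _ ≤ c ^ 2 * ((y0 - η) ^ ((e : ℝ) / 2 - 1) * y ^ ((e : ℝ) / 2 - 1)) *
          (Real.exp (-((y - η) / 2)) * Real.exp (-(y0 / 2))) := by
          apply mul_le_mul_of_nonneg_right _ (by positivity)
          exact mul_le_mul_of_nonneg_left e1 (by positivity)
      _ = c * (y0 - η) ^ ((e : ℝ) / 2 - 1) * Real.exp (-((y0 - η) / 2)) *
          (c * y ^ ((e : ℝ) / 2 - 1) * Real.exp (-(y / 2))) := by rw [e2]; ring

lemma PP0 (hd : S_nu_dens) (hi : S_nu_int) {h : ℝ → ℝ} (hc : CPG h) (hp : PP h)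
    {e : ℕ} (he : 2 ≤ e) {η : ℝ} (hη : 0 < η) (h0 : 0 ≤ ∫ y, h y ∂(nu e)) :
    0 < ∫ y, h (η + 1 * y) ∂(nu e) := by
  have he1 : 1 ≤ e := by omega
  by_cases hA : ∀ y, η < y → 0 < h y
  · exact int_pos hd hi he1 (cpg_aff hc η 1) 0 (fun y hy => (hA _ (by linarith)).le)
      (fun y hy _ => hA _ (by linarith))
  push Not at hA
  obtain ⟨y1, hy1, hy1'⟩ := hA
  obtain ⟨y2, hy2, hy2'⟩ := ex_nonneg hd hi hc he1 h0
  have h12 : y1 ≤ y2 := by
    by_contra hcon
    push Not at hcon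
    have := hp _ _ hcon hy2'
    linarith
  obtain ⟨y0, hy0, hz⟩ := intermediate_value_Icc h12 hc.1.continuousOn (mem_Icc.2 ⟨hy1', hy2'⟩)
  have hy0' : η < y0 := lt_of_lt_of_le hy1 hy0.1
  have hy00 : 0 < y0 := by linarith
  have i1 : Integrable (fun y => h y * G e y) := integrable_G hi he1 hc
  have i2 : Integrable (fun y => h y * G e (y - η)) := by
    have := (integrable_G hi he1 (cpg_aff hc η 1)).comp_sub_right η
    refine this.congr (Filter.Eventually.of_forall fun y => ?_)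
    show h (η + 1 * (y - η)) * G e (y - η) = h y * G e (y - η)
    rw [show η + 1 * (y - η) = y by ring]
  have e1 : ∫ y, h (η + 1 * y) ∂(nu e) = ∫ y, h y * G e (y - η) := by
    rw [int_eq hd he1, ← integral_sub_right_eq_self _ η]
    refine integral_congr_ae (Filter.Eventually.of_forall fun y => ?_)
    show h (η + 1 * (y - η)) * G e (y - η) = h y * G e (y - η)
    rw [show η + 1 * (y - η) = y by ring]
  have e2 : ∫ y, h y ∂(nu e) = ∫ y, h y * G e y := int_eq hd he1 h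
  have nn : ∀ y, 0 ≤ G e y0 * (h y * G e (y - η)) - G e (y0 - η) * (h y * G e y) := by
    intro y
    have e3 : G e y0 * (h y * G e (y - η)) - G e (y0 - η) * (h y * G e y) =
        h y * (G e (y - η) * G e y0 - G e (y0 - η) * G e y) := by ring
    rw [e3]
    rcases lt_trichotomy y y0 with h1 | h1 | h1
    · have := ratio he hη h1.le hy00
      exact mul_nonneg_of_nonpos_of_nonpos (left_neg hp hz h1).le (by linarith)
    · rw [h1, hz, zero_mul]
    · have h2 := ratio he hη h1.le (hy00.trans h1)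
      exact mul_nonneg (hp _ _ h1 hz.ge).le (by linarith)
  have i3 : Integrable (fun y => G e y0 * (h y * G e (y - η)) - G e (y0 - η) * (h y * G e y)) :=
    (i2.const_mul _).sub (i1.const_mul _)
  have e4 : 0 < ∫ y, (G e y0 * (h y * G e (y - η)) - G e (y0 - η) * (h y * G e y)) := by
    rw [integral_pos_iff_support_of_nonneg_ae (Filter.Eventually.of_forall nn) i3]
    have hs : Ioo 0 η ⊆ Function.support
        (fun y => G e y0 * (h y * G e (y - η)) - G e (y0 - η) * (h y * G e y)) := by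
      intro y hy
      have h1 : G e (y - η) = 0 := G_of_nonpos e (by linarith [hy.2])
      have h2 : h y < 0 := left_neg hp hz (by linarith [hy.2])
      have h3 := G_pos he1 hy.1
      have h4 : 0 < G e (y0 - η) := G_pos he1 (by linarith)
      have h5 : 0 < G e y0 * (h y * G e (y - η)) - G e (y0 - η) * (h y * G e y) := by
        rw [h1, mul_zero, mul_zero, zero_sub]
        have := mul_pos h4 (mul_pos (neg_pos.2 h2) h3)
        linarith
      exact h5.ne'
    refine lt_of_lt_of_le ?_ (measure_mono hs)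
    rw [Real.volume_Ioo, sub_zero]
    exact ENNReal.ofReal_pos.2 hη
  rw [integral_sub (i2.const_mul _) (i1.const_mul _), integral_const_mul, integral_const_mul,
    ← e1, ← e2] at e4
  have h5 : 0 < G e y0 := G_pos he1 hy00
  have h6 : 0 ≤ G e (y0 - η) * ∫ y, h y ∂(nu e) := mul_nonneg (G_nonneg he1 _) h0
  have h7 : 0 < G e y0 * ∫ y, h (η + 1 * y) ∂(nu e) := by linarith
  exact (pos_iff_pos_of_mul_pos h7).1 h5

lemma PP_pos (hd : S_nu_dens) (hi : S_nu_int) {k : ℝ → ℝ} (hc : CPG k) (hp : PP k) {v : ℝ}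
    (hv : 0 < v) {e : ℕ} (he : 2 ≤ e) : PP (fun z => ∫ y, k (z + v * y) ∂(nu e)) := by
  intro z1 z2 hz h0
  have h1 := PP0 hd hi (cpg_aff hc z1 v) (pp_aff hp z1 hv) he
    (show 0 < (z2 - z1) / v from div_pos (by linarith) hv) h0
  refine h1.trans_eq ?_
  refine integral_congr_ae (Filter.Eventually.of_forall fun y => ?_)
  show k (z1 + v * ((z2 - z1) / v + 1 * y)) = k (z2 + v * y)
  congr 1
  field_simp
  ring

end Pool.Agent.R444.GQ.PPr

namespace Pool.Agent.R444.GQ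

open PPr

theorem PP_nu (hd : S_nu_dens) (hi : S_nu_int) : S_PP_nu := by
  intro k hc hp v hv e he
  rcases lt_or_gt_of_ne hv with h | h
  · have h1 := pp_neg (PP_pos hd hi (cpg_neg' hc) (pp_neg hp) (neg_pos.2 h) he)
    have h2 : (fun z => - ∫ y, (fun z => - k (-z)) (-z + -v * y) ∂(nu e)) =
        fun z => ∫ y, k (z + v * y) ∂(nu e) := by
      funext z
      rw [integral_neg, neg_neg]
      refine integral_congr_ae (Filter.Eventually.of_forall fun y => ?_)
      show k (-(-z + -v * y)) = k (z + v * y)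
      congr 1
      ring
    rw [← h2]
    exact h1
  · exact PP_pos hd hi hc hp h he

theorem R_thm (hd : S_nu_dens) (hi : S_nu_int) (hb : S_nu_bias) : S_R := by
  intro k hc hp v hv e he z h0
  rcases lt_or_gt_of_ne hv with h | h
  · have h2 : ∀ e : ℕ, ∫ y, (fun z => - k (-z)) (-z + -v * y) ∂(nu e) =
        - ∫ y, k (z + v * y) ∂(nu e) := by
      intro e
      rw [← integral_neg]
      refine integral_congr_ae (Filter.Eventually.of_forall fun y => ?_)
      show - k (-(-z + -v * y)) = - k (z + v * y)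
      congr 2
      ring
    have h1 := R0 hd hi hb (cpg_aff (cpg_neg' hc) (-z) (-v)) (pp_aff (pp_neg hp) (-z) (neg_pos.2 h))
      he (by rw [h2, h0, neg_zero])
    rw [h2] at h1
    exact mul_pos_of_neg_of_neg h (by linarith)
  · exact mul_pos h (R0 hd hi hb (cpg_aff hc z v) (pp_aff hp z h) he h0)

end Pool.Agent.R444.GQ
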