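import Pool.Agent.R444.GQ.Stm

/-!
# Project GQ, piece POLAR: polar coordinates for two squared Gaussians (`S_polar`)
-/

set_option autoImplicit false

open MeasureTheory ProbabilityTheory Real Set

namespace Pool.Agent.R444.GQ.Polar

open Pool.Agent.R444.GQ

lemma poly_le_exp (M : ℕ) : ∃ K : ℝ, 0 ≤ K ∧ ∀ t : ℝ, 0 ≤ t → (1 + t) ^ M ≤ K * Real.exp (t / 4) := by
  refine ⟨(4 * ((M : ℝ) + 1)) ^ M, by positivity, fun t ht => ?_⟩
  have hM : (0 : ℝ) < 4 * ((M : ℝ) + 1) := by positivity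
  have h1 : 1 + t ≤ 4 * ((M : ℝ) + 1) * Real.exp (t / (4 * ((M : ℝ) + 1))) := by
    have h2 := Real.add_one_le_exp (t / (4 * ((M : ℝ) + 1)))
    have h3 := mul_le_mul_of_nonneg_left h2 hM.le
    have h4 : 4 * ((M : ℝ) + 1) * (t / (4 * ((M : ℝ) + 1)) + 1) = t + 4 * ((M : ℝ) + 1) := by
      field_simp
    have h5 : (0 : ℝ) ≤ M := Nat.cast_nonneg M
    linarith
  calc (1 + t) ^ M ≤ (4 * ((M : ℝ) + 1) * Real.exp (t / (4 * ((M : ℝ) + 1)))) ^ M :=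
        pow_le_pow_left₀ (by linarith) h1 M
    _ = (4 * ((M : ℝ) + 1)) ^ M * Real.exp (M * (t / (4 * ((M : ℝ) + 1)))) := by
        rw [mul_pow, ← Real.exp_nat_mul]
    _ ≤ (4 * ((M : ℝ) + 1)) ^ M * Real.exp (t / 4) := by
        apply mul_le_mul_of_nonneg_left _ (by positivity)
        apply Real.exp_le_exp.2
        rw [mul_div_assoc', div_le_div_iff₀ hM (by norm_num)]
        nlinarith [Nat.cast_nonneg (α := ℝ) M]

/-- the integrand in the plane -/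
noncomputable def hh (ψ : ℝ → ℝ) (α β : ℝ) (z : ℝ × ℝ) : ℝ :=
  (2 * π)⁻¹ * Real.exp (-(z.1 ^ 2 + z.2 ^ 2) / 2) *
    ((z.1 ^ 2 - z.2 ^ 2) * ψ (α * (z.1 ^ 2 - 1) - β * (z.2 ^ 2 - 1)))

lemma hh_cont {ψ : ℝ → ℝ} (hψ : CPG ψ) (α β : ℝ) : Continuous (hh ψ α β) := by
  have := hψ.1
  unfold hh
  fun_prop

lemma hh_bound {ψ : ℝ → ℝ} (hψ : CPG ψ) (α β : ℝ) : ∃ K : ℝ, 0 ≤ K ∧
    ∀ z, |hh ψ α β z| ≤ K * Real.exp (-(z.1 ^ 2 + z.2 ^ 2) / 4) := by
  obtain ⟨-, C, N, hb⟩ := hψ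
  have hC : 0 ≤ C := by
    have h0 := (abs_nonneg (ψ 0)).trans (hb 0)
    simpa using h0
  obtain ⟨K, hK, hK'⟩ := poly_le_exp (2 * N + 1)
  set A : ℝ := 1 + (|α| + |β|) ^ 2 with hA
  refine ⟨(2 * π)⁻¹ * (C * A ^ N * K), by positivity, fun z => ?_⟩
  set t : ℝ := z.1 ^ 2 + z.2 ^ 2 with ht
  have ht0 : 0 ≤ t := by positivity
  set s : ℝ := α * (z.1 ^ 2 - 1) - β * (z.2 ^ 2 - 1) with hs
  have e1 : |z.1 ^ 2 - 1| ≤ 1 + t := by
    rw [abs_le]; constructor <;> nlinarith [sq_nonneg z.1, sq_nonneg z.2]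
  have e2 : |z.2 ^ 2 - 1| ≤ 1 + t := by
    rw [abs_le]; constructor <;> nlinarith [sq_nonneg z.1, sq_nonneg z.2]
  have e3 : |z.1 ^ 2 - z.2 ^ 2| ≤ 1 + t := by
    rw [abs_le]; constructor <;> nlinarith [sq_nonneg z.1, sq_nonneg z.2]
  have e4 : |s| ≤ (|α| + |β|) * (1 + t) := by
    rw [hs, sub_eq_add_neg]
    refine (abs_add_le _ _).trans ?_
    rw [abs_neg, abs_mul, abs_mul]
    have := mul_le_mul_of_nonneg_left e1 (abs_nonneg α)
    have := mul_le_mul_of_nonneg_left e2 (abs_nonneg β)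
    linarith
  have e5 : 1 + s ^ 2 ≤ A * (1 + t) ^ 2 := by
    have h1 : s ^ 2 ≤ ((|α| + |β|) * (1 + t)) ^ 2 := by
      rw [← sq_abs s]
      exact pow_le_pow_left₀ (abs_nonneg _) e4 2
    have h2 : 1 ≤ (1 + t) ^ 2 := by nlinarith
    rw [hA]
    nlinarith
  have e6 : |ψ s| ≤ C * (A ^ N * (1 + t) ^ (2 * N)) := by
    refine (hb s).trans ?_
    apply mul_le_mul_of_nonneg_left _ hC
    calc (1 + s ^ 2) ^ N ≤ (A * (1 + t) ^ 2) ^ N := pow_le_pow_left₀ (by positivity) e5 N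
      _ = A ^ N * (1 + t) ^ (2 * N) := by rw [mul_pow, ← pow_mul]
  have e7 : |(z.1 ^ 2 - z.2 ^ 2) * ψ s| ≤ C * A ^ N * K * Real.exp (t / 4) := by
    rw [abs_mul]
    calc |z.1 ^ 2 - z.2 ^ 2| * |ψ s| ≤ (1 + t) * (C * (A ^ N * (1 + t) ^ (2 * N))) :=
          mul_le_mul e3 e6 (abs_nonneg _) (by linarith)
      _ = C * A ^ N * (1 + t) ^ (2 * N + 1) := by ring
      _ ≤ C * A ^ N * (K * Real.exp (t / 4)) :=
          mul_le_mul_of_nonneg_left (hK' t ht0) (by positivity)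
      _ = _ := by ring
  unfold hh
  rw [← ht, ← hs, abs_mul, abs_of_nonneg (show 0 ≤ (2 * π)⁻¹ * Real.exp (-t / 2) by positivity)]
  have e8 : Real.exp (-t / 4) = Real.exp (-t / 2) * Real.exp (t / 4) := by
    rw [← Real.exp_add]; congr 1; ring
  rw [e8]
  calc (2 * π)⁻¹ * Real.exp (-t / 2) * |(z.1 ^ 2 - z.2 ^ 2) * ψ s|
      ≤ (2 * π)⁻¹ * Real.exp (-t / 2) * (C * A ^ N * K * Real.exp (t / 4)) :=
        mul_le_mul_of_nonneg_left e7 (by positivity)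
    _ = _ := by ring

lemma hh_int {ψ : ℝ → ℝ} (hψ : CPG ψ) (α β : ℝ) : Integrable (hh ψ α β) := by
  obtain ⟨K, hK, hb⟩ := hh_bound hψ α β
  have h1 : Integrable (fun x : ℝ => Real.exp (-(1 / 4) * x ^ 2)) :=
    integrable_exp_neg_mul_sq (by norm_num)
  have h2 := (h1.mul_prod h1).const_mul K
  refine h2.mono' (hh_cont hψ α β).aestronglyMeasurable (Filter.Eventually.of_forall fun z => ?_)
  rw [Real.norm_eq_abs]
  refine (hb z).trans_eq ?_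
  show K * Real.exp (-(z.1 ^ 2 + z.2 ^ 2) / 4) =
    K * (Real.exp (-(1 / 4) * z.1 ^ 2) * Real.exp (-(1 / 4) * z.2 ^ 2))
  rw [← Real.exp_add]
  congr 2
  ring

lemma hh_pol_int {ψ : ℝ → ℝ} (hψ : CPG ψ) (α β : ℝ) :
    IntegrableOn (fun p : ℝ × ℝ => p.1 * hh ψ α β (p.1 * Real.cos p.2, p.1 * Real.sin p.2))
      (Ioi (0 : ℝ) ×ˢ Ioo (-π) π) := by
  obtain ⟨K, hK, hb⟩ := hh_bound hψ α β
  have h1 : Integrable (fun x : ℝ => x * Real.exp (-(1 / 4) * x ^ 2)) :=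
    integrable_mul_exp_neg_mul_sq (by norm_num)
  have h2 : Integrable (fun _ : ℝ => (1 : ℝ)) (volume.restrict (Ioo (-π) π)) :=
    integrable_const _
  have h3 := ((h1.restrict (s := Ioi 0)).mul_prod h2).const_mul K
  rw [Measure.prod_restrict] at h3
  have hc : Continuous (fun p : ℝ × ℝ =>
      p.1 * hh ψ α β (p.1 * Real.cos p.2, p.1 * Real.sin p.2)) := by
    have := hh_cont hψ α β
    fun_prop
  refine Integrable.mono' h3 hc.aestronglyMeasurable ?_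
  refine (ae_restrict_mem (measurableSet_Ioi.prod measurableSet_Ioo)).mono fun p hp => ?_
  have hp1 : 0 < p.1 := hp.1
  rw [Real.norm_eq_abs, abs_mul, abs_of_pos hp1]
  have h4 := mul_le_mul_of_nonneg_left (hb (p.1 * Real.cos p.2, p.1 * Real.sin p.2)) hp1.le
  refine h4.trans_eq ?_
  show p.1 * (K * Real.exp (-((p.1 * Real.cos p.2) ^ 2 + (p.1 * Real.sin p.2) ^ 2) / 4)) =
    K * (p.1 * Real.exp (-(1 / 4) * p.1 ^ 2) * 1)
  have e1 : (p.1 * Real.cos p.2) ^ 2 + (p.1 * Real.sin p.2) ^ 2 = p.1 ^ 2 := by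
    have := Real.sin_sq_add_cos_sq p.2
    nlinarith
  rw [e1, show -p.1 ^ 2 / 4 = -(1 / 4) * p.1 ^ 2 by ring]
  ring

/-- the radial function -/
noncomputable def gg (ψ : ℝ → ℝ) (α β : ℝ) (u : ℝ) : ℝ :=
  Real.exp (-u) * (u * Jc ψ ((α - β) * (u - 1)) ((α + β) * u))

lemma circle_int (Φ : ℝ → ℝ) (hΦ : Continuous Φ) : ∫ φ in Ioo (-π) π, Φ (Real.cos (2 * φ)) =
    ∫ θ in (0 : ℝ)..(2 * π), Φ (Real.cos θ) := by
  rw [← integral_Ioc_eq_integral_Ioo, ← intervalIntegral.integral_of_le (by linarith [Real.pi_pos]),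
    intervalIntegral.integral_comp_mul_left (fun θ => Φ (Real.cos θ)) two_ne_zero]
  have hp : Function.Periodic (fun θ => Φ (Real.cos θ)) (2 * π) := by
    intro θ
    show Φ (Real.cos (θ + 2 * π)) = Φ (Real.cos θ)
    rw [Real.cos_add_two_pi]
  have h1 := hp.intervalIntegral_add_zsmul_eq 2 (2 * -π)
    (fun t1 t2 => (hΦ.comp Real.continuous_cos).intervalIntegrable t1 t2)
  have h2 := hp.intervalIntegral_add_eq (2 * -π) 0
  have e1 : 2 * -π + (2 : ℤ) • (2 * π) = 2 * π := by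
    rw [zsmul_eq_mul]; push_cast; ring
  rw [e1] at h1
  rw [h1, h2, zero_add, zsmul_eq_mul, smul_eq_mul]
  push_cast
  ring

lemma inner_int {ψ : ℝ → ℝ} (hψ : Continuous ψ) (α β r : ℝ) :
    ∫ φ in Ioo (-π) π, r * hh ψ α β (r * Real.cos φ, r * Real.sin φ) =
      (1 / π) * (r * gg ψ α β (r ^ 2 / 2)) := by
  have e1 : ∀ φ, r * hh ψ α β (r * Real.cos φ, r * Real.sin φ) =
      (fun c => r * ((2 * π)⁻¹ * Real.exp (-(r ^ 2 / 2)) * r ^ 2) *
        (c * ψ ((α - β) * (r ^ 2 / 2 - 1) + (α + β) * (r ^ 2 / 2) * c))) (Real.cos (2 * φ)) := by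
    intro φ
    unfold hh
    have h1 := Real.sin_sq_add_cos_sq φ
    have h2 := Real.cos_two_mul φ
    have h3 : (r * Real.cos φ) ^ 2 = r ^ 2 / 2 * (1 + Real.cos (2 * φ)) := by rw [h2]; ring
    have h4 : (r * Real.sin φ) ^ 2 = r ^ 2 / 2 * (1 - Real.cos (2 * φ)) := by
      rw [h2, mul_pow, show Real.sin φ ^ 2 = 1 - Real.cos φ ^ 2 by linarith]; ring
    simp only
    rw [h3, h4]
    rw [show -(r ^ 2 / 2 * (1 + Real.cos (2 * φ)) + r ^ 2 / 2 * (1 - Real.cos (2 * φ))) / 2 =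
        -(r ^ 2 / 2) by ring,
      show α * (r ^ 2 / 2 * (1 + Real.cos (2 * φ)) - 1) -
        β * (r ^ 2 / 2 * (1 - Real.cos (2 * φ)) - 1) =
        (α - β) * (r ^ 2 / 2 - 1) + (α + β) * (r ^ 2 / 2) * Real.cos (2 * φ) by ring]
    ring
  rw [setIntegral_congr_fun measurableSet_Ioo (fun φ _ => e1 φ),
    circle_int (fun c => r * ((2 * π)⁻¹ * Real.exp (-(r ^ 2 / 2)) * r ^ 2) *
        (c * ψ ((α - β) * (r ^ 2 / 2 - 1) + (α + β) * (r ^ 2 / 2) * c))) (by fun_prop)]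
  rw [intervalIntegral.integral_const_mul]
  show r * ((2 * π)⁻¹ * Real.exp (-(r ^ 2 / 2)) * r ^ 2) *
    Jc ψ ((α - β) * (r ^ 2 / 2 - 1)) ((α + β) * (r ^ 2 / 2)) = (1 / π) * (r * gg ψ α β (r ^ 2 / 2))
  unfold gg
  generalize Jc ψ ((α - β) * (r ^ 2 / 2 - 1)) ((α + β) * (r ^ 2 / 2)) = J
  have hpi := Real.pi_ne_zero
  field_simp

lemma radial_int (g : ℝ → ℝ) : ∫ r in Ioi (0 : ℝ), r * g (r ^ 2 / 2) = ∫ u in Ioi (0 : ℝ), g u := by
  have h1 := integral_comp_rpow_Ioi_of_pos (g := fun y => g (1 / 2 * y)) (p := 2) two_pos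
  have h2 := integral_comp_mul_left_Ioi g 0 (show (0 : ℝ) < 1 / 2 by norm_num)
  rw [mul_zero] at h2
  rw [h2] at h1
  have h3 : ∫ x in Ioi (0 : ℝ), (2 * x ^ ((2 : ℝ) - 1)) • (fun y => g (1 / 2 * y)) (x ^ (2 : ℝ)) =
      ∫ x in Ioi (0 : ℝ), 2 * (x * g (x ^ 2 / 2)) := by
    refine setIntegral_congr_fun measurableSet_Ioi fun x hx => ?_
    show (2 * x ^ ((2 : ℝ) - 1)) • g (1 / 2 * x ^ (2 : ℝ)) = 2 * (x * g (x ^ 2 / 2))
    rw [show ((2 : ℝ) - 1) = 1 by norm_num, Real.rpow_one, Real.rpow_two, smul_eq_mul,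
      show 1 / 2 * x ^ 2 = x ^ 2 / 2 by ring]
    ring
  rw [h3, integral_const_mul] at h1
  have h4 : (1 / 2 : ℝ)⁻¹ = 2 := by norm_num
  rw [h4, smul_eq_mul] at h1
  linarith

end Pool.Agent.R444.GQ.Polar

namespace Pool.Agent.R444.GQ

open Polar

theorem polar_thm (hs : S_nu_sq) : S_polar := by
  intro ψ hψ α β
  set F : ℝ → ℝ → ℝ := fun y1 y2 => (y1 - y2) * ψ (α * (y1 - 1) - β * (y2 - 1)) with hF
  have hψc := hψ.1
  have s1 : ∫ y1, ∫ y2, F y1 y2 ∂(nu 1) ∂(nu 1) =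
      ∫ x, ∫ y, F (x ^ 2) (y ^ 2) ∂(gaussianReal 0 1) ∂(gaussianReal 0 1) := by
    rw [← hs]
    have h1 : ∀ y1, ∫ y2, F y1 y2 ∂((gaussianReal 0 1).map (fun x : ℝ => x ^ 2)) =
        ∫ y, F y1 (y ^ 2) ∂(gaussianReal 0 1) := by
      intro y1
      have hc : Continuous (F y1) := by
        rw [hF]
        fun_prop
      rw [integral_map (by fun_prop) hc.aestronglyMeasurable]
    simp_rw [h1]
    have hm : StronglyMeasurable (fun y1 => ∫ y, F y1 (y ^ 2) ∂(gaussianReal 0 1)) := by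
      have hc : Continuous (Function.uncurry fun y1 y : ℝ => F y1 (y ^ 2)) := by
        rw [hF]
        unfold Function.uncurry
        fun_prop
      exact hc.stronglyMeasurable.integral_prod_right
    rw [integral_map (by fun_prop) hm.aestronglyMeasurable]
  have s2 : ∫ x, ∫ y, F (x ^ 2) (y ^ 2) ∂(gaussianReal 0 1) ∂(gaussianReal 0 1) =
      ∫ x : ℝ, ∫ y : ℝ, hh ψ α β (x, y) := by
    rw [integral_gaussianReal_eq_integral_smul one_ne_zero]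
    refine integral_congr_ae (Filter.Eventually.of_forall fun x => ?_)
    show gaussianPDFReal 0 1 x • ∫ y, F (x ^ 2) (y ^ 2) ∂(gaussianReal 0 1) = ∫ y, hh ψ α β (x, y)
    rw [integral_gaussianReal_eq_integral_smul one_ne_zero, smul_eq_mul, ← integral_const_mul]
    refine integral_congr_ae (Filter.Eventually.of_forall fun y => ?_)
    show gaussianPDFReal 0 1 x * (gaussianPDFReal 0 1 y • F (x ^ 2) (y ^ 2)) = hh ψ α β (x, y)
    unfold gaussianPDFReal hh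
    rw [hF, smul_eq_mul]
    simp only [NNReal.coe_one, mul_one, sub_zero]
    have e1 : (√(2 * π))⁻¹ * (√(2 * π))⁻¹ = (2 * π)⁻¹ := by
      rw [← mul_inv, Real.mul_self_sqrt (by positivity)]
    have e2 : Real.exp (-x ^ 2 / 2) * Real.exp (-y ^ 2 / 2) = Real.exp (-(x ^ 2 + y ^ 2) / 2) := by
      rw [← Real.exp_add]; congr 1; ring
    rw [← e1, ← e2]
    ring
  rw [s1, s2, integral_integral (f := fun x y => hh ψ α β (x, y)) (hh_int hψ α β)]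
  have s3 : ∫ z : ℝ × ℝ, hh ψ α β (z.1, z.2) = ∫ z : ℝ × ℝ, hh ψ α β z := rfl
  have s4 := integral_comp_polarCoord_symm (hh ψ α β)
  have s5 : ∫ p in polarCoord.target, p.1 • hh ψ α β (polarCoord.symm p) =
      ∫ p in Ioi (0 : ℝ) ×ˢ Ioo (-π) π,
        p.1 * hh ψ α β (p.1 * Real.cos p.2, p.1 * Real.sin p.2) := rfl
  have s6 := setIntegral_prod (fun p : ℝ × ℝ =>
    p.1 * hh ψ α β (p.1 * Real.cos p.2, p.1 * Real.sin p.2)) (hh_pol_int hψ α β)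
  have s7 : ∫ r in Ioi (0 : ℝ), ∫ φ in Ioo (-π) π, r * hh ψ α β (r * Real.cos φ, r * Real.sin φ) =
      (1 / π) * ∫ u in Ioi (0 : ℝ), gg ψ α β u := by
    rw [← radial_int (gg ψ α β), ← integral_const_mul]
    exact setIntegral_congr_fun measurableSet_Ioi fun r _ => inner_int hψc α β r
  show ∫ z : ℝ × ℝ, hh ψ α β (z.1, z.2) = (1 / π) * ∫ u in Ioi (0 : ℝ), gg ψ α β u
  rw [s3, ← s4, s5, ← s7, ← s6]
  rfl

end Pool.Agent.R444.GQ
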