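import Pool.Agent.R444.GQ.Cont

/-! `rot_thm` (helper971). -/

set_option autoImplicit false

open MeasureTheory ProbabilityTheory Real Filter
open scoped Topology

namespace Pool.Agent.R444.GQ

lemma bound3int971 (hi : S_nu_int) (hl : S_Lw_int) [∀ E, IsProbabilityMeasure (Lw E)] {φ : ℝ → ℝ} (h : CPG φ)
    (E : ℝ →₀ ℕ) (c : ℝ) (e1 e2 : ℕ) (x x' : ℝ) {k1 k2 : ℝ → ℝ} (h1 : CPG k1) (h2 : CPG k2) :
    Integrable (fun p : ℝ × ℝ × ℝ => (k1 p.2.1 * k2 p.2.2) * φ (p.1 - c + x * (p.2.1 - 1) + x' * (p.2.2 - 1)))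
      ((Lw E).prod ((nu e1).prod (nu e2))) ∧
    ∀ s, Integrable (fun p : ℝ × ℝ => (k1 p.1 * k2 p.2) * φ (s - c + x * (p.1 - 1) + x' * (p.2 - 1)))
      ((nu e1).prod (nu e2)) := by
  obtain ⟨C, N, hC, hb⟩ := h.bound971
  have hcont := h.1
  have hk1 := h1.1
  have hk2 := h2.1
  set R : ℝ := max |x| |x'| with hR
  have hbd : ∀ p : ℝ × ℝ × ℝ, ‖(k1 p.2.1 * k2 p.2.2) * φ (p.1 - c + x * (p.2.1 - 1) + x' * (p.2.2 - 1))‖ ≤
      (C * 4 ^ N * (1 + (p.1 - c) ^ 2) ^ N) * ((|k1 p.2.1| * (1 + R ^ 2 * (p.2.1 - 1) ^ 2) ^ N) *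
        (|k2 p.2.2| * (1 + R ^ 2 * (p.2.2 - 1) ^ 2) ^ N)) := by
    intro p
    have := bound3x971 hC hb R (p.1 - c) x (p.2.1 - 1) x' (p.2.2 - 1) (le_max_left _ _) (le_max_right _ _)
    rw [norm_mul, norm_mul, Real.norm_eq_abs, Real.norm_eq_abs, Real.norm_eq_abs]
    calc |k1 p.2.1| * |k2 p.2.2| * |φ (p.1 - c + x * (p.2.1 - 1) + x' * (p.2.2 - 1))|
        ≤ |k1 p.2.1| * |k2 p.2.2| * ((C * 4 ^ N * (1 + (p.1 - c) ^ 2) ^ N) *
          ((1 + R ^ 2 * (p.2.1 - 1) ^ 2) ^ N * (1 + R ^ 2 * (p.2.2 - 1) ^ 2) ^ N)) := by gcongr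
      _ = _ := by ring
  have habs : ∀ k : ℝ → ℝ, CPG k → CPG (fun y => |k y|) := by
    intro k hk
    obtain ⟨C', N', hC', hb'⟩ := hk.bound971
    exact ⟨hk.1.abs, C', N', fun s => by rw [abs_abs]; exact hb' s⟩
  have hg1 := (habs k1 h1).mul971 (cpgP971 1 R N)
  have hg2 := (habs k2 h2).mul971 (cpgP971 1 R N)
  refine ⟨?_, fun s => ?_⟩
  · refine (int3971 hi hl E e1 e2 (cpgQ971 (C * 4 ^ N) c N) hg1 hg2).mono' ?_ (Filter.Eventually.of_forall hbd)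
    exact (by fun_prop : Continuous fun p : ℝ × ℝ × ℝ =>
      (k1 p.2.1 * k2 p.2.2) * φ (p.1 - c + x * (p.2.1 - 1) + x' * (p.2.2 - 1))).aestronglyMeasurable
  · refine ((int2971 hi e1 e2 hg1 hg2).const_mul (C * 4 ^ N * (1 + (s - c) ^ 2) ^ N)).mono' ?_
      (Filter.Eventually.of_forall fun p => hbd (s, p))
    exact (by fun_prop : Continuous fun p : ℝ × ℝ =>
      (k1 p.1 * k2 p.2) * φ (s - c + x * (p.1 - 1) + x' * (p.2 - 1))).aestronglyMeasurable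

lemma cpg_id971 : CPG (fun y : ℝ => y) :=
  ⟨continuous_id, 1, 1, fun s => by
    rw [pow_one, one_mul]; nlinarith [sq_abs s, sq_nonneg (|s| - 1)]⟩

/-- size bias in the first distinguished variable -/
lemma bias1971 (hi : S_nu_int) (hl : S_Lw_int) (ha : S_Lw_add) (hb : S_nu_bias)
    [∀ E, IsProbabilityMeasure (Lw E)] {φ : ℝ → ℝ} (h : CPG φ) (E : ℝ →₀ ℕ) (c x x' : ℝ) :
    ∫ p : ℝ × ℝ × ℝ, p.2.1 * φ (p.1 - c + x * (p.2.1 - 1) + x' * (p.2.2 - 1))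
      ∂((Lw E).prod ((nu 1).prod (nu 1))) = RR φ E c 3 1 x x' := by
  have hI := bound3int971 hi hl h E c 1 1 x x' cpg_id971 (cpg_const971 1)
  have hJ := bound3int971 hi hl h E c 3 1 x x' (cpg_const971 1) (cpg_const971 1)
  simp only [mul_one, one_mul] at hI hJ
  rw [RR_eq971 hi hl ha h, integral_prod _ hI.1, integral_prod _ hJ.1]
  refine integral_congr_ae (Filter.Eventually.of_forall fun s => ?_)
  show ∫ p : ℝ × ℝ, p.1 * φ (s - c + x * (p.1 - 1) + x' * (p.2 - 1)) ∂((nu 1).prod (nu 1)) =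
    ∫ p : ℝ × ℝ, φ (s - c + x * (p.1 - 1) + x' * (p.2 - 1)) ∂((nu 3).prod (nu 1))
  rw [integral_prod _ (hI.2 s), integral_prod _ (hJ.2 s)]
  simp_rw [integral_const_mul]
  have := hb 1 le_rfl (fun y1 => ∫ y2, φ (s - c + x * (y1 - 1) + x' * (y2 - 1)) ∂(nu 1))
  rw [this]; simp

/-- size bias in the second distinguished variable -/
lemma bias2971 (hi : S_nu_int) (hl : S_Lw_int) (ha : S_Lw_add) (hb : S_nu_bias)
    [∀ E, IsProbabilityMeasure (Lw E)] {φ : ℝ → ℝ} (h : CPG φ) (E : ℝ →₀ ℕ) (c x x' : ℝ) :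
    ∫ p : ℝ × ℝ × ℝ, p.2.2 * φ (p.1 - c + x * (p.2.1 - 1) + x' * (p.2.2 - 1))
      ∂((Lw E).prod ((nu 1).prod (nu 1))) = RR φ E c 1 3 x x' := by
  have hI := bound3int971 hi hl h E c 1 1 x x' (cpg_const971 1) cpg_id971
  have hJ := bound3int971 hi hl h E c 1 3 x x' (cpg_const971 1) (cpg_const971 1)
  simp only [mul_one, one_mul] at hI hJ
  rw [RR_eq971 hi hl ha h, integral_prod _ hI.1, integral_prod _ hJ.1]
  refine integral_congr_ae (Filter.Eventually.of_forall fun s => ?_)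
  show ∫ p : ℝ × ℝ, p.2 * φ (s - c + x * (p.1 - 1) + x' * (p.2 - 1)) ∂((nu 1).prod (nu 1)) =
    ∫ p : ℝ × ℝ, φ (s - c + x * (p.1 - 1) + x' * (p.2 - 1)) ∂((nu 1).prod (nu 3))
  rw [integral_prod _ (hI.2 s), integral_prod _ (hJ.2 s)]
  refine integral_congr_ae (Filter.Eventually.of_forall fun y1 => ?_)
  have := hb 1 le_rfl (fun y2 => φ (s - c + x * (y1 - 1) + x' * (y2 - 1)))
  show ∫ y2, y2 * φ (s - c + x * (y1 - 1) + x' * (y2 - 1)) ∂(nu 1) = _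
  rw [this]; simp

lemma RR_ibp1971 (hib : S_Lw_ibp) {φ φ' : ℝ → ℝ} (hd : ∀ s, HasDerivAt φ (φ' s) s) (h : CPG φ) (h' : CPG φ')
    (E : ℝ →₀ ℕ) (c x x' : ℝ) : RR φ E c 3 1 x x' - RR φ E c 1 1 x x' = 2 * x * RR φ' E c 3 1 x x' := by
  have h1 := hib (E + Finsupp.single x 1 + Finsupp.single x' 1) x φ φ' hd h h' (-(c + x + x'))
  have h2 : E + Finsupp.single x 1 + Finsupp.single x' 1 + Finsupp.single x 2 =
      E + Finsupp.single x 3 + Finsupp.single x' 1 := by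
    have : (Finsupp.single x 3 : ℝ →₀ ℕ) = Finsupp.single x 1 + Finsupp.single x 2 := by
      rw [← Finsupp.single_add]
    rw [this]; abel
  rw [h2] at h1
  have e : ∀ s, s - (c + x + x') = -(c + x + x') + s := fun s => by ring
  unfold RR
  simp_rw [e]
  rw [h1]; ring

lemma RR_ibp2971 (hib : S_Lw_ibp) {φ φ' : ℝ → ℝ} (hd : ∀ s, HasDerivAt φ (φ' s) s) (h : CPG φ) (h' : CPG φ')
    (E : ℝ →₀ ℕ) (c x x' : ℝ) : RR φ E c 1 3 x x' - RR φ E c 1 1 x x' = 2 * x' * RR φ' E c 1 3 x x' := by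
  have h1 := hib (E + Finsupp.single x 1 + Finsupp.single x' 1) x' φ φ' hd h h' (-(c + x + x'))
  have h2 : E + Finsupp.single x 1 + Finsupp.single x' 1 + Finsupp.single x' 2 =
      E + Finsupp.single x 1 + Finsupp.single x' 3 := by
    have : (Finsupp.single x' 3 : ℝ →₀ ℕ) = Finsupp.single x' 1 + Finsupp.single x' 2 := by
      rw [← Finsupp.single_add]
    rw [this]; abel
  rw [h2] at h1
  have e : ∀ s, s - (c + x + x') = -(c + x + x') + s := fun s => by ring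
  unfold RR
  simp_rw [e]
  rw [h1]; ring

theorem rot_thm (hi : S_nu_int) (hb : S_nu_bias) (hp : S_Lw_prob) (hl : S_Lw_int) (ha : S_Lw_add)
    (hib : S_Lw_ibp) : S_rot := by
  intro f f1 ψ w w1 G E c r θ
  have : ∀ E, IsProbabilityMeasure (Lw E) := hp
  have hf := G.g0.1
  have hf1 := G.g1.1
  obtain ⟨C, N, hC, hbd⟩ := G.g1.bound971
  set R : ℝ := |r| with hR
  have e : (fun θ => RR f E c 1 1 (r * Real.cos θ) (r * Real.sin θ)) = fun θ =>
      ∫ p : ℝ × ℝ × ℝ, f (p.1 - c + (r * Real.cos θ) * (p.2.1 - 1) + (r * Real.sin θ) * (p.2.2 - 1))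
      ∂((Lw E).prod ((nu 1).prod (nu 1))) := by
    funext θ
    exact RR_eq971 hi hl ha G.g0 E c 1 1 _ _
  rw [e]
  have hcos : ∀ θ : ℝ, |r * Real.cos θ| ≤ R := fun θ => by
    rw [abs_mul]
    exact mul_le_of_le_one_right (abs_nonneg r) (Real.abs_cos_le_one θ)
  have hsin : ∀ θ : ℝ, |r * Real.sin θ| ≤ R := fun θ => by
    rw [abs_mul]
    exact mul_le_of_le_one_right (abs_nonneg r) (Real.abs_sin_le_one θ)
  set F' : ℝ → ℝ × ℝ × ℝ → ℝ := fun θ p =>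
    f1 (p.1 - c + (r * Real.cos θ) * (p.2.1 - 1) + (r * Real.sin θ) * (p.2.2 - 1)) *
      ((-(r * Real.sin θ)) * (p.2.1 - 1) + (r * Real.cos θ) * (p.2.2 - 1)) with hF'
  set bound : ℝ × ℝ × ℝ → ℝ := fun p => (C * 4 ^ N * (1 + (p.1 - c) ^ 2) ^ N) *
    ((R * (1 + (p.2.1 - 1) ^ 2) ^ 1 * (1 + R ^ 2 * (p.2.1 - 1) ^ 2) ^ N) *
      (1 * (1 + (p.2.2 - 1) ^ 2) ^ 1 * (1 + R ^ 2 * (p.2.2 - 1) ^ 2) ^ N)) with hbound
  have hbint : Integrable bound ((Lw E).prod ((nu 1).prod (nu 1))) :=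
    int3971 hi hl E 1 1 (cpgQ971 (C * 4 ^ N) c N) ((cpgQ971 R 1 1).mul971 (cpgP971 1 R N)) ((cpgQ971 1 1 1).mul971 (cpgP971 1 R N))
  have hF'b : ∀ p θ, ‖F' θ p‖ ≤ bound p := by
    intro p θ
    have h1 := bound3x971 hC hbd R (p.1 - c) (r * Real.cos θ) (p.2.1 - 1) (r * Real.sin θ) (p.2.2 - 1) (hcos θ) (hsin θ)
    have h2 : |(-(r * Real.sin θ)) * (p.2.1 - 1) + (r * Real.cos θ) * (p.2.2 - 1)| ≤
        R * ((1 + (p.2.1 - 1) ^ 2) * (1 + (p.2.2 - 1) ^ 2)) := by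
      refine (abs_add_le _ _).trans ?_
      rw [abs_mul, abs_mul, abs_neg]
      have h3 : |p.2.1 - 1| + |p.2.2 - 1| ≤ (1 + (p.2.1 - 1) ^ 2) * (1 + (p.2.2 - 1) ^ 2) := by
        nlinarith [sq_abs (p.2.1 - 1), sq_abs (p.2.2 - 1), sq_nonneg (|p.2.1 - 1| - 1 / 2),
          sq_nonneg (|p.2.2 - 1| - 1 / 2), mul_nonneg (sq_nonneg (p.2.1 - 1)) (sq_nonneg (p.2.2 - 1))]
      calc |r * Real.sin θ| * |p.2.1 - 1| + |r * Real.cos θ| * |p.2.2 - 1|
          ≤ R * |p.2.1 - 1| + R * |p.2.2 - 1| := by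
            have := hsin θ
            have := hcos θ
            gcongr
        _ = R * (|p.2.1 - 1| + |p.2.2 - 1|) := by ring
        _ ≤ _ := mul_le_mul_of_nonneg_left h3 (abs_nonneg r)
    simp only [hF', hbound]
    rw [norm_mul, Real.norm_eq_abs, Real.norm_eq_abs]
    calc _ ≤ ((C * 4 ^ N * (1 + (p.1 - c) ^ 2) ^ N) * ((1 + R ^ 2 * (p.2.1 - 1) ^ 2) ^ N * (1 + R ^ 2 * (p.2.2 - 1) ^ 2) ^ N)) *
          (R * ((1 + (p.2.1 - 1) ^ 2) * (1 + (p.2.2 - 1) ^ 2))) := by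
          exact mul_le_mul h1 h2 (abs_nonneg _) (by positivity)
      _ = _ := by ring
  have hF'cont : ∀ θ, Continuous (F' θ) := by intro θ; simp only [hF']; fun_prop
  have hder := hasDerivAt_integral_of_dominated_loc_of_deriv_le (μ := (Lw E).prod ((nu 1).prod (nu 1)))
    (F := fun θ p => f (p.1 - c + (r * Real.cos θ) * (p.2.1 - 1) + (r * Real.sin θ) * (p.2.2 - 1)))
    (F' := F') (x₀ := θ) (s := Set.univ) (bound := bound) Filter.univ_mem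
    (Filter.Eventually.of_forall fun θ => (by fun_prop : Continuous fun p : ℝ × ℝ × ℝ =>
      f (p.1 - c + (r * Real.cos θ) * (p.2.1 - 1) + (r * Real.sin θ) * (p.2.2 - 1))).aestronglyMeasurable)
    (by
      have := (bound3int971 hi hl G.g0 E c 1 1 (r * Real.cos θ) (r * Real.sin θ) (cpg_const971 1) (cpg_const971 1)).1
      simpa only [mul_one, one_mul] using this)
    (hF'cont θ).aestronglyMeasurable
    (Filter.Eventually.of_forall fun p θ _ => hF'b p θ) hbint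
    (Filter.Eventually.of_forall fun p θ _ => by
      have h1 : HasDerivAt (fun θ => p.1 - c + (r * Real.cos θ) * (p.2.1 - 1) + (r * Real.sin θ) * (p.2.2 - 1))
          ((-(r * Real.sin θ)) * (p.2.1 - 1) + (r * Real.cos θ) * (p.2.2 - 1)) θ := by
        have h2 := ((Real.hasDerivAt_cos θ).const_mul r).mul_const (p.2.1 - 1)
        have h3 := ((Real.hasDerivAt_sin θ).const_mul r).mul_const (p.2.2 - 1)
        have h4 := (h2.const_add (p.1 - c)).fun_add h3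
        exact h4.congr_deriv (by ring)
      exact (G.d0 _).comp θ h1)
  refine hder.2.congr_deriv ?_
  -- compute the derivative
  obtain ⟨x, hx⟩ : ∃ x, x = r * Real.cos θ := ⟨_, rfl⟩
  obtain ⟨x', hx'⟩ : ∃ x', x' = r * Real.sin θ := ⟨_, rfl⟩
  rw [← hx, ← hx']
  have hI1 := (bound3int971 hi hl G.g1 E c 1 1 x x' cpg_id971 (cpg_const971 1)).1
  have hI2 := (bound3int971 hi hl G.g1 E c 1 1 x x' (cpg_const971 1) cpg_id971).1
  have hI0 := (bound3int971 hi hl G.g1 E c 1 1 x x' (cpg_const971 1) (cpg_const971 1)).1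
  simp only [mul_one, one_mul] at hI0 hI1 hI2
  have h1 := bias1971 hi hl ha hb G.g1 E c x x'
  have h2 := bias2971 hi hl ha hb G.g1 E c x x'
  have h0 := RR_eq971 hi hl ha G.g1 E c 1 1 x x'
  have h3 := RR_ibp1971 hib G.d1 G.g1 G.g2 E c x x'
  have h4 := RR_ibp2971 hib G.d1 G.g1 G.g2 E c x x'
  have h5 : ∫ p, F' θ p ∂((Lw E).prod ((nu 1).prod (nu 1))) =
      ∫ p : ℝ × ℝ × ℝ, ((-x') * (p.2.1 * f1 (p.1 - c + x * (p.2.1 - 1) + x' * (p.2.2 - 1))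
        - f1 (p.1 - c + x * (p.2.1 - 1) + x' * (p.2.2 - 1))) +
        x * (p.2.2 * f1 (p.1 - c + x * (p.2.1 - 1) + x' * (p.2.2 - 1))
        - f1 (p.1 - c + x * (p.2.1 - 1) + x' * (p.2.2 - 1)))) ∂((Lw E).prod ((nu 1).prod (nu 1))) := by
    refine integral_congr_ae (Filter.Eventually.of_forall fun p => ?_)
    simp only [hF', ← hx, ← hx']
    ring
  have hJ1 : Integrable (fun p : ℝ × ℝ × ℝ => (-x') * (p.2.1 * f1 (p.1 - c + x * (p.2.1 - 1) + x' * (p.2.2 - 1))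
        - f1 (p.1 - c + x * (p.2.1 - 1) + x' * (p.2.2 - 1)))) ((Lw E).prod ((nu 1).prod (nu 1))) :=
    (hI1.sub hI0).const_mul _
  have hJ2 : Integrable (fun p : ℝ × ℝ × ℝ => x * (p.2.2 * f1 (p.1 - c + x * (p.2.1 - 1) + x' * (p.2.2 - 1))
        - f1 (p.1 - c + x * (p.2.1 - 1) + x' * (p.2.2 - 1)))) ((Lw E).prod ((nu 1).prod (nu 1))) :=
    (hI2.sub hI0).const_mul _
  rw [h5, integral_add hJ1 hJ2, integral_const_mul,
    integral_const_mul, integral_sub hI1 hI0, integral_sub hI2 hI0, h1, h2, ← h0, h3, h4]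
  ring

end Pool.Agent.R444.GQ
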