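import Pool.Agent.R444.GQ.Final
import Pool.Agent.R444.GQ.MP
import Pool.Agent.R444.GQ.PPr
import Pool.Agent.R444.GQ.NuChar
import Pool.Agent.R444.GQ.Lw
import Pool.Agent.R444.GQ.Rot
import Pool.Agent.R444.GQ.Cont
import Pool.Agent.R444.GQ.Polar
import Pool.Agent.R444.GQ.L1A
import Pool.Agent.R68.GQ.Nu
import Pool.Agent.R68.GQ.FamA
import Pool.Agent.R68.GQ.FamB
import Pool.Agent.R68.GQ.Mix
import Pool.Agent.R262.GQ.Circ
import Pool.Agent.R262.GQ.L1B

open MeasureTheory ProbabilityTheory Real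

namespace Pool.Agent.R444.GQ

theorem final : S_final := by
  have hdens := R68.GQ.nu_dens
  have hint := R68.GQ.nu_int
  have hbias := R68.GQ.nu_bias
  have hibp := R68.GQ.nu_ibp
  have hsq := nu_sq
  have hl := Lw_int hint
  have hadd := Lw_add hint
  have hib := Lw_ibp hint hibp
  have hpol := polar_thm hsq
  have hA := R68.GQ.famA_thm hpol L1A.L1A_thm
  have hB := R68.GQ.famB_thm hpol (R262.GQ.L1B_thm R262.GQ.circ_thm)
  have hmain := main_thm hsq Lw_pi (rot_thm hint hbias Lw_prob hl hadd hib) hib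
    (cont_thm hint Lw_prob hl hadd) (max_thm hint) hbias hadd Lw_zero Lw_nil hint
    (PP_nu hdens hint) (R_thm hdens hint hbias) (Pool.Agent.R444.GQ.MP.M_thm hdens hint) (Pool.Agent.R444.GQ.MP.P_thm hdens hint)
  exact final_thm Lw_pi hl hint hsq hmain hA hB R68.GQ.mix_thm

end Pool.Agent.R444.GQ
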