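import Pool.Agent.R444.GQ.Two

open MeasureTheory ProbabilityTheory Real

namespace Pool.Agent.R444.GQ

/-- additive functionals of the family -/
noncomputable def sm (h : ℝ → ℝ) (E : ℝ →₀ ℕ) : ℝ := E.sum fun v k => (k : ℝ) * h v

lemma sm_add (h : ℝ → ℝ) (E E' : ℝ →₀ ℕ) : sm h (E + E') = sm h E + sm h E' := by
  unfold sm
  rw [Finsupp.sum_add_index']
  · intro v; simp
  · intro v k k'; push_cast; ring

lemma sm_single (h : ℝ → ℝ) (v : ℝ) (k : ℕ) : sm h (Finsupp.single v k) = k * h v := by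
  unfold sm
  rw [Finsupp.sum_single_index]
  simp

lemma sm_zero (h : ℝ → ℝ) : sm h 0 = 0 := by simp [sm]

lemma sm_Ea (h : ℝ → ℝ) {n : ℕ} (a : Fin n → ℝ) : sm h (Ea a) = ∑ i, h (a i) := by
  unfold Ea
  induction (Finset.univ : Finset (Fin n)) using Finset.induction_on with
  | empty => simp [sm_zero]
  | insert i s hi ih => rw [Finset.sum_insert hi, Finset.sum_insert hi, sm_add, ih, sm_single]; simp

lemma Ea_apply {n : ℕ} (a : Fin n → ℝ) (v : ℝ) :
    Ea a v = (Finset.univ.filter (fun i => a i = v)).card := by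
  unfold Ea
  rw [Finsupp.finsetSum_apply, Finset.card_filter]
  refine Finset.sum_congr rfl fun i _ => ?_
  rw [Finsupp.single_apply]

/-- the nonzero part -/
noncomputable def En {n : ℕ} (a : Fin n → ℝ) : ℝ →₀ ℕ := (Ea a).erase 0

lemma En_add {n : ℕ} (a : Fin n → ℝ) : Ea a = En a + Finsupp.single 0 (Ea a 0) :=
  (Finsupp.erase_add_single 0 (Ea a)).symm

lemma Lw_En (hzero : S_Lw_zero) {n : ℕ} (a : Fin n → ℝ) (X : ℝ →₀ ℕ) :
    Lw (Ea a + X) = Lw (En a + X) := by
  rw [En_add a, add_right_comm, hzero]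

lemma sm_En (h : ℝ → ℝ) (h0 : h 0 = 0) {n : ℕ} (a : Fin n → ℝ) : sm h (En a) = ∑ i, h (a i) := by
  rw [← sm_Ea, En_add a, sm_add, sm_single, h0]
  simp

lemma En_ne {n : ℕ} {a : Fin n → ℝ} {v : ℝ} (hv : v ∈ (En a).support) : v ≠ 0 := by
  rintro rfl
  simp [En] at hv

lemma En_apply {n : ℕ} {a : Fin n → ℝ} {v : ℝ} (hv : v ≠ 0) :
    En a v = (Finset.univ.filter (fun i => a i = v)).card := by
  rw [← Ea_apply, En, Finsupp.erase_ne hv]

lemma En_exists {n : ℕ} {a : Fin n → ℝ} {v : ℝ} (hv : v ∈ (En a).support) : ∃ i, a i = v := by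
  have h0 := En_ne hv
  rw [Finsupp.mem_support_iff, En_apply h0] at hv
  obtain ⟨i, hi⟩ := Finset.card_pos.1 (Nat.pos_of_ne_zero hv)
  exact ⟨i, by simpa using hi⟩

lemma En_exists2 {n : ℕ} {a : Fin n → ℝ} {v : ℝ} (hv : v ≠ 0) (h2 : 2 ≤ En a v) :
    ∃ i j, i ≠ j ∧ a i = v ∧ a j = v := by
  rw [En_apply hv] at h2
  obtain ⟨i, hi, j, hj, hij⟩ := Finset.one_lt_card.1 h2
  exact ⟨i, j, hij, by simpa using hi, by simpa using hj⟩

/-- integral over the nonzero part -/
noncomputable def VV {n : ℕ} (a : Fin n → ℝ) (φ : ℝ → ℝ) (X : ℝ →₀ ℕ) : ℝ :=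
  ∫ s, φ (s - ∑ k, a k) ∂(Lw (En a + X))

lemma VV_eq (hzero : S_Lw_zero) {n : ℕ} (a : Fin n → ℝ) (φ : ℝ → ℝ) (X : ℝ →₀ ℕ) :
    ∫ s, φ (s - ∑ k, a k) ∂(Lw (Ea a + X)) = VV a φ X := by
  rw [VV, Lw_En hzero]

lemma VV_ibp (hib : S_Lw_ibp) {ψ w : ℝ → ℝ} (hd : ∀ s, HasDerivAt ψ (w s) s) (h2 : CPG ψ)
    (h3 : CPG w) {n : ℕ} (a : Fin n → ℝ) (X : ℝ →₀ ℕ) (v : ℝ) :
    VV a ψ (X + Finsupp.single v 2) = VV a ψ X + 2 * v * VV a w (X + Finsupp.single v 2) := by
  have h := hib (En a + X) v ψ w hd h2 h3 (-∑ k, a k)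
  unfold VV
  rw [← add_assoc]
  have q : ∀ (g : ℝ → ℝ) (μ : Measure ℝ), ∫ s, g (s - ∑ k, a k) ∂μ =
      ∫ s, g (-(∑ k, a k) + s) ∂μ := fun g μ => by
    congr 1; ext s; congr 1; ring
  rw [q, q, q]
  exact h

lemma U_all (hib : S_Lw_ibp) {ψ w : ℝ → ℝ} (hd : ∀ s, HasDerivAt ψ (w s) s) (h2 : CPG ψ)
    (h3 : CPG w) {n : ℕ} (a : Fin n → ℝ) (μ : ℝ)
    (h1 : ∀ v ∈ (En a).support, VV a ψ (Finsupp.single v 2) = μ) :
    ∀ k : ℕ, ∀ J : Finset ℝ, J ⊆ (En a).support → J.card = k + 1 →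
      VV a ψ (∑ v ∈ J, Finsupp.single v 2) = μ ∧
      (1 ≤ k → VV a w (∑ v ∈ J, Finsupp.single v 2) = 0) := by
  intro k
  induction k with
  | zero =>
    intro J hJ hc
    obtain ⟨v, rfl⟩ := Finset.card_eq_one.1 hc
    refine ⟨?_, fun h => by omega⟩
    rw [Finset.sum_singleton]
    exact h1 v (hJ (Finset.mem_singleton_self v))
  | succ k ih =>
    intro J hJ hc
    obtain ⟨i, hi, j, hj, hij⟩ := Finset.one_lt_card.1 (by omega : 1 < J.card)
    have hci : (J.erase i).card = k + 1 := by rw [Finset.card_erase_of_mem hi]; omega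
    have hcj : (J.erase j).card = k + 1 := by rw [Finset.card_erase_of_mem hj]; omega
    have hUi := (ih (J.erase i) ((Finset.erase_subset _ _).trans hJ) hci).1
    have hUj := (ih (J.erase j) ((Finset.erase_subset _ _).trans hJ) hcj).1
    have si : ∑ v ∈ J.erase i, Finsupp.single v 2 + Finsupp.single i 2 =
        ∑ v ∈ J, Finsupp.single v 2 := Finset.sum_erase_add _ _ hi
    have sj : ∑ v ∈ J.erase j, Finsupp.single v 2 + Finsupp.single j 2 =
        ∑ v ∈ J, Finsupp.single v 2 := Finset.sum_erase_add _ _ hj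
    have bi := VV_ibp hib hd h2 h3 a (∑ v ∈ J.erase i, Finsupp.single v 2) i
    have bj := VV_ibp hib hd h2 h3 a (∑ v ∈ J.erase j, Finsupp.single v 2) j
    rw [si, hUi] at bi
    rw [sj, hUj] at bj
    have h0 : (i - j) * VV a w (∑ v ∈ J, Finsupp.single v 2) = 0 := by linarith
    have hW : VV a w (∑ v ∈ J, Finsupp.single v 2) = 0 :=
      (mul_eq_zero.1 h0).resolve_left (sub_ne_zero.2 hij)
    refine ⟨?_, fun _ => hW⟩
    rw [bi, hW]; ring

lemma OddPos.pp {w : ℝ → ℝ} (hw : OddPos w) (c : ℝ) : PP (fun s => w (s - c)) := by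
  intro z1 z2 h12 h1
  have h3 : 0 ≤ z1 - c := by
    by_contra h
    push Not at h
    have := hw.pos (-(z1 - c)) (by linarith)
    rw [hw.odd] at this
    simp only at h1
    linarith
  exact hw.pos _ (by linarith)

lemma gather (hint : S_nu_int) (hadd : S_Lw_add) (hPP : S_PP_nu) (e : ℝ → ℕ) (F : Finset ℝ) :
    ∀ φ : ℝ → ℝ, CPG φ → ∃ Φ : ℝ → ℝ, CPG Φ ∧
      (PP φ → (∀ v ∈ F, v ≠ 0 ∧ 2 ≤ e v) → PP Φ) ∧
      ∀ E : ℝ →₀ ℕ, ∫ s, φ s ∂(Lw (E + ∑ v ∈ F, Finsupp.single v (e v))) = ∫ s, Φ s ∂(Lw E) := by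
  induction F using Finset.induction_on with
  | empty => intro φ hφ; exact ⟨φ, hφ, fun h _ => h, fun E => by simp⟩
  | insert v F hv ih =>
    intro φ hφ
    obtain ⟨Φ, h1, h2, h3⟩ := ih (fun z => ∫ y, φ (z + v * y) ∂(nu (e v))) (hφ.int hint v (e v))
    refine ⟨Φ, h1, ?_, ?_⟩
    · intro hp hF
      refine h2 ?_ fun u hu => hF u (Finset.mem_insert_of_mem hu)
      have := hF v (Finset.mem_insert_self v F)
      exact hPP φ hφ hp v this.1 (e v) this.2
    · intro E
      rw [← h3 E, Finset.sum_insert hv, add_comm (Finsupp.single v (e v)), ← add_assoc,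
        hadd _ _ _ _ hφ]

/-- at least three distinct nonzero values is impossible -/
lemma not_three (hint : S_nu_int) (hadd : S_Lw_add) (hnil : S_Lw_nil) (hPP : S_PP_nu) (hR : S_R)
    {w : ℝ → ℝ} (hw : OddPos w) {n : ℕ} (a : Fin n → ℝ)
    (hW : ∀ J : Finset ℝ, J ⊆ (En a).support → 2 ≤ J.card →
      VV a w (∑ v ∈ J, Finsupp.single v 2) = 0) (h3 : 3 ≤ (En a).support.card) : False := by
  obtain ⟨l, hl⟩ := Finset.card_pos.1 (by omega : 0 < (En a).support.card)
  have hw' : CPG (fun s => w (s - ∑ k, a k)) := hw.cpg.sub_const _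
  set D := (En a).support with hD
  have hsum : En a = ∑ v ∈ D.erase l, Finsupp.single v (En a v) + Finsupp.single l (En a l) := by
    rw [Finset.sum_erase_add _ _ hl]
    exact (Finsupp.sum_single (En a)).symm
  obtain ⟨Φ, c1, c2, c3⟩ := gather hint hadd hPP (fun v => En a v + 2) (D.erase l) _ hw'
  have hpp : PP Φ := c2 (hw.pp _) fun v hv => ⟨En_ne (Finset.mem_of_mem_erase hv), by omega⟩
  have hsum2 : ∑ v ∈ D.erase l, Finsupp.single v (En a v + 2) =
      ∑ v ∈ D.erase l, Finsupp.single v (En a v) + ∑ v ∈ D.erase l, Finsupp.single v 2 := by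
    rw [← Finset.sum_add_distrib]
    exact Finset.sum_congr rfl fun v _ => Finsupp.single_add _ _ _
  have e1 : En a + ∑ v ∈ D.erase l, Finsupp.single v 2 =
      Finsupp.single l (En a l) + ∑ v ∈ D.erase l, Finsupp.single v (En a v + 2) := by
    rw [hsum2]
    conv_lhs => rw [hsum]
    abel
  have e2 : En a + ∑ v ∈ D, Finsupp.single v 2 =
      Finsupp.single l (En a l + 2) + ∑ v ∈ D.erase l, Finsupp.single v (En a v + 2) := by
    rw [hsum2, ← Finset.sum_erase_add _ _ hl, Finsupp.single_add]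
    conv_lhs => rw [hsum]
    abel
  have W1 := hW (D.erase l) (Finset.erase_subset _ _) (by
    rw [Finset.card_erase_of_mem hl]; omega)
  have W2 := hW D (le_refl _) (by omega)
  unfold VV at W1 W2
  rw [e1, c3, Lw_single hadd hnil c1] at W1
  rw [e2, c3, Lw_single hadd hnil c1] at W2
  have hm : 1 ≤ En a l := Nat.one_le_iff_ne_zero.2 (Finsupp.mem_support_iff.1 hl)
  have := hR Φ c1 hpp l (En_ne hl) (En a l) hm 0 (by simpa using W1)
  simp only [zero_add] at this
  rw [W2] at this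
  simp at this

/-- two values of opposite signs, one of multiplicity at least two -/
lemma not_two_ge (hint : S_nu_int) (hadd : S_Lw_add) (hnil : S_Lw_nil) (hPP : S_PP_nu) (hR : S_R)
    (hib : S_Lw_ibp) {w w1 : ℝ → ℝ} (hw : OddPos w) (hd : ∀ s, HasDerivAt w (w1 s) s)
    (h1 : CPG w1) {n : ℕ} (a : Fin n → ℝ) {v v' : ℝ} (hvv : v ≠ v')
    (hs : (En a).support = {v, v'}) (hneg : v * v' < 0)
    (hW : VV a w (Finsupp.single v 2 + Finsupp.single v' 2) = 0)
    (hO2 : v * VV a w (Finsupp.single v 4) ≤ 0) : False := by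
  have hv0 : v ≠ 0 := by rintro rfl; simp at hneg
  have hv0' : v' ≠ 0 := by rintro rfl; simp at hneg
  have i1 := VV_ibp hib hd hw.cpg h1 a (Finsupp.single v 2 + Finsupp.single v' 2) v
  have i2 := VV_ibp hib hd hw.cpg h1 a (Finsupp.single v 4) v'
  have e1 : Finsupp.single v 2 + Finsupp.single v' 2 + Finsupp.single v 2 =
      (Finsupp.single v 4 + Finsupp.single v' 2 : ℝ →₀ ℕ) := by
    rw [show (4 : ℕ) = 2 + 2 from rfl, Finsupp.single_add]; abel
  rw [e1, hW] at i1
  -- v * H(v4) = (v - v') * H(v4,v'2)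
  have key : v * VV a w (Finsupp.single v 4) =
      (v - v') * VV a w (Finsupp.single v 4 + Finsupp.single v' 2) := by
    linear_combination (-v) * i2 + v' * i1
  have hE : En a = Finsupp.single v (En a v) + Finsupp.single v' (En a v') := by
    have := (Finsupp.sum_single (En a)).symm
    rw [Finsupp.sum, hs, Finset.sum_pair hvv] at this
    exact this
  -- R
  have hw' : CPG (fun s => w (s - ∑ k, a k)) := hw.cpg.sub_const _
  obtain ⟨Φ, c1, c2, c3⟩ := gather hint hadd hPP (fun v => En a v + 2) {v'} _ hw'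
  have hpp : PP Φ := c2 (hw.pp _) fun u hu => by
    rw [Finset.mem_singleton] at hu; rw [hu]; exact ⟨hv0', by omega⟩
  have f1 : En a + (Finsupp.single v 2 + Finsupp.single v' 2) =
      Finsupp.single v (En a v + 2) + ∑ u ∈ {v'}, Finsupp.single u (En a u + 2) := by
    rw [Finset.sum_singleton, Finsupp.single_add, Finsupp.single_add]
    conv_lhs => rw [hE]
    abel
  have f2 : En a + (Finsupp.single v 4 + Finsupp.single v' 2) =
      Finsupp.single v (En a v + 2 + 2) + ∑ u ∈ {v'}, Finsupp.single u (En a u + 2) := by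
    rw [Finset.sum_singleton, Finsupp.single_add, Finsupp.single_add, Finsupp.single_add,
      show (4 : ℕ) = 2 + 2 from rfl, Finsupp.single_add]
    conv_lhs => rw [hE]
    abel
  have g1 : ∫ y, Φ (0 + v * y) ∂(nu (En a v + 2)) = 0 := by
    have := hW
    unfold VV at this
    rw [f1, c3, Lw_single hadd hnil c1] at this
    simpa using this
  have g2 := hR Φ c1 hpp v hv0 (En a v + 2) (by omega) 0 g1
  have g3 : VV a w (Finsupp.single v 4 + Finsupp.single v' 2) =
      ∫ y, Φ (0 + v * y) ∂(nu (En a v + 2 + 2)) := by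
    unfold VV
    rw [f2, c3, Lw_single hadd hnil c1]
    simp
  rw [← g3] at g2
  rw [key] at hO2
  set T := VV a w (Finsupp.single v 4 + Finsupp.single v' 2)
  rcases lt_or_gt_of_ne hv0 with h | h
  · have hT : T < 0 := by
      by_contra hc; push Not at hc; nlinarith
    have hv' : 0 < v' := by
      by_contra hc; push Not at hc; nlinarith
    nlinarith
  · have hT : 0 < T := by
      by_contra hc; push Not at hc; nlinarith
    have hv' : v' < 0 := by
      by_contra hc; push Not at hc; nlinarith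
    nlinarith

lemma neg_int {w : ℝ → ℝ} (hw : OddPos w) (μ : Measure ℝ) (g : ℝ → ℝ) :
    ∫ y, w (-(g y)) ∂μ = - ∫ y, w (g y) ∂μ := by
  rw [← integral_neg]; congr 1; ext y; rw [hw.odd]

/-- two values of the same sign -/
lemma not_two_same (hint : S_nu_int) (hadd : S_Lw_add) (hnil : S_Lw_nil) (hP : S_P)
    {w : ℝ → ℝ} (hw : OddPos w) {n : ℕ} (a : Fin n → ℝ) {v v' : ℝ} (hvv : v ≠ v')
    (hs : (En a).support = {v, v'}) (hpos : 0 < v * v')
    (hW : VV a w (Finsupp.single v 2 + Finsupp.single v' 2) = 0) : False := by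
  have hE : En a = Finsupp.single v (En a v) + Finsupp.single v' (En a v') := by
    have := (Finsupp.sum_single (En a)).symm
    rw [Finsupp.sum, hs, Finset.sum_pair hvv] at this
    exact this
  have hc : ∑ k, a k = En a v * v + En a v' * v' := by
    have h := sm_En (fun x => x) rfl a
    rw [← h, hE, sm_add, sm_single, sm_single, ← hE]
  have f1 : En a + (Finsupp.single v 2 + Finsupp.single v' 2) =
      Finsupp.single v (En a v + 2) + Finsupp.single v' (En a v' + 2) := by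
    rw [Finsupp.single_add, Finsupp.single_add]
    conv_lhs => rw [hE]
    abel
  have m1 : 1 ≤ En a v := Nat.one_le_iff_ne_zero.2 (Finsupp.mem_support_iff.1 (by rw [hs]; simp))
  have m2 : 1 ≤ En a v' := Nat.one_le_iff_ne_zero.2 (Finsupp.mem_support_iff.1 (by rw [hs]; simp))
  unfold VV at hW
  rw [f1, Lw_two hint hadd hnil (hw.cpg.sub_const _), hc] at hW
  rcases lt_or_ge 0 v with h | h
  · have h' : 0 < v' := by
      by_contra hcc; push Not at hcc; nlinarith
    have := hP w hw (En a v) (En a v') m1 m2 v v' h h'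
    rw [← hW] at this
    refine lt_irrefl _ (lt_of_lt_of_eq this ?_)
    congr 1; ext y; congr 1; ext y'; congr 1; ring
  · have h0 : v < 0 := lt_of_le_of_ne h (by rintro rfl; simp at hpos)
    have h' : v' < 0 := by
      by_contra hcc; push Not at hcc; nlinarith
    have := hP w hw (En a v) (En a v') m1 m2 (-v) (-v') (by linarith) (by linarith)
    have e : ∫ y1, ∫ y2, w (-v * (y1 - En a v) + -v' * (y2 - En a v')) ∂(nu (En a v' + 2))
        ∂(nu (En a v + 2)) = - ∫ y1, ∫ y2, w (v * y1 + v' * y2 - (En a v * v + En a v' * v'))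
        ∂(nu (En a v' + 2)) ∂(nu (En a v + 2)) := by
      rw [← integral_neg]
      congr 1; ext y1
      rw [← neg_int hw]
      congr 1; ext y2; congr 1; ring
    rw [e, hW] at this
    simp at this

/-- one value of multiplicity at least two -/
lemma not_one_ge (hadd : S_Lw_add) (hnil : S_Lw_nil) (hM : S_M)
    {w : ℝ → ℝ} (hw : OddPos w) {n : ℕ} (a : Fin n → ℝ) {v : ℝ} (hv : v ≠ 0)
    (hE : En a = Finsupp.single v (En a v)) 
    (hO2 : v * VV a w (Finsupp.single v 4) ≤ 0) : False := by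
  have hc : ∑ k, a k = En a v * v := by
    have h := sm_En (fun x => x) rfl a
    rw [← h, hE, sm_single, ← hE]
  have f1 : En a + Finsupp.single v 4 = Finsupp.single v (En a v + 4) := by
    rw [Finsupp.single_add, ← hE]
  unfold VV at hO2
  rw [f1, Lw_single hadd hnil (hw.cpg.sub_const _), hc] at hO2
  rcases lt_or_gt_of_ne hv with h | h
  · have := hM w hw (En a v + 4) (by omega) (-v) (-(2 * v)) (by linarith) (by linarith)
    have e : ∫ y, w (-v * (y - (((En a v + 4 : ℕ) : ℝ) - 2)) + -(2 * v)) ∂(nu (En a v + 4)) =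
        - ∫ y, w (v * y - En a v * v) ∂(nu (En a v + 4)) := by
      rw [← neg_int hw]
      congr 1; ext y; congr 1; push_cast; ring
    rw [e] at this
    nlinarith
  · have := hM w hw (En a v + 4) (by omega) v (2 * v) h (by linarith)
    have e : ∫ y, w (v * (y - (((En a v + 4 : ℕ) : ℝ) - 2)) + 2 * v) ∂(nu (En a v + 4)) =
        ∫ y, w (v * y - En a v * v) ∂(nu (En a v + 4)) := by
      congr 1; ext y; congr 1; push_cast; ring
    rw [e] at this
    nlinarith

end Pool.Agent.R444.GQ
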