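import Pool.Agent.R444.GQ.Main

open MeasureTheory ProbabilityTheory Real

namespace Pool.Agent.R444.GQ

lemma cpg_abs_rpow {p : ℝ} (hp : 0 ≤ p) : CPG (fun s => |s| ^ p) := by
  refine ⟨?_, 1, ⌈p⌉₊, fun s => ?_⟩
  · exact continuous_abs.rpow_const fun x => Or.inr hp
  · rw [abs_of_nonneg (by positivity), one_mul]
    have h1 : |s| ≤ 1 + s ^ 2 := by
      rw [abs_le]; constructor <;> nlinarith [sq_nonneg (s - 1), sq_nonneg (s + 1), sq_nonneg s]
    have h2 : (1 : ℝ) ≤ 1 + s ^ 2 := by nlinarith [sq_nonneg s]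
    calc |s| ^ p ≤ (1 + s ^ 2) ^ p := Real.rpow_le_rpow (abs_nonneg s) h1 hp
      _ ≤ (1 + s ^ 2) ^ ((⌈p⌉₊ : ℕ) : ℝ) := Real.rpow_le_rpow_of_exponent_le h2 (Nat.le_ceil p)
      _ = _ := Real.rpow_natCast _ _

/-- the sum -/
noncomputable def SS {n : ℕ} (a : Fin n → ℝ) (x : Fin n → ℝ) : ℝ := ∑ i, a i * (x i ^ 2 - 1)

lemma SS_cont {n : ℕ} (a : Fin n → ℝ) : Continuous (SS a) := by unfold SS; fun_prop

lemma SS_smul {n : ℕ} (a : Fin n → ℝ) (x : Fin n → ℝ) (t : ℝ) :
    SS (fun i => t * a i) x = t * SS a x := by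
  unfold SS
  rw [Finset.mul_sum]
  exact Finset.sum_congr rfl fun i _ => by ring

/-- the standard Gaussian measure on `Fin n → ℝ` -/
noncomputable abbrev G (n : ℕ) : Measure (Fin n → ℝ) := Measure.pi (fun _ : Fin n => gaussianReal 0 1)

lemma int_gauss (hint : S_nu_int) (hsq : S_nu_sq) {φ : ℝ → ℝ} (hφ : CPG φ) (v : ℝ) :
    Integrable (fun x => φ (v * (x ^ 2 - 1))) (gaussianReal 0 1) := by
  have h1 : CPG (fun y => φ (-v + v * y)) := hφ.affine (-v) v
  have h2 := hint 1 _ h1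
  rw [← hsq] at h2
  have h3 := h2.comp_measurable (by fun_prop : Measurable fun x : ℝ => x ^ 2)
  refine h3.congr (Filter.Eventually.of_forall fun x => ?_)
  simp only [Function.comp]
  congr 1; ring

lemma int_SS (hpi : S_Lw_pi) (hl : S_Lw_int) (hsq : S_nu_sq) {φ : ℝ → ℝ} (hφ : CPG φ) {n : ℕ}
    (a : Fin n → ℝ) : Integrable (fun x => φ (SS a x)) (G n) := by
  have h2 := hl (Ea a) _ (hφ.sub_const (∑ i, a i))
  rw [Ea, ← hpi n a] at h2
  have h3 := h2.comp_measurable (by fun_prop : Measurable fun (y : Fin n → ℝ) => ∑ i, a i * y i)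
  rw [← hsq] at h3
  rw [← Measure.pi_map_pi
    (fun i => (by fun_prop : Measurable fun x : ℝ => x ^ 2).aemeasurable)] at h3
  have h4 := h3.comp_measurable
    (by fun_prop : Measurable fun (x : Fin n → ℝ) (i : Fin n) => x i ^ 2)
  refine h4.congr (Filter.Eventually.of_forall fun x => ?_)
  simp only [Function.comp, SS]
  congr 1
  rw [← Finset.sum_sub_distrib]
  exact Finset.sum_congr rfl fun i _ => by ring

lemma upperA (hmain : S_main) (hA : S_famA) {p : ℝ} (hp : 4 ≤ p) {n : ℕ} (a : Fin n → ℝ)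
    (ha : ∑ i, a i ^ 2 = 1) :
    ∫ x, |SS a x| ^ p ∂(G n) ≤ ∫ x, |x ^ 2 - 1| ^ p ∂(gaussianReal 0 1) := by
  have h := hmain _ _ _ _ _ (hA p hp) n a
  rw [ha, Real.sqrt_one] at h
  simp only [one_mul] at h
  rw [integral_div, integral_div] at h
  have hp2 : 0 < p * (p - 1) := by nlinarith
  exact (div_le_div_iff_of_pos_right hp2).1 h

lemma upperB (hpi : S_Lw_pi) (hl : S_Lw_int) (hint : S_nu_int) (hsq : S_nu_sq) (hmain : S_main) (hB : S_famB) (hmix : S_mix)
    {p : ℝ} (hp : 2 < p) (hp4 : p < 4) {n : ℕ} (a : Fin n → ℝ) (ha : ∑ i, a i ^ 2 = 1) :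
    ∫ x, |SS a x| ^ p ∂(G n) ≤ ∫ x, |x ^ 2 - 1| ^ p ∂(gaussianReal 0 1) := by
  obtain ⟨C, hC, hnn, hmx⟩ := hmix p hp hp4
  have hc : Continuous fB := hB.g0.1
  -- key in lintegral form
  have key : ∀ {X : Type} [MeasurableSpace X] (μ : Measure X) [SFinite μ] (S : X → ℝ),
      Measurable S → ∫⁻ x, ENNReal.ofReal (C * |S x| ^ p) ∂μ =
        ∫⁻ t in Set.Ioi (0 : ℝ), (∫⁻ x, ENNReal.ofReal (fB (t * S x)) ∂μ) *
          ENNReal.ofReal (t ^ (-p - 1)) := by
    intro X _ μ _ S hS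
    have e1 : ∀ x, ENNReal.ofReal (C * |S x| ^ p) =
        ∫⁻ t in Set.Ioi (0 : ℝ), ENNReal.ofReal (fB (t * S x) * t ^ (-p - 1)) := fun x =>
      (hmx (S x)).symm
    simp_rw [e1]
    rw [lintegral_lintegral_swap]
    · refine lintegral_congr fun t => ?_
      rw [← lintegral_mul_const]
      · refine lintegral_congr fun x => ?_
        rw [ENNReal.ofReal_mul (hnn _)]
      · have := hc.measurable
        fun_prop
    · have := hc.measurable
      apply Measurable.aemeasurable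
      unfold Function.uncurry
      fun_prop
  have hle : ∫⁻ x, ENNReal.ofReal (C * |SS a x| ^ p) ∂(G n) ≤
      ∫⁻ x, ENNReal.ofReal (C * |x ^ 2 - 1| ^ p) ∂(gaussianReal 0 1) := by
    rw [key (G n) (SS a) (SS_cont a).measurable,
      key (gaussianReal 0 1) (fun x => x ^ 2 - 1) (by fun_prop)]
    refine setLIntegral_mono' measurableSet_Ioi fun t ht => ?_
    have ht' : 0 < t := ht
    refine mul_le_mul_left ?_ _
    have h := hmain _ _ _ _ _ hB n (fun i => t * a i)
    have hs : Real.sqrt (∑ i, (t * a i) ^ 2) = t := by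
      have : ∑ i, (t * a i) ^ 2 = t ^ 2 := by
        simp_rw [mul_pow]
        rw [← Finset.mul_sum, ha, mul_one]
      rw [this, Real.sqrt_sq ht'.le]
    rw [hs] at h
    have hL : ∀ x, ∑ i, t * a i * (x i ^ 2 - 1) = t * SS a x := fun x => SS_smul a x t
    simp_rw [hL] at h
    have hIR := int_gauss hint hsq hB.g0 t
    have hIL : Integrable (fun x => fB (t * SS a x)) (G n) := by
      have := int_SS hpi hl hsq hB.g0 (fun i => t * a i)
      simpa only [SS_smul] using this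
    rw [← ofReal_integral_eq_lintegral_ofReal hIL (Filter.Eventually.of_forall fun x => hnn _),
      ← ofReal_integral_eq_lintegral_ofReal hIR (Filter.Eventually.of_forall fun x => hnn _)]
    exact ENNReal.ofReal_le_ofReal h
  -- back to Bochner integrals
  have iL : Integrable (fun x => C * |SS a x| ^ p) (G n) :=
    (int_SS hpi hl hsq (cpg_abs_rpow (by linarith : 0 ≤ p)) a).const_mul C
  have iR : Integrable (fun x => C * |x ^ 2 - 1| ^ p) (gaussianReal 0 1) := by
    have := int_gauss hint hsq (cpg_abs_rpow (by linarith : 0 ≤ p)) 1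
    simp only [one_mul] at this
    exact this.const_mul C
  rw [← ofReal_integral_eq_lintegral_ofReal iL (Filter.Eventually.of_forall fun x => by positivity),
    ← ofReal_integral_eq_lintegral_ofReal iR (Filter.Eventually.of_forall fun x => by positivity)]
    at hle
  have h0 : 0 ≤ ∫ x, C * |x ^ 2 - 1| ^ p ∂(gaussianReal 0 1) :=
    integral_nonneg fun x => by positivity
  have h1 := (ENNReal.ofReal_le_ofReal_iff h0).1 hle
  rw [integral_const_mul, integral_const_mul] at h1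
  exact le_of_mul_le_mul_left h1 hC

theorem final_thm (hpi : S_Lw_pi) (hl : S_Lw_int) (hint : S_nu_int) (hsq : S_nu_sq) (hmain : S_main) (hA : S_famA) (hB : S_famB)
    (hmix : S_mix) : S_final := by
  intro n hn p hp
  have hup : ∀ a : Fin n → ℝ, ∑ i, a i ^ 2 = 1 →
      ∫ x, |SS a x| ^ p ∂(G n) ≤ ∫ x, |x ^ 2 - 1| ^ p ∂(gaussianReal 0 1) := by
    intro a ha
    rcases lt_or_ge p 4 with h | h
    · exact upperB hpi hl hint hsq hmain hB hmix hp h a ha
    · exact upperA hmain hA h a ha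
  constructor
  · refine ⟨fun i => if i = (⟨0, hn⟩ : Fin n) then 1 else 0, ?_, ?_⟩
    · simp [ite_pow]
    · have : ∀ x : Fin n → ℝ, ∑ i, (if i = (⟨0, hn⟩ : Fin n) then (1 : ℝ) else 0) * (x i ^ 2 - 1) =
          x ⟨0, hn⟩ ^ 2 - 1 := by
        intro x; simp [ite_mul]
      simp_rw [this]
      have h := (measurePreserving_eval (fun _ : Fin n => gaussianReal 0 1) ⟨0, hn⟩)
      conv_lhs => rw [← h.map_eq]
      rw [integral_map h.measurable.aemeasurable]
      · exact ((by fun_prop : Continuous fun x : ℝ => |x ^ 2 - 1|).rpow_const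
          fun x => Or.inr (by linarith)).aestronglyMeasurable
  · rintro m ⟨a, ha, rfl⟩
    exact hup a ha

end Pool.Agent.R444.GQ
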