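import Pool.Agent.R444.GQ.Comb

open MeasureTheory ProbabilityTheory Real

namespace Pool.Agent.R444.GQ

lemma FF_neg (hpi : S_Lw_pi) {f : ℝ → ℝ} (he : ∀ s, f (-s) = f s) {n : ℕ} (a : Fin n → ℝ) :
    FF f (-a) = FF f a := by
  unfold FF
  congr 1
  ext y
  rw [← he]
  congr 1
  rw [← Finset.sum_neg_distrib]
  refine Finset.sum_congr rfl fun i _ => by simp

lemma Mx_neg (hpi : S_Lw_pi) {f : ℝ → ℝ} (he : ∀ s, f (-s) = f s) {n : ℕ} {a : Fin n → ℝ}
    (hM : Mx f a) : Mx f (-a) := by
  intro b hb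
  rw [FF_neg hpi he]
  exact hM b (by simpa using hb)

/-- a maximizer has at most one nonzero coordinate -/
lemma mx_support (hpi : S_Lw_pi) (hrot : S_rot) (hib : S_Lw_ibp) (hcont : S_cont)
    (hbias : S_nu_bias) (hadd : S_Lw_add) (hzero : S_Lw_zero) (hnil : S_Lw_nil) (hint : S_nu_int)
    (hPP : S_PP_nu) (hR : S_R) (hM' : S_M) (hP : S_P)
    {f f1 ψ w w1 : ℝ → ℝ} (hG : Good f f1 ψ w w1) {n : ℕ}
    {a : Fin n → ℝ} (hM : Mx f a) : En a = 0 ∨ ∃ v, En a = Finsupp.single v 1 := by
  -- first order conditions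
  have h1 : ∀ u v, u ∈ (En a).support → v ∈ (En a).support →
      VV a ψ (Finsupp.single u 2) = VV a ψ (Finsupp.single v 2) := by
    intro u v hu hv
    rcases eq_or_ne u v with rfl | huv
    · rfl
    obtain ⟨i, rfl⟩ := En_exists hu
    obtain ⟨j, rfl⟩ := En_exists hv
    have hij : i ≠ j := by rintro rfl; exact huv rfl
    have := O1 hpi hrot hG hM hij (En_ne hu) (En_ne hv)
    rwa [VV_eq hzero, VV_eq hzero] at this
  -- second order conditions
  have h2 : ∀ v ∈ (En a).support, 2 ≤ En a v → v * VV a w (Finsupp.single v 4) ≤ 0 := by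
    intro v hv hm
    obtain ⟨i, j, hij, hi, hj⟩ := En_exists2 (En_ne hv) hm
    have := O2 hpi hrot hib hcont hG hM hij (En_ne hv) hi hj
    rwa [VV_eq hzero] at this
  -- all mixed terms vanish
  have hW : ∀ J : Finset ℝ, J ⊆ (En a).support → 2 ≤ J.card →
      VV a w (∑ v ∈ J, Finsupp.single v 2) = 0 := by
    intro J hJ hc
    obtain ⟨u, hu⟩ := Finset.card_pos.1 (by omega : 0 < J.card)
    have := U_all hib hG.d2 hG.g2 hG.g3.cpg a (VV a ψ (Finsupp.single u 2))
      (fun v hv => h1 v u hv (hJ hu)) (J.card - 1) J hJ (by omega)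
    exact this.2 (by omega)
  rcases Nat.lt_or_ge (En a).support.card 3 with h3 | h3
  swap
  · exact (not_three hint hadd hnil hPP hR hG.g3 a hW h3).elim
  interval_cases hcard : (En a).support.card
  · left
    exact Finsupp.support_eq_empty.1 (Finset.card_eq_zero.1 hcard)
  · right
    obtain ⟨v, hv⟩ := Finset.card_eq_one.1 hcard
    have hv' : v ∈ (En a).support := by rw [hv]; simp
    have hE : En a = Finsupp.single v (En a v) := by
      have := (Finsupp.sum_single (En a)).symm
      rw [Finsupp.sum, hv, Finset.sum_singleton] at this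
      exact this
    have m1 : 1 ≤ En a v := Nat.one_le_iff_ne_zero.2 (Finsupp.mem_support_iff.1 hv')
    rcases Nat.lt_or_ge (En a v) 2 with hm | hm
    · refine ⟨v, ?_⟩
      rw [hE]
      congr 1
      omega
    · exact (not_one_ge hadd hnil hM' hG.g3 a (En_ne hv') hE (h2 v hv' hm)).elim
  · exfalso
    obtain ⟨v, v', hvv, hs⟩ := Finset.card_eq_two.1 hcard
    have hv : v ∈ (En a).support := by rw [hs]; simp
    have hv' : v' ∈ (En a).support := by rw [hs]; simp
    have hWD : VV a w (Finsupp.single v 2 + Finsupp.single v' 2) = 0 := by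
      have := hW {v, v'} (by rw [hs]) (by rw [Finset.card_pair hvv])
      rwa [Finset.sum_pair hvv] at this
    have hWD' : VV a w (Finsupp.single v' 2 + Finsupp.single v 2) = 0 := by
      rwa [add_comm]
    have n1 := En_ne hv
    have n2 := En_ne hv'
    rcases lt_or_gt_of_ne (mul_ne_zero n1 n2) with hneg | hpos
    swap
    · exact not_two_same hint hadd hnil hP hG.g3 a hvv hs hpos hWD
    rcases Nat.lt_or_ge (En a v) 2 with hm | hm
    swap
    · exact not_two_ge hint hadd hnil hPP hR hib hG.g3 hG.d3 hG.g4 a hvv hs hneg hWD (h2 v hv hm)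
    rcases Nat.lt_or_ge (En a v') 2 with hm' | hm'
    swap
    · exact not_two_ge hint hadd hnil hPP hR hib hG.g3 hG.d3 hG.g4 a hvv.symm
        (by rw [hs, Finset.pair_comm]) (by rwa [mul_comm]) hWD' (h2 v' hv' hm')
    -- multiplicities one
    obtain ⟨i, hi⟩ := En_exists hv
    obtain ⟨j, hj⟩ := En_exists hv'
    have hij : i ≠ j := by rintro rfl; exact hvv (hi.symm.trans hj)
    have hk : ∀ k, k ≠ i → k ≠ j → a k = 0 := by
      intro k hki hkj
      by_contra hk0
      have hmem : a k ∈ (En a).support := by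
        rw [Finsupp.mem_support_iff, En_apply hk0]
        exact (Finset.card_pos.2 ⟨k, by simp⟩).ne'
      rw [hs, Finset.mem_insert, Finset.mem_singleton] at hmem
      rcases hmem with h | h
      · have : 2 ≤ En a v := by
          rw [En_apply n1]
          exact Finset.one_lt_card.2 ⟨k, by simp [h], i, by simp [hi], hki⟩
        omega
      · have : 2 ≤ En a v' := by
          rw [En_apply n2]
          exact Finset.one_lt_card.2 ⟨k, by simp [h], j, by simp [hj], hkj⟩
        omega
    have o3 := fun {b : Fin n → ℝ} (hb : Mx f b) {i j : Fin n} (hij : i ≠ j) {α β : ℝ}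
      (h1 : 0 < β) (h2 : β ≤ α) (h3 : b i = α) (h4 : b j = -β)
      (h5 : ∀ k, k ≠ i → k ≠ j → b k = 0) =>
        O3 hpi hrot hbias hadd hzero hnil hint hG hb hij h1 h2 h3 h4 h5
    have hMn := Mx_neg hpi hG.even hM
    rcases lt_or_gt_of_ne n1 with hlt | hgt
    · have hg' : 0 < v' := by
        by_contra hc; push Not at hc; nlinarith
      rcases le_total (-v) v' with hle | hle
      · exact o3 hM hij.symm (α := v') (β := -v) (by linarith) hle hj (by rw [hi, neg_neg])
          (fun k h h' => hk k h' h)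
      · exact o3 hMn hij (α := -v) (β := v') hg' hle (by simp [hi]) (by simp [hj])
          (fun k h h' => by simp [hk k h h'])
    · have hl' : v' < 0 := by
        by_contra hc; push Not at hc; nlinarith
      rcases le_total (-v') v with hle | hle
      · exact o3 hM hij (α := v) (β := -v') (by linarith) hle hi (by rw [hj, neg_neg]) hk
      · exact o3 hMn hij.symm (α := -v') (β := v) hgt hle (by simp [hj]) (by simp [hi])
          (fun k h h' => by simp [hk k h' h])

lemma nu_prob1 : IsProbabilityMeasure (nu 1) := by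
  unfold nu
  simp only [one_ne_zero, if_false]
  exact isProbabilityMeasure_gammaMeasure (by norm_num) (by norm_num)

/-- value at a maximizer -/
lemma mx_value (hpi : S_Lw_pi) (hadd : S_Lw_add) (hzero : S_Lw_zero) (hnil : S_Lw_nil)
    {f : ℝ → ℝ} (hf : CPG f) (he : ∀ s, f (-s) = f s) {n : ℕ} {a : Fin n → ℝ} 
    (h : En a = 0 ∨ ∃ v, En a = Finsupp.single v 1) :
    FF f a = ∫ y, f (Real.sqrt (∑ i, a i ^ 2) * (y - 1)) ∂(nu 1) := by
  have hEa : Lw (Ea a) = Lw (En a) := by
    have := Lw_En hzero a 0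
    simpa using this
  have c1 := sm_En (fun x => x) rfl a
  have c2 := sm_En (fun x => x ^ 2) (by simp) a
  rw [FF_eq hpi hf, hEa, ← c1, ← c2]
  rcases h with h | ⟨v, h⟩
  · rw [h, hnil, integral_dirac, sm_zero, sm_zero]
    haveI := nu_prob1
    simp
  · rw [h, Lw_single hadd hnil (hf.sub_const _), sm_single, sm_single]
    simp only [Nat.cast_one, one_mul, Real.sqrt_sq_eq_abs]
    congr 1
    ext y
    rcases abs_cases v with ⟨hv, _⟩ | ⟨hv, _⟩
    · rw [hv]; congr 1; ring
    · rw [hv, ← he]; congr 1; ring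

/-- the main inequality in terms of `nu 1` -/
theorem main_nu (hpi : S_Lw_pi) (hrot : S_rot) (hib : S_Lw_ibp) (hcont : S_cont) (hmax : S_max)
    (hbias : S_nu_bias) (hadd : S_Lw_add) (hzero : S_Lw_zero) (hnil : S_Lw_nil) (hint : S_nu_int)
    (hPP : S_PP_nu) (hR : S_R) (hM' : S_M) (hP : S_P)
    {f f1 ψ w w1 : ℝ → ℝ} (hG : Good f f1 ψ w w1) {n : ℕ} (a : Fin n → ℝ) :
    FF f a ≤ ∫ y, f (Real.sqrt (∑ i, a i ^ 2) * (y - 1)) ∂(nu 1) := by
  obtain ⟨b, hb, hbm⟩ := hmax f hG.g0 n a
  have hMb : Mx f b := fun c hc => hbm c (hc.trans hb)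
  have h := mx_support hpi hrot hib hcont hbias hadd hzero hnil hint hPP hR hM' hP hG hMb
  have h2 := mx_value hpi hadd hzero hnil hG.g0 hG.even h
  rw [hb] at h2
  calc FF f a ≤ FF f b := hbm a rfl
    _ = _ := h2

theorem main_thm (hsq : S_nu_sq) (hpi : S_Lw_pi) (hrot : S_rot) (hib : S_Lw_ibp) (hcont : S_cont)
    (hmax : S_max)
    (hbias : S_nu_bias) (hadd : S_Lw_add) (hzero : S_Lw_zero) (hnil : S_Lw_nil) (hint : S_nu_int)
    (hPP : S_PP_nu) (hR : S_R) (hM' : S_M) (hP : S_P) : S_main := by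
  intro f f1 ψ w w1 hG n a
  have h := main_nu hpi hrot hib hcont hmax hbias hadd hzero hnil hint hPP hR hM' hP hG a
  have hc := hG.g0.1
  have e1 : ∫ x, f (∑ i, a i * (x i ^ 2 - 1)) ∂(Measure.pi (fun _ : Fin n => gaussianReal 0 1)) =
      FF f a := by
    unfold FF
    rw [← hsq]
    rw [← Measure.pi_map_pi (fun i => (by fun_prop : Measurable fun x : ℝ => x ^ 2).aemeasurable)]
    rw [integral_map]
    · exact (by fun_prop : Measurable fun (x : Fin n → ℝ) (i : Fin n) => x i ^ 2).aemeasurable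
    · exact (by fun_prop : Continuous fun y : Fin n → ℝ => f (∑ i, a i * (y i - 1))).aestronglyMeasurable
  have e2 : ∫ x, f (Real.sqrt (∑ i, a i ^ 2) * (x ^ 2 - 1)) ∂(gaussianReal 0 1) =
      ∫ y, f (Real.sqrt (∑ i, a i ^ 2) * (y - 1)) ∂(nu 1) := by
    rw [← hsq, integral_map]
    · exact (by fun_prop : Measurable fun x : ℝ => x ^ 2).aemeasurable
    · exact (by fun_prop : Continuous fun y : ℝ => f (Real.sqrt (∑ i, a i ^ 2) * (y - 1))).aestronglyMeasurable
  rw [e1, e2]
  exact h

end Pool.Agent.R444.GQ
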