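import Pool.Agent.R444.GQ.Stm

open MeasureTheory ProbabilityTheory Real

namespace Pool.Agent.R444.GQ

lemma CPG.affine {φ : ℝ → ℝ} (h : CPG φ) (z v : ℝ) : CPG (fun y => φ (z + v * y)) := by
  obtain ⟨hc, C, N, hC⟩ := h
  refine ⟨by fun_prop, |C| * (2 * (1 + z ^ 2) * (1 + v ^ 2)) ^ N, N, fun s => ?_⟩
  have h1 := hC (z + v * s)
  have h2 : (1 + (z + v * s) ^ 2) ≤ (2 * (1 + z ^ 2) * (1 + v ^ 2)) * (1 + s ^ 2) := by
    nlinarith [sq_nonneg (z - v * s), sq_nonneg (z * s), sq_nonneg (z * v), sq_nonneg (z * v * s),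
      sq_nonneg z, sq_nonneg v, sq_nonneg s, sq_nonneg (v * s)]
  have h0 : 0 ≤ (1 + (z + v * s) ^ 2) := by positivity
  have h3 := pow_le_pow_left₀ h0 h2 N
  have h4 : C * (1 + (z + v * s) ^ 2) ^ N ≤ |C| * (1 + (z + v * s) ^ 2) ^ N :=
    mul_le_mul_of_nonneg_right (le_abs_self C) (by positivity)
  calc |φ (z + v * s)| ≤ |C| * (1 + (z + v * s) ^ 2) ^ N := h1.trans h4
    _ ≤ |C| * ((2 * (1 + z ^ 2) * (1 + v ^ 2)) * (1 + s ^ 2)) ^ N :=
        mul_le_mul_of_nonneg_left h3 (abs_nonneg C)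
    _ = |C| * (2 * (1 + z ^ 2) * (1 + v ^ 2)) ^ N * (1 + s ^ 2) ^ N := by rw [mul_pow]; ring

lemma CPG.sub_const {φ : ℝ → ℝ} (h : CPG φ) (c : ℝ) : CPG (fun y => φ (y - c)) := by
  have := h.affine (-c) 1
  refine ⟨this.1.congr fun x => by ring_nf, ?_⟩
  obtain ⟨C, N, hC⟩ := this.2
  exact ⟨C, N, fun s => by have := hC s; ring_nf at this ⊢; exact this⟩

/-- values of the family -/
noncomputable def Ea {n : ℕ} (a : Fin n → ℝ) : ℝ →₀ ℕ := ∑ i, Finsupp.single (a i) 1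

/-- value of the functional -/
noncomputable def FF (φ : ℝ → ℝ) {n : ℕ} (a : Fin n → ℝ) : ℝ :=
  ∫ y, φ (∑ i, a i * (y i - 1)) ∂(Measure.pi (fun _ : Fin n => nu 1))

lemma FF_eq (hpi : S_Lw_pi) {φ : ℝ → ℝ} (hφ : CPG φ) {n : ℕ} (a : Fin n → ℝ) :
    FF φ a = ∫ s, φ (s - ∑ i, a i) ∂(Lw (Ea a)) := by
  rw [Ea, ← hpi n a, integral_map]
  · unfold FF
    congr 1
    ext y
    congr 1
    rw [← Finset.sum_sub_distrib]
    refine Finset.sum_congr rfl fun i _ => by ring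
  · exact (by fun_prop : Measurable fun (y : Fin n → ℝ) => ∑ i, a i * y i).aemeasurable
  · exact (by have := hφ.1; fun_prop : Continuous fun s => φ (s - ∑ i, a i)).aestronglyMeasurable

/-- rest of the family -/
noncomputable def E0 {n : ℕ} (a : Fin n → ℝ) (i j : Fin n) : ℝ →₀ ℕ :=
  ∑ k ∈ (Finset.univ.erase i).erase j, Finsupp.single (a k) 1

noncomputable def c0 {n : ℕ} (a : Fin n → ℝ) (i j : Fin n) : ℝ :=
  ∑ k ∈ (Finset.univ.erase i).erase j, a k

lemma sum_split {M : Type*} [AddCommMonoid M] {n : ℕ} (g : Fin n → M) {i j : Fin n} (hij : i ≠ j) :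
    ∑ k, g k = ∑ k ∈ (Finset.univ.erase i).erase j, g k + g i + g j := by
  rw [← Finset.add_sum_erase _ g (Finset.mem_univ i),
    ← Finset.add_sum_erase (Finset.univ.erase i) g (a := j) (by simp [hij.symm])]
  abel

lemma Ea_split {n : ℕ} (a : Fin n → ℝ) {i j : Fin n} (hij : i ≠ j) :
    Ea a = E0 a i j + Finsupp.single (a i) 1 + Finsupp.single (a j) 1 := sum_split _ hij

lemma c_split {n : ℕ} (a : Fin n → ℝ) {i j : Fin n} (hij : i ≠ j) :
    ∑ k, a k = c0 a i j + a i + a j := sum_split _ hij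

/-- rotated vector -/
noncomputable def upd2 {n : ℕ} (a : Fin n → ℝ) (i j : Fin n) (x x' : ℝ) : Fin n → ℝ :=
  Function.update (Function.update a i x) j x'

lemma upd2_i {n : ℕ} (a : Fin n → ℝ) {i j : Fin n} (hij : i ≠ j) (x x' : ℝ) :
    upd2 a i j x x' i = x := by
  simp [upd2, hij]

lemma upd2_j {n : ℕ} (a : Fin n → ℝ) {i j : Fin n} (x x' : ℝ) :
    upd2 a i j x x' j = x' := by
  simp [upd2]

lemma upd2_k {n : ℕ} (a : Fin n → ℝ) {i j k : Fin n} (hk : k ∈ (Finset.univ.erase i).erase j)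
    (x x' : ℝ) : upd2 a i j x x' k = a k := by
  simp only [Finset.mem_erase, Finset.mem_univ, and_true] at hk
  simp [upd2, hk.1, hk.2]

lemma FF_upd2 (hpi : S_Lw_pi) {φ : ℝ → ℝ} (hφ : CPG φ) {n : ℕ} (a : Fin n → ℝ) {i j : Fin n}
    (hij : i ≠ j) (x x' : ℝ) :
    FF φ (upd2 a i j x x') = RR φ (E0 a i j) (c0 a i j) 1 1 x x' := by
  rw [FF_eq hpi hφ, RR, Ea_split _ hij, c_split _ hij, upd2_i a hij, upd2_j]
  have h1 : E0 (upd2 a i j x x') i j = E0 a i j := by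
    unfold E0
    refine Finset.sum_congr rfl fun k hk => by rw [upd2_k a hk]
  have h2 : c0 (upd2 a i j x x') i j = c0 a i j := by
    unfold c0
    refine Finset.sum_congr rfl fun k hk => by rw [upd2_k a hk]
  rw [h1, h2]

lemma sq_upd2 {n : ℕ} (a : Fin n → ℝ) {i j : Fin n} (hij : i ≠ j) (x x' : ℝ)
    (h : x ^ 2 + x' ^ 2 = a i ^ 2 + a j ^ 2) :
    ∑ k, upd2 a i j x x' k ^ 2 = ∑ k, a k ^ 2 := by
  rw [sum_split _ hij, sum_split (fun k => a k ^ 2) hij, upd2_i a hij, upd2_j]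
  have : ∑ k ∈ (Finset.univ.erase i).erase j, upd2 a i j x x' k ^ 2 =
      ∑ k ∈ (Finset.univ.erase i).erase j, a k ^ 2 :=
    Finset.sum_congr rfl fun k hk => by rw [upd2_k a hk]
  rw [this]
  linarith

/-- maximizer on its sphere -/
def Mx (f : ℝ → ℝ) {n : ℕ} (a : Fin n → ℝ) : Prop :=
  ∀ b : Fin n → ℝ, ∑ i, b i ^ 2 = ∑ i, a i ^ 2 → FF f b ≤ FF f a

lemma RR_le (hpi : S_Lw_pi) {f : ℝ → ℝ} (hφ : CPG f) {n : ℕ} {a : Fin n → ℝ} (hM : Mx f a)
    {i j : Fin n} (hij : i ≠ j) (x x' : ℝ) (h : x ^ 2 + x' ^ 2 = a i ^ 2 + a j ^ 2) :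
    RR f (E0 a i j) (c0 a i j) 1 1 x x' ≤ RR f (E0 a i j) (c0 a i j) 1 1 (a i) (a j) := by
  rw [← FF_upd2 hpi hφ a hij, ← FF_upd2 hpi hφ a hij]
  have : upd2 a i j (a i) (a j) = a := by simp [upd2]
  rw [this]
  exact hM _ (sq_upd2 a hij _ _ h)

lemma polar_exists (x x' : ℝ) : ∃ r θ : ℝ, x = r * Real.cos θ ∧ x' = r * Real.sin θ := by
  refine ⟨‖(⟨x, x'⟩ : ℂ)‖, Complex.arg ⟨x, x'⟩, ?_, ?_⟩
  · have := Complex.norm_mul_cos_arg (⟨x, x'⟩ : ℂ)
    simpa using this.symm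
  · have := Complex.norm_mul_sin_arg (⟨x, x'⟩ : ℂ)
    simpa using this.symm

/-- first order condition -/
lemma O1 (hpi : S_Lw_pi) (hrot : S_rot) {f f1 ψ w w1 : ℝ → ℝ} (hG : Good f f1 ψ w w1) {n : ℕ}
    {a : Fin n → ℝ} (hM : Mx f a) {i j : Fin n} (hij : i ≠ j) (hi : a i ≠ 0) (hj : a j ≠ 0) :
    ∫ s, ψ (s - ∑ k, a k) ∂(Lw (Ea a + Finsupp.single (a i) 2)) =
      ∫ s, ψ (s - ∑ k, a k) ∂(Lw (Ea a + Finsupp.single (a j) 2)) := by
  obtain ⟨r, θ, hx, hx'⟩ := polar_exists (a i) (a j)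
  have hd := hrot f f1 ψ w w1 hG (E0 a i j) (c0 a i j) r θ
  have hmax : IsLocalMax (fun θ => RR f (E0 a i j) (c0 a i j) 1 1 (r * Real.cos θ)
      (r * Real.sin θ)) θ := by
    refine Filter.Eventually.of_forall fun t => ?_
    show RR f (E0 a i j) (c0 a i j) 1 1 (r * Real.cos t) (r * Real.sin t) ≤ 
      RR f (E0 a i j) (c0 a i j) 1 1 (r * Real.cos θ) (r * Real.sin θ)
    rw [← hx, ← hx']
    refine RR_le hpi hG.g0 hM hij _ _ ?_
    have e1 : (r * Real.cos t) ^ 2 + (r * Real.sin t) ^ 2 = r ^ 2 := by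
      nlinarith [Real.sin_sq_add_cos_sq t]
    have e2 : (r * Real.cos θ) ^ 2 + (r * Real.sin θ) ^ 2 = r ^ 2 := by
      nlinarith [Real.sin_sq_add_cos_sq θ]
    rw [e1, hx, hx', e2]
  have h0 := hmax.hasDerivAt_eq_zero hd
  rw [← hx, ← hx'] at h0
  have h1 : RR ψ (E0 a i j) (c0 a i j) 1 3 (a i) (a j) = RR ψ (E0 a i j) (c0 a i j) 3 1 (a i) (a j) := by
    have h2 : (2 * a i * a j) ≠ 0 := by positivity
    have h3 := (mul_eq_zero.1 h0).resolve_left h2
    linarith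
  have e13 : Ea a + Finsupp.single (a i) 2 =
      E0 a i j + Finsupp.single (a i) 3 + Finsupp.single (a j) 1 := by
    rw [Ea_split a hij, show (3 : ℕ) = 1 + 2 from rfl, Finsupp.single_add]
    abel
  have e31 : Ea a + Finsupp.single (a j) 2 =
      E0 a i j + Finsupp.single (a i) 1 + Finsupp.single (a j) 3 := by
    rw [Ea_split a hij, show (3 : ℕ) = 1 + 2 from rfl, Finsupp.single_add]
    abel
  rw [e13, e31, c_split a hij]
  exact h1.symm

lemma RR_diff (hib : S_Lw_ibp) {ψ w : ℝ → ℝ} (hd : ∀ s, HasDerivAt ψ (w s) s) (h2 : CPG ψ)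
    (h3 : CPG w) (E : ℝ →₀ ℕ) (c x x' : ℝ) :
    RR ψ E c 1 3 x x' - RR ψ E c 3 1 x x' = 2 * (x' - x) * RR w E c 3 3 x x' := by
  have k1 := hib (E + Finsupp.single x 1 + Finsupp.single x' 3) x ψ w hd h2 h3 (-(c + x + x'))
  have k2 := hib (E + Finsupp.single x 3 + Finsupp.single x' 1) x' ψ w hd h2 h3 (-(c + x + x'))
  have e1 : E + Finsupp.single x 1 + Finsupp.single x' 3 + Finsupp.single x 2 =
      E + Finsupp.single x 3 + Finsupp.single x' 3 := by
    rw [show Finsupp.single x 3 = Finsupp.single x 1 + Finsupp.single x 2 by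
      rw [← Finsupp.single_add]]
    abel
  have e2 : E + Finsupp.single x 3 + Finsupp.single x' 1 + Finsupp.single x' 2 =
      E + Finsupp.single x 3 + Finsupp.single x' 3 := by
    rw [show Finsupp.single x' 3 = Finsupp.single x' 1 + Finsupp.single x' 2 by
      rw [← Finsupp.single_add]]
    abel
  rw [e1] at k1
  rw [e2] at k2
  unfold RR
  have q : ∀ (g : ℝ → ℝ) (μ : Measure ℝ), ∫ s, g (s - (c + x + x')) ∂μ =
      ∫ s, g (-(c + x + x') + s) ∂μ := fun g μ => by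
    congr 1; ext s; congr 1; ring
  rw [q, q, q]
  linarith

/-- second order condition -/
lemma O2 (hpi : S_Lw_pi) (hrot : S_rot) (hib : S_Lw_ibp) (hcont : S_cont)
    {f f1 ψ w w1 : ℝ → ℝ} (hG : Good f f1 ψ w w1) {n : ℕ}
    {a : Fin n → ℝ} (hM : Mx f a) {i j : Fin n} (hij : i ≠ j) {α : ℝ} (hα : α ≠ 0)
    (hi : a i = α) (hj : a j = α) :
    α * ∫ s, w (s - ∑ k, a k) ∂(Lw (Ea a + Finsupp.single α 4)) ≤ 0 := by
  by_contra hcon
  push Not at hcon
  have e33 : Ea a + Finsupp.single α 4 =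
      E0 a i j + Finsupp.single α 3 + Finsupp.single α 3 := by
    rw [Ea_split a hij, hi, hj, show (3 : ℕ) = 1 + 2 from rfl, show (4 : ℕ) = 2 + 2 from rfl,
      Finsupp.single_add, Finsupp.single_add]
    abel
  rw [e33, c_split a hij, hi, hj] at hcon
  change 0 < α * RR w (E0 a i j) (c0 a i j) 3 3 α α at hcon
  set E := E0 a i j
  set c := c0 a i j
  set r : ℝ := Real.sqrt 2 * α with hr
  have h2 : Real.sqrt 2 * Real.sqrt 2 = 2 := Real.mul_self_sqrt (by norm_num)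
  have s2 : 0 < Real.sqrt 2 := by positivity
  have hrc : r * Real.cos (π / 4) = α := by
    rw [Real.cos_pi_div_four, hr]; linear_combination (α / 2) * h2
  have hrs : r * Real.sin (π / 4) = α := by
    rw [Real.sin_pi_div_four, hr]; linear_combination (α / 2) * h2
  have hWc : Continuous (fun θ => α * RR w E c 3 3 (r * Real.cos θ) (r * Real.sin θ)) := by
    have := hcont w hG.g3.cpg E c 3 3
    have h := this.comp (by fun_prop : Continuous fun θ : ℝ => (r * Real.cos θ, r * Real.sin θ))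
    exact continuous_const.mul h
  have hev : ∀ᶠ θ in nhds (π / 4), 0 < α * RR w E c 3 3 (r * Real.cos θ) (r * Real.sin θ) := by
    apply hWc.continuousAt.eventually_const_lt
    show 0 < α * RR w E c 3 3 (r * Real.cos (π / 4)) (r * Real.sin (π / 4))
    rw [hrc, hrs]
    exact hcon
  obtain ⟨δ, hδ, hball⟩ := Metric.eventually_nhds_iff.1 hev
  set η := min (δ / 2) (π / 8) with hη
  have hη0 : 0 < η := lt_min (by linarith) (by positivity)
  have hη1 : η ≤ δ / 2 := min_le_left _ _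
  have hη2 : η ≤ π / 8 := min_le_right _ _
  have hderiv : ∀ θ, HasDerivAt (fun θ => RR f E c 1 1 (r * Real.cos θ) (r * Real.sin θ))
      (4 * r ^ 2 * (Real.sin θ * Real.cos θ) * (Real.sin θ - Real.cos θ) *
        (r * RR w E c 3 3 (r * Real.cos θ) (r * Real.sin θ))) θ := by
    intro θ
    refine (hrot f f1 ψ w w1 hG E c r θ).congr_deriv ?_
    rw [RR_diff hib hG.d2 hG.g2 hG.g3.cpg]
    ring
  have hmono : StrictMonoOn (fun θ => RR f E c 1 1 (r * Real.cos θ) (r * Real.sin θ))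
      (Set.Icc (π / 4) (π / 4 + η)) := by
    apply strictMonoOn_of_deriv_pos (convex_Icc _ _)
    · exact fun θ _ => (hderiv θ).continuousAt.continuousWithinAt
    · intro θ hθ
      rw [interior_Icc] at hθ
      rw [(hderiv θ).deriv]
      have hp := Real.pi_pos
      have hr0 : r ≠ 0 := mul_ne_zero s2.ne' hα
      have hs : 0 < Real.sin θ := Real.sin_pos_of_pos_of_lt_pi (by linarith [hθ.1]) (by linarith [hθ.2])
      have hc : 0 < Real.cos θ := Real.cos_pos_of_mem_Ioo ⟨by linarith [hθ.1], by linarith [hθ.2]⟩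
      have hsc : Real.cos θ < Real.sin θ := by
        rw [← Real.sin_pi_div_two_sub]
        apply Real.sin_lt_sin_of_lt_of_le_pi_div_two
        · linarith [hθ.1, hθ.2]
        · linarith [hθ.1, hθ.2]
        · linarith [hθ.1]
      have hW : 0 < r * RR w E c 3 3 (r * Real.cos θ) (r * Real.sin θ) := by
        have := hball (y := θ) (by rw [Real.dist_eq, abs_of_pos (by linarith [hθ.1])]; linarith [hθ.2])
        have h5 := mul_pos s2 this
        calc 0 < _ := h5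
          _ = _ := by rw [hr]; ring
      have : 0 < Real.sin θ - Real.cos θ := by linarith
      positivity
  have hlt := hmono (Set.left_mem_Icc.2 (by linarith)) (Set.right_mem_Icc.2 (by linarith))
    (by linarith : π / 4 < π / 4 + η)
  have hle := RR_le hpi hG.g0 hM hij (r * Real.cos (π / 4 + η)) (r * Real.sin (π / 4 + η)) (by
    rw [hi, hj]
    have e1 : (r * Real.cos (π / 4 + η)) ^ 2 + (r * Real.sin (π / 4 + η)) ^ 2 = r ^ 2 := by
      nlinarith [Real.sin_sq_add_cos_sq (π / 4 + η)]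
    rw [e1, hr]
    linear_combination (α ^ 2) * h2)
  simp only at hlt
  rw [hrc, hrs] at hlt
  rw [hi, hj] at hle
  exact absurd hlt (not_lt.2 hle)

end Pool.Agent.R444.GQ
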