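import Mathlib

/-!
# MP_c22ba5_pr : E|S_a|^p is maximal at the coordinate vectors.
Definitions and statements of the pieces (namespace `Pool.Agent.R444.GQ`).
-/

open MeasureTheory ProbabilityTheory Real

namespace Pool.Agent.R444.GQ

/-- chi-square law with `e` degrees of freedom (`e = 0`: Dirac mass at `0`) -/
noncomputable def nu (e : ℕ) : Measure ℝ :=
  if e = 0 then Measure.dirac 0 else gammaMeasure ((e : ℝ) / 2) (1 / 2)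

/-- density of `nu e` on `(0,∞)` -/
noncomputable def dens (e : ℕ) (y : ℝ) : ℝ :=
  (1 / 2) ^ ((e : ℝ) / 2) / Real.Gamma ((e : ℝ) / 2) * y ^ ((e : ℝ) / 2 - 1) * Real.exp (-(y / 2))

/-- continuous functions of polynomial growth -/
def CPG (φ : ℝ → ℝ) : Prop :=
  Continuous φ ∧ ∃ C : ℝ, ∃ N : ℕ, ∀ s, |φ s| ≤ C * (1 + s ^ 2) ^ N

/-- law of `∑ v, v * Y_v`, `Y_v ∼ nu (E v)` independent -/
noncomputable def Lw (E : ℝ →₀ ℕ) : Measure ℝ :=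
  (Measure.pi (fun v : E.support => nu (E v))).map (fun y => ∑ v : E.support, (v : ℝ) * y v)

/-- the sign-change property -/
def PP (k : ℝ → ℝ) : Prop := ∀ z1 z2, z1 < z2 → 0 ≤ k z1 → 0 < k z2

/-- odd, positive on `(0,∞)`, continuous of polynomial growth -/
structure OddPos (w : ℝ → ℝ) : Prop where
  cpg : CPG w
  odd : ∀ s, w (-s) = - w s
  pos : ∀ s, 0 < s → 0 < w s

/-- the hypotheses on the test function `f` (`f' = f1`, `f'' = ψ`, `f''' = w`, `w' = w1`) -/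
structure Good (f f1 ψ w w1 : ℝ → ℝ) : Prop where
  even : ∀ s, f (-s) = f s
  d0 : ∀ s, HasDerivAt f (f1 s) s
  d1 : ∀ s, HasDerivAt f1 (ψ s) s
  d2 : ∀ s, HasDerivAt ψ (w s) s
  d3 : ∀ s, HasDerivAt w (w1 s) s
  g0 : CPG f
  g1 : CPG f1
  g2 : CPG ψ
  g3 : OddPos w
  g4 : CPG w1
  L1 : ∀ α β : ℝ, 0 < β → β < α →
    0 < ∫ y1, ∫ y2, (y1 - y2) * ψ (α * (y1 - 1) - β * (y2 - 1)) ∂(nu 1) ∂(nu 1)

/-- `E φ(∑ …)` with two distinguished values `x, x'` having `e1, e2` degrees of freedom -/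
noncomputable def RR (φ : ℝ → ℝ) (E : ℝ →₀ ℕ) (c : ℝ) (e1 e2 : ℕ) (x x' : ℝ) : ℝ :=
  ∫ s, φ (s - (c + x + x')) ∂(Lw (E + Finsupp.single x e1 + Finsupp.single x' e2))

/-- circle average against the cosine -/
noncomputable def Jc (ψ : ℝ → ℝ) (m n : ℝ) : ℝ :=
  ∫ θ in (0 : ℝ)..(2 * π), Real.cos θ * ψ (m + n * Real.cos θ)

/-! ### N : the laws `nu e` -/

def S_nu_dens : Prop := ∀ e : ℕ, 1 ≤ e → ∀ φ : ℝ → ℝ,
  ∫ y, φ y ∂(nu e) = ∫ y in Set.Ioi 0, φ y * dens e y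

def S_nu_int : Prop := ∀ (e : ℕ) (φ : ℝ → ℝ), CPG φ → Integrable φ (nu e)

def S_nu_bias : Prop := ∀ e : ℕ, 1 ≤ e → ∀ φ : ℝ → ℝ,
  ∫ y, y * φ y ∂(nu e) = e * ∫ y, φ y ∂(nu (e + 2))

def S_nu_char : Prop := ∀ (e : ℕ) (t : ℝ), charFun (nu e) t = (charFun (nu 1) t) ^ e

def S_nu_sq : Prop := (gaussianReal 0 1).map (fun x => x ^ 2) = nu 1

/-- integration by parts for the exponential law `nu 2` -/
def S_nu_ibp : Prop := ∀ φ φ' : ℝ → ℝ, (∀ s, HasDerivAt φ (φ' s) s) → CPG φ → CPG φ' →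
  ∀ z v : ℝ, ∫ y, φ (z + v * y) ∂(nu 2) = φ z + 2 * v * ∫ y, φ' (z + v * y) ∂(nu 2)

/-! ### L : the laws `Lw E` -/

def S_Lw_prob : Prop := ∀ E : ℝ →₀ ℕ, IsProbabilityMeasure (Lw E)

def S_Lw_int : Prop := ∀ (E : ℝ →₀ ℕ) (φ : ℝ → ℝ), CPG φ → Integrable φ (Lw E)

def S_Lw_add : Prop := ∀ (E : ℝ →₀ ℕ) (v : ℝ) (k : ℕ) (φ : ℝ → ℝ), CPG φ →
  ∫ s, φ s ∂(Lw (E + Finsupp.single v k)) = ∫ s, ∫ y, φ (s + v * y) ∂(nu k) ∂(Lw E)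

def S_Lw_zero : Prop := ∀ (E : ℝ →₀ ℕ) (k : ℕ), Lw (E + Finsupp.single 0 k) = Lw E

def S_Lw_nil : Prop := Lw 0 = Measure.dirac 0

def S_Lw_ibp : Prop := ∀ (E : ℝ →₀ ℕ) (v : ℝ) (φ φ' : ℝ → ℝ), (∀ s, HasDerivAt φ (φ' s) s) →
  CPG φ → CPG φ' → ∀ z : ℝ,
  ∫ s, φ (z + s) ∂(Lw (E + Finsupp.single v 2)) =
    ∫ s, φ (z + s) ∂(Lw E) + 2 * v * ∫ s, φ' (z + s) ∂(Lw (E + Finsupp.single v 2))

def S_Lw_pi : Prop := ∀ (n : ℕ) (a : Fin n → ℝ),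
  (Measure.pi (fun _ : Fin n => nu 1)).map (fun y => ∑ i, a i * y i) =
    Lw (∑ i, Finsupp.single (a i) 1)

/-! ### P : sign changes and inequalities for `nu e` -/

def S_PP_nu : Prop := ∀ (k : ℝ → ℝ), CPG k → PP k → ∀ (v : ℝ), v ≠ 0 → ∀ e : ℕ, 2 ≤ e →
  PP (fun z => ∫ y, k (z + v * y) ∂(nu e))

def S_R : Prop := ∀ (k : ℝ → ℝ), CPG k → PP k → ∀ (v : ℝ), v ≠ 0 → ∀ (e : ℕ), 1 ≤ e → ∀ z : ℝ,
  ∫ y, k (z + v * y) ∂(nu e) = 0 → 0 < v * ∫ y, k (z + v * y) ∂(nu (e + 2))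

/-- Lemma M -/
def S_M : Prop := ∀ w : ℝ → ℝ, OddPos w → ∀ (e : ℕ), 3 ≤ e → ∀ (α σ : ℝ), 0 < α → 0 ≤ σ →
  0 < ∫ y, w (α * (y - ((e : ℝ) - 2)) + σ) ∂(nu e)

/-- Lemma P -/
def S_P : Prop := ∀ w : ℝ → ℝ, OddPos w → ∀ (m1 m2 : ℕ), 1 ≤ m1 → 1 ≤ m2 →
  ∀ (v1 v2 : ℝ), 0 < v1 → 0 < v2 →
  0 < ∫ y1, ∫ y2, w (v1 * (y1 - m1) + v2 * (y2 - m2)) ∂(nu (m2 + 2)) ∂(nu (m1 + 2))

/-! ### R : rotations -/

/-- rotation derivative -/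
def S_rot : Prop := ∀ f f1 ψ w w1 : ℝ → ℝ, Good f f1 ψ w w1 → ∀ (E : ℝ →₀ ℕ) (c r θ : ℝ),
  HasDerivAt (fun θ => RR f E c 1 1 (r * Real.cos θ) (r * Real.sin θ))
    (2 * (r * Real.cos θ) * (r * Real.sin θ) *
      (RR ψ E c 1 3 (r * Real.cos θ) (r * Real.sin θ)
        - RR ψ E c 3 1 (r * Real.cos θ) (r * Real.sin θ))) θ

/-- continuity in the two distinguished values -/
def S_cont : Prop := ∀ φ : ℝ → ℝ, CPG φ → ∀ (E : ℝ →₀ ℕ) (c : ℝ) (e1 e2 : ℕ),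
  Continuous (fun p : ℝ × ℝ => RR φ E c e1 e2 p.1 p.2)

/-- existence of a maximizer -/
def S_max : Prop := ∀ φ : ℝ → ℝ, CPG φ → ∀ (n : ℕ) (b : Fin n → ℝ), 
  ∃ a : Fin n → ℝ, ∑ i, a i ^ 2 = ∑ i, b i ^ 2 ∧
    ∀ a' : Fin n → ℝ, ∑ i, a' i ^ 2 = ∑ i, b i ^ 2 →
      ∫ y, φ (∑ i, a' i * (y i - 1)) ∂(Measure.pi (fun _ : Fin n => nu 1)) ≤
        ∫ y, φ (∑ i, a i * (y i - 1)) ∂(Measure.pi (fun _ : Fin n => nu 1))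

/-! ### the two-point inequality (L1) -/

/-- polar coordinates -/
def S_polar : Prop := ∀ ψ : ℝ → ℝ, CPG ψ → ∀ α β : ℝ,
  ∫ y1, ∫ y2, (y1 - y2) * ψ (α * (y1 - 1) - β * (y2 - 1)) ∂(nu 1) ∂(nu 1) =
    (1 / π) * ∫ u in Set.Ioi (0 : ℝ),
      Real.exp (-u) * (u * Jc ψ ((α - β) * (u - 1)) ((α + β) * u))

/-- convex case -/
def S_L1A : Prop := ∀ ψ w : ℝ → ℝ, CPG ψ → CPG w → (∀ s, ψ (-s) = ψ s) →
  (∀ s, HasDerivAt ψ (w s) s) → (∀ s, w (-s) = - w s) → StrictMono w →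
  ∀ α β : ℝ, 0 < β → β < α →
    0 < ∫ u in Set.Ioi (0 : ℝ), Real.exp (-u) * (u * Jc ψ ((α - β) * (u - 1)) ((α + β) * u))

/-- circle integral of the logarithm -/
def S_circ : Prop := ∀ m n k x : ℝ, 0 < n → 0 < k → x * k = m → x ^ 2 - k ^ 2 = m ^ 2 - 1 - n ^ 2 →
  Jc (fun s => Real.log (1 + s ^ 2)) m n = 4 * π * (m - x) / n

/-- logarithmic case -/
def S_L1B : Prop := ∀ α β : ℝ, 0 < β → β < α →
    0 < ∫ u in Set.Ioi (0 : ℝ), Real.exp (-u) *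
      (u * Jc (fun s => Real.log (1 + s ^ 2)) ((α - β) * (u - 1)) ((α + β) * u))

/-! ### families -/

/-- the test function with second derivative `log (1 + s^2)` -/
noncomputable def fB (s : ℝ) : ℝ :=
  (s ^ 2 - 1) / 2 * Real.log (1 + s ^ 2) + 2 * s * Real.arctan s - 3 / 2 * s ^ 2

def S_famA : Prop := ∀ p : ℝ, 4 ≤ p →
  Good (fun s => |s| ^ p / (p * (p - 1))) (fun s => |s| ^ (p - 2) * s / (p - 1))
    (fun s => |s| ^ (p - 2)) (fun s => (p - 2) * (|s| ^ (p - 4) * s))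
    (fun s => (p - 2) * (p - 3) * |s| ^ (p - 4))

def S_famB : Prop :=
  Good fB (fun s => s * Real.log (1 + s ^ 2) + 2 * Real.arctan s - 2 * s)
    (fun s => Real.log (1 + s ^ 2)) (fun s => 2 * s / (1 + s ^ 2))
    (fun s => 2 * (1 - s ^ 2) / (1 + s ^ 2) ^ 2)

/-- mixture representation -/
def S_mix : Prop := ∀ p : ℝ, 2 < p → p < 4 → ∃ C : ℝ, 0 < C ∧ (∀ s, 0 ≤ fB s) ∧
  ∀ s : ℝ, ∫⁻ x in Set.Ioi (0 : ℝ), ENNReal.ofReal (fB (x * s) * x ^ (-p - 1)) =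
    ENNReal.ofReal (C * |s| ^ p)

/-! ### main -/

def S_main : Prop := ∀ f f1 ψ w w1 : ℝ → ℝ, Good f f1 ψ w w1 → ∀ (n : ℕ) (a : Fin n → ℝ),
  ∫ x, f (∑ i, a i * (x i ^ 2 - 1)) ∂(Measure.pi (fun _ : Fin n => gaussianReal 0 1)) ≤
    ∫ x, f (Real.sqrt (∑ i, a i ^ 2) * (x ^ 2 - 1)) ∂(gaussianReal 0 1)

def S_final : Prop := ∀ (n : ℕ), 1 ≤ n → ∀ p : ℝ, 2 < p →
  IsGreatest {m : ℝ | ∃ a : Fin n → ℝ, ∑ i, a i ^ 2 = 1 ∧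
      m = ∫ x, |∑ i, a i * (x i ^ 2 - 1)| ^ p ∂(Measure.pi (fun _ : Fin n => gaussianReal 0 1))}
    (∫ x, |x ^ 2 - 1| ^ p ∂(gaussianReal 0 1))

end Pool.Agent.R444.GQ
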