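import Pool.Agent.R444.GQ.Opt

open MeasureTheory ProbabilityTheory Real

namespace Pool.Agent.R444.GQ

lemma one_add_sq_le (a b : ℝ) : 1 + (a + b) ^ 2 ≤ 2 * (1 + a ^ 2) * (1 + b ^ 2) := by
  nlinarith [sq_nonneg (a - b), sq_nonneg (a * b), sq_nonneg a, sq_nonneg b]

lemma cpg_pow (N : ℕ) (v : ℝ) : CPG (fun y => (1 + (v * y) ^ 2) ^ N) := by
  refine ⟨by fun_prop, (1 + v ^ 2) ^ N, N, fun s => ?_⟩
  rw [abs_of_nonneg (by positivity), ← mul_pow]
  refine pow_le_pow_left₀ (by positivity) ?_ N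
  nlinarith [sq_nonneg v, sq_nonneg s, sq_nonneg (v * s)]

lemma CPG.id_mul {φ : ℝ → ℝ} (h : CPG φ) : CPG (fun y => y * φ y) := by
  obtain ⟨hc, C, N, hC⟩ := h
  refine ⟨by fun_prop, |C|, N + 1, fun s => ?_⟩
  rw [abs_mul, pow_succ]
  have h1 : |s| ≤ 1 + s ^ 2 := by
    rw [abs_le]; constructor <;> nlinarith [sq_nonneg (s - 1), sq_nonneg (s + 1), sq_nonneg s]
  have h2 : |φ s| ≤ |C| * (1 + s ^ 2) ^ N := (hC s).trans
    (mul_le_mul_of_nonneg_right (le_abs_self C) (by positivity))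
  calc |s| * |φ s| ≤ (1 + s ^ 2) * (|C| * (1 + s ^ 2) ^ N) := by gcongr
    _ = _ := by ring

lemma CPG.int (hint : S_nu_int) {φ : ℝ → ℝ} (h : CPG φ) (v : ℝ) (e : ℕ) :
    CPG (fun z => ∫ y, φ (z + v * y) ∂(nu e)) := by
  obtain ⟨hc, C, N, hC⟩ := h
  have hC' : ∀ z y, |φ (z + v * y)| ≤ |C| * 2 ^ N * (1 + z ^ 2) ^ N * (1 + (v * y) ^ 2) ^ N := by
    intro z y
    have h1 : |φ (z + v * y)| ≤ |C| * (1 + (z + v * y) ^ 2) ^ N := (hC _).trans
      (mul_le_mul_of_nonneg_right (le_abs_self C) (by positivity))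
    have h2 := pow_le_pow_left₀ (by positivity) (one_add_sq_le z (v * y)) N
    calc |φ (z + v * y)| ≤ |C| * (2 * (1 + z ^ 2) * (1 + (v * y) ^ 2)) ^ N :=
          h1.trans (mul_le_mul_of_nonneg_left h2 (abs_nonneg C))
      _ = _ := by rw [mul_pow, mul_pow]; ring
  have hI := hint e _ (cpg_pow N v)
  constructor
  · rw [continuous_iff_continuousAt]
    intro z0
    refine continuousAt_of_dominated
      (bound := fun y => |C| * 2 ^ N * (1 + (|z0| + 1) ^ 2) ^ N * (1 + (v * y) ^ 2) ^ N) ?_ ?_ ?_ ?_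
    · refine Filter.Eventually.of_forall fun z => ?_
      exact (by fun_prop : Continuous fun y => φ (z + v * y)).aestronglyMeasurable
    · filter_upwards [Metric.ball_mem_nhds z0 one_pos] with z hz
      refine Filter.Eventually.of_forall fun y => ?_
      rw [Real.norm_eq_abs]
      refine (hC' z y).trans ?_
      have hz' : |z| ≤ |z0| + 1 := by
        have := abs_sub_abs_le_abs_sub z z0
        rw [Metric.mem_ball, Real.dist_eq] at hz
        linarith
      have hz2 : z ^ 2 ≤ (|z0| + 1) ^ 2 := by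
        rw [← sq_abs z]
        exact pow_le_pow_left₀ (abs_nonneg z) hz' 2
      gcongr
    · exact hI.const_mul _
    · refine Filter.Eventually.of_forall fun y => ?_
      exact (by fun_prop : Continuous fun z => φ (z + v * y)).continuousAt
  · refine ⟨|C| * 2 ^ N * ∫ y, (1 + (v * y) ^ 2) ^ N ∂(nu e), N, fun z => ?_⟩
    calc |∫ y, φ (z + v * y) ∂(nu e)| ≤ ∫ y, |φ (z + v * y)| ∂(nu e) :=
          abs_integral_le_integral_abs
      _ ≤ ∫ y, |C| * 2 ^ N * (1 + z ^ 2) ^ N * (1 + (v * y) ^ 2) ^ N ∂(nu e) := by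
          refine integral_mono_of_nonneg (Filter.Eventually.of_forall fun y => abs_nonneg _)
            (hI.const_mul _) (Filter.Eventually.of_forall fun y => hC' z y)
      _ = _ := by rw [integral_const_mul]; ring

lemma CPG.const_add {φ : ℝ → ℝ} (h : CPG φ) (z : ℝ) : CPG (fun y => φ (z + y)) := by
  simpa using h.affine z 1

lemma Lw_single (hadd : S_Lw_add) (hnil : S_Lw_nil) {φ : ℝ → ℝ} (hφ : CPG φ) (v : ℝ) (k : ℕ) :
    ∫ s, φ s ∂(Lw (Finsupp.single v k)) = ∫ y, φ (v * y) ∂(nu k) := by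
  have h := hadd 0 v k φ hφ
  rw [zero_add, hnil, integral_dirac] at h
  simpa using h

lemma Lw_two (hint : S_nu_int) (hadd : S_Lw_add) (hnil : S_Lw_nil) {φ : ℝ → ℝ} (hφ : CPG φ)
    (v v' : ℝ) (k k' : ℕ) :
    ∫ s, φ s ∂(Lw (Finsupp.single v k + Finsupp.single v' k')) =
      ∫ y, ∫ y', φ (v * y + v' * y') ∂(nu k') ∂(nu k) := by
  rw [hadd _ _ _ _ hφ, Lw_single hadd hnil (φ := fun s => ∫ y', φ (s + v' * y') ∂(nu k'))]
  exact hφ.int hint v' k'

/-- the two-point case with opposite signs, `a i = α ≥ β = - a j` -/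
lemma O3 (hpi : S_Lw_pi) (hrot : S_rot) (hbias : S_nu_bias) (hadd : S_Lw_add) (hzero : S_Lw_zero)
    (hnil : S_Lw_nil) (hint : S_nu_int)
    {f f1 ψ w w1 : ℝ → ℝ} (hG : Good f f1 ψ w w1) {n : ℕ}
    {a : Fin n → ℝ} (hM : Mx f a) {i j : Fin n} (hij : i ≠ j) {α β : ℝ} (hβ : 0 < β) (hαβ : β ≤ α)
    (hi : a i = α) (hj : a j = -β) (hk : ∀ k, k ≠ i → k ≠ j → a k = 0) : False := by
  have hα : 0 < α := lt_of_lt_of_le hβ hαβ
  -- the rest
  have hE : ∀ X : ℝ →₀ ℕ, Lw (E0 a i j + X) = Lw X := by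
    intro X
    have h1 : E0 a i j = Finsupp.single 0 ((Finset.univ.erase i).erase j).card := by
      unfold E0
      rw [Finset.sum_congr rfl (g := fun _ => Finsupp.single (0 : ℝ) 1)]
      · rw [Finset.sum_const, Finsupp.smul_single]
        simp
      · intro k hk'
        simp only [Finset.mem_erase, Finset.mem_univ, and_true] at hk'
        rw [hk k hk'.2 hk'.1]
    rw [h1, add_comm]
    exact hzero X _
  have hc0 : c0 a i j = 0 := by
    unfold c0
    refine Finset.sum_eq_zero fun k hk' => ?_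
    simp only [Finset.mem_erase, Finset.mem_univ, and_true] at hk'
    exact hk k hk'.2 hk'.1
  have hLw2 : ∀ (φ : ℝ → ℝ), CPG φ → ∀ (x x' : ℝ) (e1 e2 : ℕ),
      RR φ (E0 a i j) (c0 a i j) e1 e2 x x' =
        ∫ y1, ∫ y2, φ (x * y1 + x' * y2 - (x + x')) ∂(nu e2) ∂(nu e1) := by
    intro φ hφ x x' e1 e2
    unfold RR
    rw [add_assoc, hE, hc0, zero_add, Lw_two hint hadd hnil (hφ.sub_const _)]
  -- the difference of the two first-order terms
  have hdiff : ∀ x x' : ℝ, RR ψ (E0 a i j) (c0 a i j) 1 3 x x' -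
      RR ψ (E0 a i j) (c0 a i j) 3 1 x x' =
      - ∫ y1, ∫ y2, (y1 - y2) * ψ (x * (y1 - 1) - (-x') * (y2 - 1)) ∂(nu 1) ∂(nu 1) := by
    intro x x'
    have hψ := hG.g2
    have hψ' : CPG (fun s => ψ (s - (x + x'))) := hψ.sub_const _
    rw [hLw2 _ hψ, hLw2 _ hψ]
    have b : ∀ φ : ℝ → ℝ, ∫ y, φ y ∂(nu 3) = ∫ y, y * φ y ∂(nu 1) := by
      intro φ
      have := hbias 1 le_rfl φ
      simpa using this.symm
    have hin : ∀ y1 : ℝ, ∫ y2, ψ (x * y1 + x' * y2 - (x + x')) ∂(nu 3) =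
        ∫ y2, y2 * ψ (x * y1 + x' * y2 - (x + x')) ∂(nu 1) := fun y1 => b _
    rw [b (fun y1 => ∫ y2, ψ (x * y1 + x' * y2 - (x + x')) ∂(nu 1))]
    rw [← integral_neg, ← integral_sub]
    · congr 1
      ext y1
      rw [hin, ← integral_neg, ← integral_const_mul, ← integral_sub]
      · congr 1
        ext y2
        have : x * (y1 - 1) - (-x') * (y2 - 1) = x * y1 + x' * y2 - (x + x') := by ring
        rw [this]; ring
      · have h1 : CPG (fun y2 => ψ (x * y1 + x' * y2 - (x + x'))) := hψ'.affine (x * y1) x'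
        exact hint 1 _ h1.id_mul
      · have h1 : CPG (fun y2 => ψ (x * y1 + x' * y2 - (x + x'))) := hψ'.affine (x * y1) x'
        exact (hint 1 _ h1).const_mul _
    · have h1 : CPG (fun z => ∫ y2, ψ (z + x' * y2 - (x + x')) ∂(nu 3)) := hψ'.int hint x' 3
      have h2 := h1.affine 0 x
      simp only [zero_add] at h2
      exact hint 1 _ h2
    · have h1 : CPG (fun z => ∫ y2, ψ (z + x' * y2 - (x + x')) ∂(nu 1)) := hψ'.int hint x' 1
      have h2 := h1.affine 0 x
      simp only [zero_add] at h2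
      exact hint 1 _ h2.id_mul
  -- polar form
  set r : ℝ := Real.sqrt (α ^ 2 + β ^ 2) with hr
  have hr2 : r ^ 2 = α ^ 2 + β ^ 2 := Real.sq_sqrt (by positivity)
  have hr0 : 0 < r := Real.sqrt_pos.2 (by positivity)
  set θ0 : ℝ := - Real.arctan (β / α) with hθ0
  have hcos : r * Real.cos θ0 = α := by
    rw [hθ0, Real.cos_neg, Real.cos_arctan]
    have : 1 + (β / α) ^ 2 = (r / α) ^ 2 := by
      rw [div_pow, div_pow, hr2]; field_simp
    rw [this, Real.sqrt_sq (by positivity)]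
    field_simp
  have hsin : r * Real.sin θ0 = -β := by
    rw [hθ0, Real.sin_neg, Real.sin_arctan]
    have : 1 + (β / α) ^ 2 = (r / α) ^ 2 := by
      rw [div_pow, div_pow, hr2]; field_simp
    rw [this, Real.sqrt_sq (by positivity)]
    field_simp
  have hθlo : -(π / 4) ≤ θ0 := by
    rw [hθ0, neg_le_neg_iff, ← Real.arctan_one]
    exact Real.arctan_strictMono.monotone ((div_le_one hα).2 hαβ)
  have hθneg : θ0 < 0 := by
    rw [hθ0, neg_lt_zero]
    exact Real.arctan_pos.2 (by positivity)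
  have hmono : StrictMonoOn (fun θ => RR f (E0 a i j) (c0 a i j) 1 1 (r * Real.cos θ)
      (r * Real.sin θ)) (Set.Icc θ0 0) := by
    apply strictMonoOn_of_deriv_pos (convex_Icc _ _)
    · exact fun θ _ => (hrot f f1 ψ w w1 hG _ _ r θ).continuousAt.continuousWithinAt
    · intro θ hθ
      rw [interior_Icc] at hθ
      rw [(hrot f f1 ψ w w1 hG _ _ r θ).deriv, hdiff]
      have hp := Real.pi_pos
      have hs : Real.sin θ < 0 := Real.sin_neg_of_neg_of_neg_pi_lt hθ.2 (by linarith [hθ.1])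
      have hc : 0 < Real.cos θ := Real.cos_pos_of_mem_Ioo ⟨by linarith [hθ.1], by linarith [hθ.2]⟩
      have hsc : - Real.sin θ < Real.cos θ := by
        rw [← Real.sin_neg, ← Real.cos_neg, ← Real.sin_pi_div_two_sub]
        apply Real.sin_lt_sin_of_lt_of_le_pi_div_two
        · linarith [hθ.1, hθ.2]
        · linarith [hθ.1, hθ.2]
        · linarith [hθ.1, hθ.2]
      have h1 := hG.L1 (r * Real.cos θ) (-(r * Real.sin θ)) (by nlinarith) (by nlinarith)
      have h2 : 2 * (r * Real.cos θ) * (r * Real.sin θ) < 0 := by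
        have : 0 < r * Real.cos θ := by positivity
        have h3 : r * Real.sin θ < 0 := mul_neg_of_pos_of_neg hr0 hs
        nlinarith
      nlinarith
  have hlt := hmono (Set.left_mem_Icc.2 hθneg.le) (Set.right_mem_Icc.2 hθneg.le) hθneg
  simp only at hlt
  rw [hcos, hsin] at hlt
  have hle := RR_le hpi hG.g0 hM hij (r * Real.cos 0) (r * Real.sin 0) (by
    rw [hi, hj, Real.cos_zero, Real.sin_zero]
    nlinarith)
  rw [hi, hj] at hle
  exact absurd hlt (not_lt.2 hle)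

end Pool.Agent.R444.GQ
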